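import Pool.Agent.Helper382_Nodal.Count

/-! The proportion of hypersurfaces with at most nondegenerate singular points modulo all (large)
primes, and the models. -/

set_option autoImplicit false
set_option linter.unusedSectionVars false

namespace Pool.Agent.Helper382_Nodal

open MvPolynomial Pool.Agent.TH214.RM Pool.Agent.H918R2.Quad Finset Pool.Agent.W418

/-- The conditions at the large primes. -/
def GoodZ {n d : ℕ} (z : ℕ) (x : Mon n d → ℤ) : Prop :=
  (∀ p : ℕ, p.Prime → z < p → Nod (Ideal.span {(p : ℤ)}) (form x)) ∧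
    ∀ (K : Type) [Field K] [CharZero K], Smooth (map (algebraMap ℤ K) (form x))

open scoped Classical in
theorem density_large (n d : ℕ) (hd : 1 ≤ d) (ε : ℝ) (hε : 0 < ε) : ∃ z : ℕ, ∃ H₀ : ℕ, ∀ H : ℕ,
    H₀ ≤ H → (1 - ε) * ((2 * H + 1 : ℕ) : ℝ) ^ Fintype.card (Mon n d) ≤
      #{x ∈ Fintype.piFinset (fun _ : Mon n d => Icc (-(H : ℤ)) H) | GoodZ z x} := by
  choose R B M₀ hR0 hbad using fun s : Fin (n + 2) => bad_cond s d hd
  choose R₀ hR₀0 hsm using fun s : Fin (n + 2) => smooth_cond s d hd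
  have hcard0 : (0 : ℝ) < ε / (2 * (n + 2)) := by positivity
  choose z₀ hz₀ using fun s : Fin (n + 2) =>
    sieve (m₀ s d) (hbad s) (hR0 s) (ε / (2 * (n + 2))) hcard0
  set z : ℕ := univ.sup z₀ with hz
  have hzs : ∀ s, z₀ s ≤ z := fun s => le_sup (mem_univ s)
  choose L₀ hL₀ using fun s : Fin (n + 2) => hz₀ s z (hzs s) 1
  set RR : MvPolynomial (Mon n d) ℤ := ∏ s, R₀ s with hRR
  have hRR0 : RR ≠ 0 := prod_ne_zero_iff.2 fun s _ => hR₀0 s
  set N : ℕ := Fintype.card (Mon n d) with hN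
  obtain ⟨L₂, hL₂⟩ := exists_nat_gt (2 * (RR.totalDegree : ℝ) / ε)
  refine ⟨z, max (univ.sup L₀) L₂, fun H hH => ?_⟩
  set L : ℕ := 2 * H + 1 with hL
  have hLs : ∀ s, L₀ s ≤ L := fun s => (le_sup (f := L₀) (mem_univ s)).trans
    (by have := (le_max_left _ _).trans hH; omega)
  have hLL₂ : L₂ ≤ L := by
    have := (le_max_right _ _).trans hH
    omega
  have hL0 : (0 : ℝ) < L := by
    have : 0 < L := by omega
    exact_mod_cast this
  set S : Mon n d → Finset ℤ := fun _ => Icc (-(H : ℤ)) H with hS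
  have hSL : ∀ m, #(S m) = L := by
    intro m
    rw [hS]
    simp only [Int.card_Icc]
    omega
  have hScl : ∀ m, ∀ p : ℕ, p.Prime → z < p → ∀ r : ZMod p,
      #{x ∈ S m | ((x : ℤ) : ZMod p) = r} ≤ L / p + 1 := fun m p hp _ r =>
    card_class H p hp.pos r
  have hSA : ∀ m, ∀ x ∈ S m, |x| ≤ (1 : ℕ) * L := by
    intro m x hx
    rw [hS, mem_Icc, ← abs_le] at hx
    rw [hL]
    push_cast
    linarith
  have hbadc : ∀ s : Fin (n + 2),
      (#{x ∈ Fintype.piFinset S | ∃ p, p.Prime ∧ z < p ∧ BadS s p x} : ℝ) ≤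
        ε / (2 * (n + 2)) * (L : ℝ) ^ N := fun s => hL₀ s L (hLs s) S hSL hScl hSA
  have hzero : (#{x ∈ Fintype.piFinset S | eval x RR = 0} : ℝ) ≤ ε / 2 * (L : ℝ) ^ N := by
    have h1 := sz RR hRR0 L (by omega) S hSL
    have h2 : (#{x ∈ Fintype.piFinset S | eval x RR = 0} : ℝ) * L ≤
        RR.totalDegree * (L : ℝ) ^ N := by exact_mod_cast h1
    have h3 : (RR.totalDegree : ℝ) ≤ ε / 2 * L := by
      have h4 : 2 * (RR.totalDegree : ℝ) / ε < L := lt_of_lt_of_le hL₂ (by exact_mod_cast hLL₂)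
      rw [div_lt_iff₀ hε] at h4
      linarith
    have h4 : (0 : ℝ) ≤ (L : ℝ) ^ N := by positivity
    have h5 : (#{x ∈ Fintype.piFinset S | eval x RR = 0} : ℝ) * L ≤
        (ε / 2 * (L : ℝ) ^ N) * L := by nlinarith
    exact le_of_mul_le_mul_right h5 hL0
  have hcov : Fintype.piFinset S ⊆ {x ∈ Fintype.piFinset S | GoodZ z x} ∪
      ((univ.biUnion fun s : Fin (n + 2) =>
        {x ∈ Fintype.piFinset S | ∃ p, p.Prime ∧ z < p ∧ BadS s p x}) ∪
        {x ∈ Fintype.piFinset S | eval x RR = 0}) := by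
    intro x hx
    by_cases h0 : eval x RR = 0
    · exact mem_union_right _ (mem_union_right _ (mem_filter.2 ⟨hx, h0⟩))
    by_cases hb : ∃ s : Fin (n + 2), ∃ p, p.Prime ∧ z < p ∧ BadS s p x
    · obtain ⟨s, hs⟩ := hb
      refine mem_union_right _ (mem_union_left _ (mem_biUnion.2 ⟨s, mem_univ s, ?_⟩))
      exact mem_filter.2 ⟨hx, hs⟩
    · refine mem_union_left _ (mem_filter.2 ⟨hx, ?_, ?_⟩)
      · intro p hp hzp
        push Not at hb
        exact nod_of_not_bad p x fun s => hb s p hp hzp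
      · intro K _ _ s
        refine hsm s x ?_ K
        intro h1
        apply h0
        rw [hRR, map_prod]
        exact prod_eq_zero (mem_univ s) h1
  have h1 : #(Fintype.piFinset S) = L ^ N := by
    rw [Fintype.card_piFinset]
    simp only [hSL, prod_const, card_univ]
    rfl
  have h2 := (card_le_card hcov).trans ((card_union_le _ _).trans
    (add_le_add_right ((card_union_le _ _).trans (add_le_add_left card_biUnion_le _)) _))
  rw [h1] at h2
  have h3 : ((L : ℝ) ^ N) ≤ #{x ∈ Fintype.piFinset S | GoodZ z x} +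
      (∑ s : Fin (n + 2), (#{x ∈ Fintype.piFinset S | ∃ p, p.Prime ∧ z < p ∧ BadS s p x} : ℝ) +
        (#{x ∈ Fintype.piFinset S | eval x RR = 0} : ℝ)) := by exact_mod_cast h2
  have h4 : ∑ s : Fin (n + 2),
      (#{x ∈ Fintype.piFinset S | ∃ p, p.Prime ∧ z < p ∧ BadS s p x} : ℝ) ≤
      ε / 2 * (L : ℝ) ^ N := by
    calc _ ≤ ∑ s : Fin (n + 2), ε / (2 * ((n : ℝ) + 2)) * (L : ℝ) ^ N :=
          sum_le_sum fun s _ => hbadc s
      _ = ε / 2 * (L : ℝ) ^ N := by
          rw [sum_const, card_univ, Fintype.card_fin, nsmul_eq_mul]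
          push_cast
          field_simp
  linarith

/-! ### Polynomials instead of coefficient vectors -/

/-- The forms of degree `d` with coefficients of absolute value at most `H`. -/
def FormsH (n d H : ℕ) : Set (MvPolynomial (Fin (n + 2)) ℤ) :=
  {F | F.IsHomogeneous d ∧ ∀ m, |F.coeff m| ≤ (H : ℤ)}

theorem form_injective (n d : ℕ) :
    Function.Injective (form : (Mon n d → ℤ) → MvPolynomial (Fin (n + 2)) ℤ) := by
  intro c c' h
  funext m
  rw [← coeff_form c m, ← coeff_form c' m, h]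

theorem image_form (n d H : ℕ) (P : MvPolynomial (Fin (n + 2)) ℤ → Prop)
    [DecidablePred fun x : Mon n d → ℤ => P (form x)] :
    {F | F ∈ FormsH n d H ∧ P F} =
      form '' (({x ∈ Fintype.piFinset (fun _ : Mon n d => Icc (-(H : ℤ)) H) | P (form x)} :
        Finset (Mon n d → ℤ)) : Set (Mon n d → ℤ)) := by
  ext F
  constructor
  · rintro ⟨⟨hF, hc⟩, hP⟩
    refine ⟨fun m => F.coeff m.1, ?_, form_coeff F hF⟩
    rw [mem_coe, mem_filter, Fintype.mem_piFinset]
    refine ⟨fun m => ?_, ?_⟩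
    · rw [mem_Icc, ← abs_le]
      exact hc m.1
    · rw [form_coeff F hF]
      exact hP
  · rintro ⟨x, hx, rfl⟩
    rw [mem_coe, mem_filter, Fintype.mem_piFinset] at hx
    refine ⟨⟨form_homog x, fun m => ?_⟩, hx.2⟩
    by_cases hm : ∑ i, m i = d
    · have h1 := coeff_form x (mkMon m hm)
      have h2 : (mkMon m hm : Mon n d).1 = m := rfl
      rw [h2] at h1
      rw [h1]
      have h3 := hx.1 (mkMon m hm)
      rwa [mem_Icc, ← abs_le] at h3
    · rw [(form_homog x).coeff_eq_zero (by rw [Finsupp.degree_eq_sum]; exact hm), abs_zero]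
      positivity

open scoped Classical in
theorem ncard_forms (n d H : ℕ) (P : MvPolynomial (Fin (n + 2)) ℤ → Prop) :
    {F | F ∈ FormsH n d H ∧ P F}.ncard =
      #{x ∈ Fintype.piFinset (fun _ : Mon n d => Icc (-(H : ℤ)) H) | P (form x)} := by
  rw [image_form, Set.ncard_image_of_injective _ (form_injective n d), Set.ncard_coe_finset]

theorem card_forms (n d H : ℕ) :
    (FormsH n d H).ncard = (2 * H + 1) ^ Fintype.card (Mon n d) := by
  classical
  have h1 := ncard_forms n d H (fun _ => True)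
  have h2 : {F | F ∈ FormsH n d H ∧ True} = FormsH n d H := by
    ext F
    simp
  rw [h2] at h1
  have h3 : #{x ∈ Fintype.piFinset (fun _ : Mon n d => Icc (-(H : ℤ)) H) | True} =
      #(Fintype.piFinset (fun _ : Mon n d => Icc (-(H : ℤ)) H)) := by
    congr 1
    ext x
    simp
  have h4 : (FormsH n d H).ncard = #(Fintype.piFinset (fun _ : Mon n d => Icc (-(H : ℤ)) H)) := by
    rw [h1, ← h3]
    congr 1
    ext x
    simp only [mem_filter]
  rw [h4, Fintype.card_piFinset]
  simp only [Int.card_Icc, prod_const, card_univ]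
  congr 1
  omega

theorem finite_forms (n d H : ℕ) : (FormsH n d H).Finite := by
  classical
  have h1 := image_form n d H (fun _ => True)
  have h2 : {F | F ∈ FormsH n d H ∧ True} = FormsH n d H := by
    ext F
    simp
  rw [h2] at h1
  rw [h1]
  exact (Finset.finite_toSet _).image _

theorem density_forms (n d : ℕ) (hd : 3 ≤ d) : ∃ c : ℝ, 0 < c ∧ ∃ H₀ : ℕ, ∀ H : ℕ, H₀ ≤ H →
    c * (FormsH n d H).ncard ≤
      {F | F ∈ FormsH n d H ∧ ((∀ p : ℕ, p.Prime → Nod (Ideal.span {(p : ℤ)}) F) ∧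
        ∀ (K : Type) [Field K] [CharZero K], Smooth (map (algebraMap ℤ K) F))}.ncard := by
  classical
  obtain ⟨c, hc, H₀, h⟩ := density n d hd
  refine ⟨c, hc, H₀, fun H hH => ?_⟩
  have h1 := h H hH
  rw [card_forms, ncard_forms]
  push_cast at h1 ⊢
  convert h1 using 3
  ext x
  simp only [mem_filter]
  exact Iff.rfl

theorem density_large_forms (n d : ℕ) (hd : 1 ≤ d) (ε : ℝ) (hε : 0 < ε) : ∃ z : ℕ, ∃ H₀ : ℕ,
    ∀ H : ℕ, H₀ ≤ H → (1 - ε) * (FormsH n d H).ncard ≤
      {F | F ∈ FormsH n d H ∧ ((∀ p : ℕ, p.Prime → z < p → Nod (Ideal.span {(p : ℤ)}) F) ∧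
        ∀ (K : Type) [Field K] [CharZero K], Smooth (map (algebraMap ℤ K) F))}.ncard := by
  classical
  obtain ⟨z, H₀, h⟩ := density_large n d hd ε hε
  refine ⟨z, H₀, fun H hH => ?_⟩
  have h1 := h H hH
  rw [card_forms, ncard_forms]
  push_cast at h1 ⊢
  convert h1 using 3
  ext x
  simp only [mem_filter]
  exact Iff.rfl

end Pool.Agent.Helper382_Nodal
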