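import Pool.Agent.Helper382_Nodal.Final

/-! Models over the rings of integers with finitely many primes inverted. -/

set_option autoImplicit false
set_option linter.unusedSectionVars false
set_option linter.unusedVariables false

open AlgebraicGeometry CategoryTheory CategoryTheory.Limits MvPolynomial NumberField
open scoped Pointwise

namespace Pool.Agent.Helper382_Nodal

open Pool.Agent.H918R2.Quad Pool.Agent.W418 Pool.Agent.TH214.RM

theorem model_gen {O K : Type} [CommRing O] [IsDedekindDomain O] [Field K] [CharZero K]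
    [Algebra O K] [IsFractionRing O K] {n : ℕ} (hn : 1 ≤ n)
    (G : MvPolynomial (Fin (n + 2)) K) (d : ℕ) (hd : 2 ≤ d) (hGd : G.IsHomogeneous d)
    (hsm : Smooth G) (hloc : LocNod O G) {A : Type} [CommRing A] [Algebra K A]
    (π : MvPolynomial (Fin (n + 2)) K →ₐ[K] A) (hπ : Function.Surjective π)
    (hker : RingHom.ker π = Ideal.span {G})
    (𝒜 : ℕ → Submodule K A) [GradedAlgebra 𝒜]
    (h𝒜 : ∀ d, 𝒜 d = (homogeneousSubmodule (Fin (n + 2)) K d).map π.toLinearMap)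
    {Y : Scheme.{0}} (f : Y ⟶ Spec (CommRingCat.of K)) (i : Y ≅ Proj 𝒜)
    (hi : i.hom ≫ GO.projStr 𝒜 = f) : GO.HasModel O K f := by
  have hirr := irreducible_of_smooth hn G d (by omega) hGd hsm
  obtain ⟨F, _, _, x, b, hx0, hrel, hgen, htb⟩ := exists_ff G hirr d hGd
    (not_dvd_X G hirr.ne_zero d hd hGd)
  let _ : Algebra O F := ((algebraMap K F).comp (algebraMap O K)).toAlgebra
  have hst : IsScalarTower O K F := IsScalarTower.of_algebraMap_eq fun _ => rfl
  have hM : GoodModule O x :=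
    goodModule_of_locNod (K := K) G hirr.ne_zero d hGd hsm hloc x hx0 hrel hgen b htb
  obtain ⟨ε, hε, hεgen, hε1⟩ := exists_eps x hx0 hgen _ htb G hirr.prime d hGd hrel π hπ hker 𝒜 h𝒜
  exact hasModel_of_goodModule (O := O) 𝒜 ε hε hεgen x hε1 hM f i hi

/-- Integral forms with nondegenerate singular points modulo the primes not dividing `M`. -/
theorem locNod_away {K : Type} [Field K] [NumberField K] {n : ℕ}
    (F : MvPolynomial (Fin (n + 2)) ℤ) (M : ℕ)
    (h : ∀ p : ℕ, p.Prime → ¬ p ∣ M → Nod (Ideal.span {(p : ℤ)}) F)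
    (O : Type) [CommRing O] [Algebra (𝓞 K) O] [IsLocalization.Away (M : 𝓞 K) O]
    [Algebra O K] [IsScalarTower (𝓞 K) O K] :
    LocNod O (map (algebraMap ℤ K) F) := by
  intro 𝔮 hp h0
  classical
  set 𝔭 : Ideal (𝓞 K) := 𝔮.comap (algebraMap (𝓞 K) O) with h𝔭
  have hpp : 𝔭.IsPrime := Ideal.comap_isPrime _ _
  have hp0 : 𝔭 ≠ ⊥ := by
    obtain ⟨x, hx, hx0⟩ := Submodule.exists_mem_ne_zero_of_ne_bot h0
    obtain ⟨⟨a, s⟩, ha⟩ := IsLocalization.surj (Submonoid.powers (M : 𝓞 K)) x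
    intro h1
    have h2 : a ∈ 𝔭 := by
      rw [h𝔭, Ideal.mem_comap]
      have h3 : algebraMap (𝓞 K) O (a, s).1 = x * algebraMap (𝓞 K) O (a, s).2 := ha.symm
      change algebraMap (𝓞 K) O a = _ at h3
      rw [h3]
      exact 𝔮.mul_mem_right _ hx
    rw [h1, Ideal.mem_bot] at h2
    have h3 : x * algebraMap (𝓞 K) O (a, s).2 = algebraMap (𝓞 K) O (a, s).1 := ha
    change x * algebraMap (𝓞 K) O s = algebraMap (𝓞 K) O a at h3
    rw [h2, map_zero] at h3
    have hu : IsUnit (algebraMap (𝓞 K) O s) := IsLocalization.map_units O s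
    exact hx0 ((hu.mul_left_eq_zero).1 h3)
  have hpc : (𝔭.comap (algebraMap ℤ (𝓞 K))).IsPrime := Ideal.comap_isPrime _ _
  have hne : 𝔭.comap (algebraMap ℤ (𝓞 K)) ≠ ⊥ := by
    obtain ⟨x, hx, hx0⟩ := Submodule.exists_mem_ne_zero_of_ne_bot hp0
    exact Ideal.comap_ne_bot_of_integral_mem hx0 hx (Algebra.IsIntegral.isIntegral x)
  obtain ⟨p, hpp', hp𝔭⟩ : ∃ p : ℕ, p.Prime ∧ 𝔭.comap (algebraMap ℤ (𝓞 K)) =
      Ideal.span {(p : ℤ)} := by
    obtain ⟨a, ha⟩ := (IsPrincipalIdealRing.principal (𝔭.comap (algebraMap ℤ (𝓞 K)))).principal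
    have ha' : 𝔭.comap (algebraMap ℤ (𝓞 K)) = Ideal.span {a} := ha
    have ha0 : a ≠ 0 := by
      rintro rfl
      rw [Ideal.span_singleton_zero] at ha'
      exact hne ha'
    have hprime : Prime a := by
      rw [ha'] at hpc
      exact (Ideal.span_singleton_prime ha0).1 hpc
    refine ⟨a.natAbs, Int.prime_iff_natAbs_prime.1 hprime, ?_⟩
    rw [ha', Int.span_natAbs]
  have hpM : ¬ p ∣ M := by
    intro hdvd
    have h1 : (M : ℤ) ∈ 𝔭.comap (algebraMap ℤ (𝓞 K)) := by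
      rw [hp𝔭, Ideal.mem_span_singleton]
      exact_mod_cast hdvd
    rw [Ideal.mem_comap, map_natCast, h𝔭, Ideal.mem_comap] at h1
    exact hp.ne_top (Ideal.eq_top_of_isUnit_mem _ h1
      (IsLocalization.Away.algebraMap_isUnit (M : 𝓞 K)))
  have hcomp : (algebraMap O K).comp ((algebraMap (𝓞 K) O).comp (algebraMap ℤ (𝓞 K))) =
      algebraMap ℤ K := RingHom.ext_int _ _
  refine ⟨map ((algebraMap (𝓞 K) O).comp (algebraMap ℤ (𝓞 K))) F, 1, 1, 1, one_ne_zero,
    one_mul _, ?_, Or.inr ?_⟩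
  · rw [C_1, one_mul, map_map, hcomp]
    have h1 : (fun i => ∑ j, C ((1 : Matrix (Fin (n + 2)) (Fin (n + 2)) K) i j) * X j) =
        (X : Fin (n + 2) → MvPolynomial (Fin (n + 2)) K) := by
      funext i
      rw [Finset.sum_eq_single i]
      · rw [Matrix.one_apply_eq, C_1, one_mul]
      · intro j _ hj
        rw [Matrix.one_apply_ne (fun h => hj h.symm), C_0, zero_mul]
      · intro h
        exact absurd (Finset.mem_univ i) h
    rw [h1, aeval_X_left_apply]
  · refine nod_map _ (𝔭.comap (algebraMap ℤ (𝓞 K))) 𝔮 ?_ F (by rw [hp𝔭]; exact h p hpp' hpM)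
    rw [h𝔭, Ideal.comap_comap]

/-- Models over the localizations of the ring of integers. -/
theorem model_away {K : Type} [Field K] [NumberField K] {n : ℕ} (hn : 1 ≤ n)
    (P : MvPolynomial (Fin (n + 2)) ℤ) (d : ℕ) (hd : 2 ≤ d) (hPd : P.IsHomogeneous d)
    (hsm : Smooth (map (algebraMap ℤ K) P)) (M : ℕ) (hM0 : M ≠ 0)
    (h : ∀ p : ℕ, p.Prime → ¬ p ∣ M → Nod (Ideal.span {(p : ℤ)}) P)
    (O : Type) [CommRing O] [Algebra (𝓞 K) O] [IsLocalization.Away (M : 𝓞 K) O]
    [Algebra O K] [IsScalarTower (𝓞 K) O K] {A : Type} [CommRing A] [Algebra K A]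
    (π : MvPolynomial (Fin (n + 2)) K →ₐ[K] A) (hπ : Function.Surjective π)
    (hker : RingHom.ker π = Ideal.span {map (algebraMap ℤ K) P})
    (𝒜 : ℕ → Submodule K A) [GradedAlgebra 𝒜]
    (h𝒜 : ∀ d, 𝒜 d = (homogeneousSubmodule (Fin (n + 2)) K d).map π.toLinearMap)
    {Y : Scheme.{0}} (f : Y ⟶ Spec (CommRingCat.of K)) (i : Y ≅ Proj 𝒜)
    (hi : i.hom ≫ GO.projStr 𝒜 = f) : GO.HasModel O K f := by
  have hle : Submonoid.powers (M : 𝓞 K) ≤ nonZeroDivisors (𝓞 K) :=
    powers_le_nonZeroDivisors_of_noZeroDivisors (Nat.cast_ne_zero.2 hM0)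
  have hdom : IsDomain O := IsLocalization.isDomain_of_le_nonZeroDivisors O hle
  have hded : IsDedekindDomain O := IsLocalization.isDedekindDomain (𝓞 K) hle O
  have hfr : IsFractionRing O K :=
    IsFractionRing.isFractionRing_of_isDomain_of_isLocalization
      (Submonoid.powers (M : 𝓞 K)) O K
  exact model_gen hn _ d hd (hPd.map _) hsm (locNod_away P M h O) π hπ hker 𝒜 h𝒜 f i hi

end Pool.Agent.Helper382_Nodal
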