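import Pool.Agent.Helper382_Nodal.Away

/-! Regular models in terms of function fields. -/

set_option autoImplicit false
set_option linter.unusedSectionVars false
set_option linter.unusedVariables false

open AlgebraicGeometry CategoryTheory CategoryTheory.Limits MvPolynomial NumberField
open scoped Pointwise

namespace Pool.Agent.Helper382_Nodal

open Pool.Agent.H918R2.Quad Pool.Agent.W418 Pool.Agent.TH214.RM

theorem hasModule_of_good {O K F : Type} [CommRing O] [IsDomain O] [Field K] [Algebra O K]
    [IsFractionRing O K] [Field F] [Algebra K F] [Algebra O F] [IsScalarTower O K F]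
    {n : ℕ} (x : Fin (n + 2) → F) (hx0 : x 0 = 1)
    (hgen : IntermediateField.adjoin K (Set.range x) = ⊤) (h : GoodModule O x) :
    HasModule O F := by
  obtain ⟨D, M, hD, hMfg, hM0, hMG, hGM, hreg⟩ := h
  have hOK : Function.Injective (algebraMap O K) := IsFractionRing.injective O K
  have hOF : Function.Injective (algebraMap O F) := by
    rw [IsScalarTower.algebraMap_eq O K F]
    exact (algebraMap K F).injective.comp hOK
  refine ⟨M, hMfg, hM0, fun f hf hf0 y => ?_, hreg⟩
  set S : Subalgebra O F := chart O M f with hS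
  have hmem : ∀ m ∈ M, m / f ∈ S := fun m hm => Algebra.subset_adjoin ⟨m, hm, rfl⟩
  set L : Subfield F := Subfield.closure (S : Set F) with hL
  have hSL : ∀ z ∈ S, z ∈ L := fun z hz => Subfield.subset_closure hz
  have hO : ∀ a : O, algebraMap O F a ∈ L := fun a => hSL _ (S.algebraMap_mem a)
  have hK : ∀ k : K, algebraMap K F k ∈ L := by
    intro k
    obtain ⟨a, b, -, rfl⟩ := IsFractionRing.div_surjective (A := O) k
    rw [map_div₀, ← IsScalarTower.algebraMap_apply, ← IsScalarTower.algebraMap_apply]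
    exact L.div_mem (hO a) (hO b)
  have hMe : ∀ i, ∃ s : O, s ≠ 0 ∧ algebraMap O F s * x i / f ∈ L := by
    intro i
    have h1 : x i ∈ Submodule.span O (Set.range x ^ D) := by
      refine Submodule.subset_span ?_
      obtain ⟨e, rfl⟩ : ∃ e, D = e + 1 := ⟨D - 1, by omega⟩
      rw [pow_succ]
      refine ⟨1, ?_, x i, ⟨i, rfl⟩, one_mul _⟩
      have h2 : (1 : F) ∈ Set.range x := ⟨0, hx0⟩
      have h3 := Set.pow_mem_pow (n := e) h2
      rwa [one_pow] at h3
    obtain ⟨s, hs, hsm⟩ := hGM _ h1
    refine ⟨s, hs, hSL _ ?_⟩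
    rw [← Algebra.smul_def]
    exact hmem _ hsm
  have hx : ∀ i, x i ∈ L := by
    intro i
    obtain ⟨s, hs, h1⟩ := hMe i
    obtain ⟨t, ht, h2⟩ := hMe 0
    rw [hx0, mul_one] at h2
    have hs' : algebraMap O F s ≠ 0 := fun h => hs (hOF (by rw [h, map_zero]))
    have ht' : algebraMap O F t ≠ 0 := fun h => ht (hOF (by rw [h, map_zero]))
    have h3 : x i = (algebraMap O F s * x i / f) / (algebraMap O F t / f) *
        (algebraMap O F t / algebraMap O F s) := by
      field_simp
    rw [h3]
    exact L.mul_mem (L.div_mem h1 h2) (L.div_mem (hO t) (hO s))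
  have htop : (⊤ : IntermediateField K F) ≤ L.toIntermediateField (fun k => hK k) := by
    rw [← hgen, IntermediateField.adjoin_le_iff]
    rintro _ ⟨i, rfl⟩
    exact hx i
  have hy : y ∈ L := htop (IntermediateField.mem_top)
  rw [hL, Subfield.mem_closure_iff] at hy
  obtain ⟨a, ha, b, hb, hab⟩ := hy
  have hcl : Subring.closure (S : Set F) = S.toSubring := by
    refine le_antisymm (Subring.closure_le.2 fun z hz => hz) fun z hz => Subring.subset_closure hz
  rw [hcl] at ha hb
  by_cases hb0 : b = 0
  · refine ⟨0, S.zero_mem, 1, S.one_mem, one_ne_zero, ?_⟩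
    rw [← hab, hb0, div_zero, zero_div]
  · exact ⟨a, ha, b, hb, hb0, hab.symm⟩

/-- Function fields of hypersurfaces with nondegenerate or regular fibres have regular models. -/
theorem model_B {K : Type} [Field K] [NumberField K] {n : ℕ} (hn : 1 ≤ n)
    (G : MvPolynomial (Fin (n + 2)) K) (d : ℕ) (hd : 2 ≤ d) (hGd : G.IsHomogeneous d)
    (hsm : Smooth G) (hloc : LocNod (𝓞 K) G) {F : Type} [Field F] [Algebra K F]
    (x : Fin (n + 2) → F) (hx0 : x 0 = 1) (hrel : aeval x G = 0)
    (hgen : IntermediateField.adjoin K (Set.range x) = ⊤)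
    (htr : Algebra.trdeg K F = n) :
    ∃ (X' : Scheme.{0}) (_ : IsIntegral X') (g : X' ⟶ Spec (CommRingCat.of ℤ)),
      IsProper g ∧
      (∀ x : X',
        (((Module.finrank (IsLocalRing.ResidueField (X'.presheaf.stalk x))
            (IsLocalRing.CotangentSpace (X'.presheaf.stalk x)) : ℕ∞)) : WithBot ℕ∞)
          = ringKrullDim (X'.presheaf.stalk x)) ∧
      Nonempty (X'.functionField ≃+* F) := by
  have hirr := irreducible_of_smooth hn G d (by omega) hGd hsm
  let _ : Algebra (𝓞 K) F := ((algebraMap K F).comp (algebraMap (𝓞 K) K)).toAlgebra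
  have hst : IsScalarTower (𝓞 K) K F := IsScalarTower.of_algebraMap_eq fun _ => rfl
  have hOF : Function.Injective (algebraMap (𝓞 K) F) := by
    rw [IsScalarTower.algebraMap_eq (𝓞 K) K F]
    exact (algebraMap K F).injective.comp (IsFractionRing.injective (𝓞 K) K)
  obtain ⟨ι, b, hb⟩ := exists_isTranscendenceBasis' K F
  have hc := hb.cardinalMk_eq_trdeg
  rw [htr, ← Cardinal.mk_fin] at hc
  obtain ⟨e⟩ := Cardinal.eq.1 hc
  have hb' : IsTranscendenceBasis K (b ∘ e.symm) :=
    (isTranscendenceBasis_equiv e.symm).2 hb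
  have hM : GoodModule (𝓞 K) x :=
    goodModule_of_locNod (K := K) G hirr.ne_zero d hGd hsm hloc x hx0 hrel hgen _ hb'
  exact model_of_hasModule hOF (hasModule_of_good (K := K) x hx0 hgen hM)

end Pool.Agent.Helper382_Nodal
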