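import Pool.Agent.Helper382_Nodal.Pres2
import Pool.Agent.TH214.RM.Smooth

/-! Regularity of a local ring of the blow-up. -/

set_option autoImplicit false
set_option linter.unusedSectionVars false

namespace Pool.Agent.Helper382_Nodal

open MvPolynomial Pool.Agent.H918R2.Quad

section

variable {F : Type} [Field F] {𝒪 : Subring F}

/-- A unit which is a finite sum has a summand which is a unit. -/
theorem exists_U_of_sum (hloc : IsLoc 𝒪) {κ : Type} (s : Finset κ) (f : κ → F)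
    (hf : ∀ i ∈ s, f i ∈ 𝒪) (h : U 𝒪 (∑ i ∈ s, f i)) : ∃ i ∈ s, U 𝒪 (f i) := by
  classical
  induction s using Finset.induction_on with
  | empty =>
    rw [Finset.sum_empty] at h
    exact absurd h not_U_zero
  | insert b s hb ih =>
    rw [Finset.sum_insert hb] at h
    rcases hloc _ _ (hf b (Finset.mem_insert_self _ _))
      (𝒪.sum_mem fun i hi => hf i (Finset.mem_insert_of_mem hi)) h with h1 | h1
    · exact ⟨b, Finset.mem_insert_self _ _, h1⟩
    · obtain ⟨i, hi, h2⟩ := ih (fun i hi => hf i (Finset.mem_insert_of_mem hi)) h1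
      exact ⟨i, Finset.mem_insert_of_mem hi, h2⟩

variable {R : Type} [CommRing R] [Algebra R F] {σ : Type}

/-- The evaluation at a point of the chart. -/
noncomputable def evW (R : Type) [CommRing R] [Algebra R F] (t w : σ → F) (u v : F) :
    MvPolynomial (Vr σ) R →ₐ[R] F :=
  aeval (Sum.elim (Sum.elim t w) fun b => if b then u else v)

theorem evW_io (t w : σ → F) (u v : F) (g : MvPolynomial σ R) :
    evW R t w u v (io g) = aeval t g := by
  have h1 : (evW R t w u v).comp io = (aeval t : MvPolynomial σ R →ₐ[R] F) := by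
    apply MvPolynomial.algHom_ext
    intro l
    unfold io evW
    rw [AlgHom.comp_apply, rename_X, aeval_X, aeval_X]
    rfl
  rw [← h1]
  rfl

theorem evW_w (t w : σ → F) (u v : F) (l : σ) : evW R t w u v (wv R l) = w l := by
  unfold evW wv
  rw [aeval_X]
  rfl

theorem evW_u (t w : σ → F) (u v : F) : evW R t w u v (uv R σ) = u := by
  unfold evW uv
  rw [aeval_X]
  rfl

theorem evW_v (t w : σ → F) (u v : F) : evW R t w u v (vv R σ) = v := by
  unfold evW vv
  rw [aeval_X]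
  rfl

theorem evW_mem (hR : ∀ r : R, algebraMap R F r ∈ 𝒪) (t w : σ → F) (u v : F)
    (ht : ∀ l, t l ∈ 𝒪) (hw : ∀ l, w l ∈ 𝒪) (hu : u ∈ 𝒪) (hv : v ∈ 𝒪)
    (p : MvPolynomial (Vr σ) R) : evW R t w u v p ∈ 𝒪 := by
  induction p using MvPolynomial.induction_on with
  | C r =>
    have h1 : evW R t w u v (C r) = algebraMap R F r := aeval_C _ r
    rw [h1]
    exact hR r
  | add p q hp hq => rw [map_add]; exact 𝒪.add_mem hp hq
  | mul_X p i hp =>
    rw [map_mul]
    refine 𝒪.mul_mem hp ?_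
    unfold evW
    rw [aeval_X]
    rcases i with (l | l) | b
    · exact ht l
    · exact hw l
    · cases b
      · exact hv
      · exact hu

theorem io_eq (g : MvPolynomial σ R) :
    aeval (fun l : σ => (X (Sum.inl (Sum.inl l)) : MvPolynomial (Vr σ) R)) g = io g := by
  have h1 : (aeval (fun l : σ => (X (Sum.inl (Sum.inl l)) : MvPolynomial (Vr σ) R)) :
      MvPolynomial σ R →ₐ[R] MvPolynomial (Vr σ) R) = io := by
    apply MvPolynomial.algHom_ext
    intro l
    unfold io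
    rw [rename_X, aeval_X]
  rw [h1]

end

section

variable {R F σ : Type} [CommRing R] [IsDomain R] [IsDiscreteValuationRing R] [Field F]
  [Algebra R F] [Fintype σ] [DecidableEq σ]
  (𝒪 : Subring F) (hloc : IsLoc 𝒪) (hR : ∀ r : R, algebraMap R F r ∈ 𝒪)
  (hRU : ∀ r : R, U 𝒪 (algebraMap R F r) → IsUnit r) (hp0 : ∀ π : R, π ≠ 0 → algebraMap R F π ≠ 0)
  (π : R) (hπ : Irreducible π) (G : MvPolynomial σ R) (t : σ → F) (ht : ∀ l, t l ∈ 𝒪)

theorem aeval_mem' (hR : ∀ r : R, algebraMap R F r ∈ 𝒪) (ht : ∀ l, t l ∈ 𝒪)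
    (p : MvPolynomial σ R) : aeval t p ∈ 𝒪 := by
  induction p using MvPolynomial.induction_on with
  | C r => rw [aeval_C]; exact hR r
  | add p q hp hq => rw [map_add]; exact 𝒪.add_mem hp hq
  | mul_X p i hp =>
    rw [map_mul, aeval_X]
    exact 𝒪.mul_mem hp (ht i)

include hloc hR hRU hp0 hπ ht

/-- The prime of the point in the original chart. -/
theorem exists_Q0 : ∃ Q : Ideal (MvPolynomial σ R), Q.IsPrime ∧
    (∀ g, g ∈ Q ↔ ¬ U 𝒪 (aeval t g)) ∧ (∀ r : R, C r ∈ Q ↔ ¬ IsUnit r) := by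
  have hmem : ∀ g : MvPolynomial σ R, ((aeval t : MvPolynomial σ R →ₐ[R] F) :
    MvPolynomial σ R →+* F) g ∈ 𝒪 := fun g => aeval_mem' 𝒪 t hR ht g
  refine ⟨primeOf hloc _ hmem, primeOf_isPrime hloc _ hmem, fun g => Iff.rfl, fun r => ?_⟩
  change ¬ U 𝒪 (aeval t (C r)) ↔ _
  rw [aeval_C]
  refine not_congr ⟨hRU r, ?_⟩
  rintro ⟨u, rfl⟩
  have h1 : algebraMap R F (u : R) * algebraMap R F ((u⁻¹ : Rˣ) : R) = 1 := by
    rw [← map_mul, Units.mul_inv, map_one]
  refine ⟨left_ne_zero_of_mul_eq_one h1, hR _, ?_⟩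
  rw [inv_eq_of_mul_eq_one_right h1]
  exact hR _

/-- At a critical point the expansion gives the last relation. -/
theorem crit_eq (hGt : aeval t G = 0) (hcr : ∀ l, ¬ U 𝒪 (aeval t (pderiv l G)))
    (hdet : U 𝒪 (aeval t (hess G).det)) (c₀ : R) (N : ℕ) (hN : ¬ π ^ (N + 1) ∣ c₀)
    (hs : C c₀ ∈ Ideal.span ({G} ∪ Set.range fun l => pderiv l G)) :
    ∃ (k : ℕ) (h c : MvPolynomial σ R) (qf : Matrix σ σ (MvPolynomial σ R)), 1 ≤ k ∧ k ≤ N ∧
      h ≠ 0 ∧ U 𝒪 (aeval t c) ∧
      h * G = C π ^ k * c + ∑ l, ∑ m, qf l m * pderiv l G * pderiv m G ∧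
      U 𝒪 (aeval t (qf + qf.transpose).det) ∧
      algebraMap R F π ^ k * aeval t c + ∑ l, ∑ m, aeval t (qf l m) * aeval t (pderiv l G) *
        aeval t (pderiv m G) = 0 := by
  obtain ⟨Q, hQp, hQ, hQC⟩ := exists_Q0 𝒪 hloc hR hRU hp0 π hπ t ht
  have hGQ : G ∈ Q := by
    rw [hQ, hGt]
    exact not_U_zero
  obtain ⟨k, h, c, qf, hk1, hkN, hh, hc, hexp, hqf⟩ := expand π hπ G Q
    ((hQC π).2 hπ.not_isUnit) (fun l => (hQ _).2 (hcr l)) (fun h => (hQ _).1 h hdet) hGQ c₀ N hN hs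
  have hU : ∀ g, g ∉ Q → U 𝒪 (aeval t g) := by
    intro g hg
    by_contra hcon
    exact hg ((hQ g).2 hcon)
  refine ⟨k, h, c, qf, hk1, hkN, ?_, hU c hc, hexp, hU _ hqf, ?_⟩
  · rintro rfl
    exact hh Q.zero_mem
  · have h1 := congrArg (aeval t) hexp
    rw [map_mul, hGt, mul_zero, map_add, map_mul, map_pow, aeval_C] at h1
    simp only [map_sum, map_mul] at h1
    exact h1.symm

theorem not_div (hm : ℕ) (hGt : aeval t G = 0)
    (hnod : (∃ l, U 𝒪 (aeval t (pderiv l G))) ∨ U 𝒪 (aeval t (hess G).det))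
    (c₀ : R) (N : ℕ) (hN : ¬ π ^ (N + 1) ∣ c₀)
    (hs : C c₀ ∈ Ideal.span ({G} ∪ Set.range fun l => pderiv l G)) (hmN : N < 2 * hm)
    (hdiv : ∀ l, aeval t (pderiv l G) / algebraMap R F π ^ hm ∈ 𝒪) : False := by
  have hp := hp0 π hπ.ne_zero
  have hpn : ¬ U 𝒪 (algebraMap R F π) := fun h => hπ.not_isUnit (hRU π h)
  by_cases hcr : ∃ l, U 𝒪 (aeval t (pderiv l G))
  · obtain ⟨l, hl⟩ := hcr
    apply hpn
    have h1 : U 𝒪 (algebraMap R F π ^ hm * (aeval t (pderiv l G) / algebraMap R F π ^ hm)) := by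
      rw [mul_div_cancel₀ _ (pow_ne_zero _ hp)]
      exact hl
    have h2 := h1.of_mul_left (𝒪.pow_mem (hR π) _) (hdiv l)
    have h3 : algebraMap R F π ^ hm = algebraMap R F π * algebraMap R F π ^ (hm - 1) := by
      rw [← pow_succ']
      congr 1
      omega
    rw [h3] at h2
    exact h2.of_mul_left (hR π) (𝒪.pow_mem (hR π) _)
  · push Not at hcr
    obtain ⟨k, h, c, qf, hk1, hkN, hh, hc, hexp, hqf, hz⟩ := crit_eq 𝒪 hloc hR hRU hp0 π hπ G t ht hGt
      hcr (hnod.resolve_left fun ⟨l, hl⟩ => hcr l hl) c₀ N hN hs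
    apply hpn
    set y : σ → F := fun l => aeval t (pderiv l G) / algebraMap R F π ^ hm with hy
    have hy' : ∀ l, aeval t (pderiv l G) = algebraMap R F π ^ hm * y l := by
      intro l
      rw [hy]
      field_simp
    have h1 : aeval t c = algebraMap R F π * (algebraMap R F π ^ (2 * hm - k - 1) *
        -(∑ l, ∑ m, aeval t (qf l m) * y l * y m)) := by
      have h2 : ∑ l, ∑ m, aeval t (qf l m) * aeval t (pderiv l G) * aeval t (pderiv m G) =
          algebraMap R F π ^ (2 * hm) * ∑ l, ∑ m, aeval t (qf l m) * y l * y m := by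
        rw [Finset.mul_sum]
        refine Finset.sum_congr rfl fun l _ => ?_
        rw [Finset.mul_sum]
        refine Finset.sum_congr rfl fun m _ => ?_
        rw [hy' l, hy' m]
        ring
      rw [h2] at hz
      have h3 : algebraMap R F π ^ (2 * hm) = algebraMap R F π ^ k *
          (algebraMap R F π * algebraMap R F π ^ (2 * hm - k - 1)) := by
        rw [← pow_succ', ← pow_add]
        congr 1
        omega
      rw [h3] at hz
      have h4 : algebraMap R F π ^ k * (aeval t c + algebraMap R F π *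
          (algebraMap R F π ^ (2 * hm - k - 1) * ∑ l, ∑ m, aeval t (qf l m) * y l * y m)) = 0 := by
        rw [← hz]
        ring
      have h5 := (mul_eq_zero.1 h4).resolve_left (pow_ne_zero _ hp)
      linear_combination h5
    rw [h1] at hc
    refine hc.of_mul_left (hR π) (𝒪.mul_mem (𝒪.pow_mem (hR π) _) (𝒪.neg_mem (𝒪.sum_mem fun l _ =>
      𝒪.sum_mem fun m _ => 𝒪.mul_mem (𝒪.mul_mem ?_ (hdiv l)) (hdiv m))))
    exact aeval_mem' 𝒪 t hR ht _

end

end Pool.Agent.Helper382_Nodal
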