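import Pool.Agent.Helper382_Nodal.Chart

/-! Regularity of a local ring of the blow-up: the presentation. -/

set_option autoImplicit false
set_option linter.unusedSectionVars false

namespace Pool.Agent.Helper382_Nodal

open MvPolynomial Pool.Agent.H918R2.Quad

section

variable {R F σ : Type} [CommRing R] [IsDomain R] [IsDiscreteValuationRing R] [Field F]
  [Algebra R F] [Fintype σ] [DecidableEq σ]
  (𝒪 : Subring F) (hloc : IsLoc 𝒪) (hR : ∀ r : R, algebraMap R F r ∈ 𝒪)
  (hRU : ∀ r : R, U 𝒪 (algebraMap R F r) → IsUnit r) (hp0 : ∀ π : R, π ≠ 0 → algebraMap R F π ≠ 0)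
  (π : R) (hπ : Irreducible π) (G : MvPolynomial σ R) (t : σ → F) (ht : ∀ l, t l ∈ 𝒪)

theorem rel_eval (a : ℕ) (j : σ) (w : σ → F) (u v : F) (E : MvPolynomial (Vr σ) R)
    (hg : ∀ l, aeval t (pderiv l G) = algebraMap R F π ^ a * u * w l) (hwj : w j = 1)
    (huv : u * v = algebraMap R F π) (hE : evW R t w u v E = 0) (i : σ ⊕ Fin 3) :
    evW R t w u v (rel π G a j E i) = 0 := by
  have hC : evW R t w u v (C π) = algebraMap R F π := by
    rw [← io_C, evW_io, aeval_C]
  rcases i with l | i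
  · change evW R t w u v (io (pderiv l G) - C π ^ a * uv R σ * wv R l) = 0
    rw [map_sub, map_mul, map_mul, map_pow, hC, evW_io, evW_u, evW_w, hg, sub_self]
  · match i with
    | 0 =>
      change evW R t w u v (wv R j - 1) = 0
      rw [map_sub, map_one, evW_w, hwj, sub_self]
    | 1 =>
      change evW R t w u v (uv R σ * vv R σ - C π) = 0
      rw [map_sub, map_mul, evW_u, evW_v, hC, huv, sub_self]
    | 2 => exact hE

theorem qw_eval (w : σ → F) (u v : F) (qf : Matrix σ σ (MvPolynomial σ R)) :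
    evW R t w u v (qw qf) = ∑ l, ∑ m, aeval t (qf l m) * w l * w m := by
  unfold qw
  simp only [map_sum, map_mul, evW_io, evW_w]

/-- The power relation. -/
theorem pow_rel (e2 : ℕ) {A : Type} [CommRing A] (c q u v : A) :
    u ^ (2 - (2 - e2)) * (c * (u ^ (e2 + (2 - e2) - 2) * v ^ e2) + u ^ (2 - e2) * q) =
      (u * v) ^ e2 * c + u ^ 2 * q := by
  have h1 : u ^ (2 - (2 - e2)) * u ^ (e2 + (2 - e2) - 2) = u ^ e2 := by
    rw [← pow_add]
    congr 1
    omega
  have h2 : u ^ (2 - (2 - e2)) * u ^ (2 - e2) = u ^ 2 := by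
    rw [← pow_add]
    congr 1
    omega
  rw [mul_pow, ← h1, ← h2]
  ring

include hloc hR hRU hp0 hπ ht

theorem exists_E (hGt : aeval t G = 0) (hG0 : G ≠ 0)
    (hnod : (∃ l, U 𝒪 (aeval t (pderiv l G))) ∨ U 𝒪 (aeval t (hess G).det))
    (c₀ : R) (N : ℕ) (hN : ¬ π ^ (N + 1) ∣ c₀)
    (hs : C c₀ ∈ Ideal.span ({G} ∪ Set.range fun l => pderiv l G))
    (a : ℕ) (j : σ) (w : σ → F) (u v : F) (hw : ∀ l, w l ∈ 𝒪) (hu : u ∈ 𝒪) (hv : v ∈ 𝒪)
    (hu0 : u ≠ 0)
    (hg : ∀ l, aeval t (pderiv l G) = algebraMap R F π ^ a * u * w l) (hwj : w j = 1)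
    (huv : u * v = algebraMap R F π) (hvn : ¬ U 𝒪 v) :
    ∃ (E : MvPolynomial (Vr σ) R) (P : MvPolynomial σ R), evW R t w u v E = 0 ∧ P ≠ 0 ∧
      io P ∈ Ideal.span (Set.range (rel π G a j E)) ∧
      ∀ Q : Ideal (MvPolynomial (Vr σ) R), Q.IsPrime →
        (∀ z, z ∈ Q ↔ ¬ U 𝒪 (evW R t w u v z)) → Indep Q (rel π G a j E) := by
  have hp := hp0 π hπ.ne_zero
  have hpn : ¬ U 𝒪 (algebraMap R F π) := fun h => hπ.not_isUnit (hRU π h)
  have hC : evW R t w u v (C π) = algebraMap R F π := by
    rw [← io_C, evW_io, aeval_C]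
  by_cases hcr : ∃ l, U 𝒪 (aeval t (pderiv l G))
  · -- a smooth point
    obtain ⟨l, hl⟩ := hcr
    have ha : a = 0 := by
      by_contra ha
      apply hpn
      have h1 := hl
      rw [hg l, mul_assoc] at h1
      have h2 := h1.of_mul_left (𝒪.pow_mem (hR π) _) (𝒪.mul_mem hu (hw l))
      have h3 : algebraMap R F π ^ a = algebraMap R F π * algebraMap R F π ^ (a - 1) := by
        rw [← pow_succ']
        congr 1
        omega
      rw [h3] at h2
      exact h2.of_mul_left (hR π) (𝒪.pow_mem (hR π) _)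
    subst ha
    have hE0 : evW R t w u v (io G) = 0 := by rw [evW_io, hGt]
    refine ⟨io G, G, hE0, hG0, Ideal.subset_span ⟨Sum.inr 2, rfl⟩, ?_⟩
    intro Q hQp hQ
    refine indep_smooth π G j Q ?_ ?_
    · intro i
      rw [hQ, rel_eval π G t 0 j w u v _ hg hwj huv hE0]
      exact not_U_zero
    · rw [hQ, not_not, evW_io, hg j, hwj, mul_one]
      rw [hg l] at hl
      exact hl.of_mul_left (𝒪.mul_mem (𝒪.pow_mem (hR π) _) hu) (hw l)
  · push Not at hcr
    obtain ⟨k, h, c, qf, hk1, hkN, hh, hc, hexp, hqf, hz⟩ := crit_eq 𝒪 hloc hR hRU hp0 π hπ G t ht hGt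
      hcr (hnod.resolve_left fun ⟨l, hl⟩ => hcr l hl) c₀ N hN hs
    set q : F := ∑ l, ∑ m, aeval t (qf l m) * w l * w m with hq
    have hqm : q ∈ 𝒪 := 𝒪.sum_mem fun l _ => 𝒪.sum_mem fun m _ =>
      𝒪.mul_mem (𝒪.mul_mem (aeval_mem' 𝒪 t hR ht _) (hw l)) (hw m)
    have hz' : algebraMap R F π ^ k * aeval t c + algebraMap R F π ^ (2 * a) * (u ^ 2 * q) = 0 := by
      have h2 : ∑ l, ∑ m, aeval t (qf l m) * aeval t (pderiv l G) * aeval t (pderiv m G) =
          algebraMap R F π ^ (2 * a) * (u ^ 2 * q) := by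
        rw [hq, Finset.mul_sum, Finset.mul_sum]
        refine Finset.sum_congr rfl fun l _ => ?_
        rw [Finset.mul_sum, Finset.mul_sum]
        refine Finset.sum_congr rfl fun m _ => ?_
        rw [hg l, hg m]
        ring
      rw [← h2]
      exact hz
    have hk : 2 * a ≤ k := by
      by_contra hk
      push Not at hk
      apply hpn
      have h3 : algebraMap R F π ^ (2 * a) = algebraMap R F π ^ k *
          (algebraMap R F π * algebraMap R F π ^ (2 * a - k - 1)) := by
        rw [← pow_succ', ← pow_add]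
        congr 1
        omega
      rw [h3] at hz'
      have h4 : algebraMap R F π ^ k * (aeval t c + algebraMap R F π *
          (algebraMap R F π ^ (2 * a - k - 1) * (u ^ 2 * q))) = 0 := by
        rw [← hz']
        ring
      have h5 := (mul_eq_zero.1 h4).resolve_left (pow_ne_zero _ hp)
      have h6 : aeval t c = algebraMap R F π * (algebraMap R F π ^ (2 * a - k - 1) *
          -(u ^ 2 * q)) := by linear_combination h5
      rw [h6] at hc
      exact hc.of_mul_left (hR π) (𝒪.mul_mem (𝒪.pow_mem (hR π) _)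
        (𝒪.neg_mem (𝒪.mul_mem (𝒪.pow_mem hu _) hqm)))
    obtain ⟨e2, he2⟩ : ∃ e2, k = 2 * a + e2 := ⟨k - 2 * a, by omega⟩
    have hE0 : evW R t w u v (Erel qf c (2 - e2) (e2 + (2 - e2) - 2) e2) = 0 := by
      unfold Erel
      rw [map_add, map_mul, map_mul, map_mul, map_pow, map_pow, map_pow, evW_io, evW_u, evW_v,
        qw_eval, ← hq]
      have h1 := pow_rel e2 (aeval t c) q u v
      have h2 : algebraMap R F π ^ (2 * a) * ((u * v) ^ e2 * aeval t c + u ^ 2 * q) = 0 := by
        rw [huv, ← hz', he2, pow_add]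
        ring
      rw [← h1] at h2
      exact (mul_eq_zero.1 ((mul_eq_zero.1 h2).resolve_left (pow_ne_zero _ hp))).resolve_left
        (pow_ne_zero _ hu0)
    refine ⟨_, h * G, hE0, mul_ne_zero hh hG0, ?_, ?_⟩
    · set E := Erel qf c (2 - e2) (e2 + (2 - e2) - 2) e2 with hE
      set I := Ideal.span (Set.range (rel π G a j E)) with hI
      have hrel : ∀ i, Ideal.Quotient.mk I (rel π G a j E i) = 0 := fun i =>
        Ideal.Quotient.eq_zero_iff_mem.2 (Ideal.subset_span ⟨i, rfl⟩)
      have hgl : ∀ l, Ideal.Quotient.mk I (io (pderiv l G)) = Ideal.Quotient.mk I (C π) ^ a *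
          Ideal.Quotient.mk I (uv R σ) * Ideal.Quotient.mk I (wv R l) := by
        intro l
        have h1 : Ideal.Quotient.mk I (io (pderiv l G) - C π ^ a * uv R σ * wv R l) = 0 :=
          hrel (Sum.inl l)
        rw [map_sub, sub_eq_zero] at h1
        rw [h1, map_mul, map_mul, map_pow]
      have huv' : Ideal.Quotient.mk I (uv R σ) * Ideal.Quotient.mk I (vv R σ) =
          Ideal.Quotient.mk I (C π) := by
        have h1 : Ideal.Quotient.mk I (uv R σ * vv R σ - C π) = 0 := hrel (Sum.inr 1)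
        rwa [map_sub, sub_eq_zero, map_mul] at h1
      have hE' : Ideal.Quotient.mk I (io c) * (Ideal.Quotient.mk I (uv R σ) ^ (e2 + (2 - e2) - 2) *
          Ideal.Quotient.mk I (vv R σ) ^ e2) + Ideal.Quotient.mk I (uv R σ) ^ (2 - e2) *
          Ideal.Quotient.mk I (qw qf) = 0 := by
        have h1 : Ideal.Quotient.mk I E = 0 := hrel (Sum.inr 2)
        rw [hE] at h1
        unfold Erel at h1
        rwa [map_add, map_mul, map_mul, map_mul, map_pow, map_pow, map_pow] at h1
      have hqI : Ideal.Quotient.mk I (qw qf) = ∑ l, ∑ m, Ideal.Quotient.mk I (io (qf l m)) *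
          Ideal.Quotient.mk I (wv R l) * Ideal.Quotient.mk I (wv R m) := by
        unfold qw
        simp only [map_sum, map_mul]
      rw [← Ideal.Quotient.eq_zero_iff_mem, hexp, map_add, map_add, map_mul, map_mul, map_pow,
        map_pow, io_C]
      simp only [map_sum, map_mul]
      have h2 : ∑ l, ∑ m, Ideal.Quotient.mk I (io (qf l m)) * Ideal.Quotient.mk I (io (pderiv l G)) *
          Ideal.Quotient.mk I (io (pderiv m G)) = Ideal.Quotient.mk I (C π) ^ (2 * a) *
          (Ideal.Quotient.mk I (uv R σ) ^ 2 * Ideal.Quotient.mk I (qw qf)) := by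
        rw [hqI, Finset.mul_sum, Finset.mul_sum]
        refine Finset.sum_congr rfl fun l _ => ?_
        rw [Finset.mul_sum, Finset.mul_sum]
        refine Finset.sum_congr rfl fun m _ => ?_
        rw [hgl l, hgl m]
        ring
      have h1 := pow_rel e2 (Ideal.Quotient.mk I (io c)) (Ideal.Quotient.mk I (qw qf))
        (Ideal.Quotient.mk I (uv R σ)) (Ideal.Quotient.mk I (vv R σ))
      rw [hE', mul_zero, huv'] at h1
      rw [h2, he2, pow_add]
      linear_combination (-(Ideal.Quotient.mk I (C π) ^ (2 * a))) * h1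
    · intro Q hQp hQ
      have hUQ : ∀ g : MvPolynomial σ R, io g ∉ Q ↔ U 𝒪 (aeval t g) := by
        intro g
        rw [hQ, not_not, evW_io]
      refine indep_crit π G a j Q qf c _ _ _ ?_ hπ ?_ ?_ ?_ ?_ ?_ ?_ ?_
      · intro i
        rw [hQ, rel_eval π G t a j w u v _ hg hwj huv hE0]
        exact not_U_zero
      · rw [hQ, hC]
        exact hpn
      · intro l
        rw [hQ, evW_io]
        exact hcr l
      · rw [hUQ]
        exact hnod.resolve_left fun ⟨l, hl⟩ => hcr l hl
      · rw [hUQ]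
        exact hqf
      · rw [hUQ]
        exact hc
      · rw [hQ, evW_v]
        exact hvn
      · by_cases h0 : e2 = 0
        · right; right
          subst h0
          refine ⟨rfl, rfl, rfl, ?_⟩
          omega
        · by_cases h1 : e2 = 1
          · right; left
            subst h1
            exact ⟨rfl, rfl, rfl⟩
          · left
            exact ⟨by omega, by omega⟩

end

end Pool.Agent.Helper382_Nodal
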