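import Pool.Agent.Helper382_Nodal.Chart2

/-! Regularity of a local ring of the blow-up. -/

set_option autoImplicit false
set_option linter.unusedSectionVars false

namespace Pool.Agent.Helper382_Nodal

open MvPolynomial Pool.Agent.H918R2.Quad

section

variable {R F σ : Type} [CommRing R] [IsDomain R] [IsDiscreteValuationRing R] [Field F]
  [Algebra R F] [Fintype σ] [DecidableEq σ]
  (𝒪 : Subring F) (hloc : IsLoc 𝒪) (hR : ∀ r : R, algebraMap R F r ∈ 𝒪)
  (hRU : ∀ r : R, U 𝒪 (algebraMap R F r) → IsUnit r) (hp0 : ∀ π : R, π ≠ 0 → algebraMap R F π ≠ 0)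
  (π : R) (hπ : Irreducible π) (G : MvPolynomial σ R) (t : σ → F) (ht : ∀ l, t l ∈ 𝒪)

include hloc hR hRU hp0 hπ ht

theorem chart_reg (hGt : aeval t G = 0) (hG0 : G ≠ 0)
    (hnod : (∃ l, U 𝒪 (aeval t (pderiv l G))) ∨ U 𝒪 (aeval t (hess G).det))
    (c₀ : R) (N : ℕ) (hN : ¬ π ^ (N + 1) ∣ c₀)
    (hs : C c₀ ∈ Ideal.span ({G} ∪ Set.range fun l => pderiv l G))
    (a : ℕ) (j : σ) (w : σ → F) (u v : F) (hw : ∀ l, w l ∈ 𝒪) (hu : u ∈ 𝒪) (hv : v ∈ 𝒪)
    (hu0 : u ≠ 0)
    (hg : ∀ l, aeval t (pderiv l G) = algebraMap R F π ^ a * u * w l) (hwj : w j = 1)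
    (huv : u * v = algebraMap R F π) (hvn : ¬ U 𝒪 v)
    (j₀ : σ) (hind : AlgebraicIndependent R (fun i : {i : σ // i ≠ j₀} => t i))
    (hfrac : ∀ x ∈ 𝒪, ∃ b₁ b₂ : MvPolynomial (Vr σ) R, evW R t w u v b₂ ≠ 0 ∧
      (evW R t w u v b₂)⁻¹ ∈ 𝒪 ∧ x = evW R t w u v b₁ / evW R t w u v b₂) :
    IsRegularLocalRing 𝒪 := by
  classical
  have hp := hp0 π hπ.ne_zero
  have hC : ∀ n : ℕ, evW R t w u v (C π ^ n) = algebraMap R F π ^ n := by
    intro n
    rw [map_pow, ← io_C, evW_io, aeval_C]
  obtain ⟨E, P, hE0, hP0, hPI, hindp⟩ := exists_E 𝒪 hloc hR hRU hp0 π hπ G t ht hGt hG0 hnod c₀ N hN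
    hs a j w u v hw hu hv hu0 hg hwj huv hvn
  have hrel0 := rel_eval π G t a j w u v E hg hwj huv hE0
  obtain ⟨A, _, _, pr, hpr, hprk, hpr0⟩ := exists_quot (R := R)
    (Ideal.span (Set.range (rel π G a j E)))
  have hI : ∀ z ∈ Ideal.span (Set.range (rel π G a j E)), evW R t w u v z = 0 := by
    intro z hz
    have h1 : Ideal.span (Set.range (rel π G a j E)) ≤ RingHom.ker (evW R t w u v) := by
      rw [Ideal.span_le]
      rintro _ ⟨i, rfl⟩
      exact hrel0 i
    exact h1 hz
  have hrel : ∀ i, pr (rel π G a j E i) = 0 := fun i => (hpr0 _).2 (Ideal.subset_span ⟨i, rfl⟩)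
  have hgj0 : aeval t (pderiv j G) ≠ 0 := by
    rw [hg j, hwj, mul_one]
    exact mul_ne_zero (pow_ne_zero _ hp) hu0
  have hprg : ∀ l, pr (io (pderiv l G)) = pr (C π ^ a) * pr (uv R σ) * pr (wv R l) := by
    intro l
    have h1 : pr (io (pderiv l G) - C π ^ a * uv R σ * wv R l) = 0 := hrel (Sum.inl l)
    rw [map_sub, sub_eq_zero] at h1
    rw [h1, map_mul, map_mul]
  have hprw : pr (wv R j) = 1 := by
    have h1 : pr (wv R j - 1) = 0 := hrel (Sum.inr 0)
    rwa [map_sub, sub_eq_zero, map_one] at h1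
  have hpruv : pr (uv R σ) * pr (vv R σ) = pr (C π) := by
    have h1 : pr (uv R σ * vv R σ - C π) = 0 := hrel (Sum.inr 1)
    rwa [map_sub, sub_eq_zero, map_mul] at h1
  refine regular_of_pres 𝒪 hloc pr hpr (evW R t w u v) (fun z hz => hI z ((hpr0 z).1 hz))
    (evW_mem hR t w u v ht hw hu hv) hfrac ?_
    (fun l : σ => (X (Sum.inl (Sum.inl l)) : MvPolynomial (Vr σ) R)) P hP0 ?_ j₀ ?_ ?_
  · intro q hq hqm
    refine reg_multi (pr : _ →+* A) hpr (rel π G a j E) hprk q ?_
    refine hindp _ (Ideal.comap_isPrime _ _) fun z => ?_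
    exact hqm z
  · rw [io_eq, hpr0]
    exact hPI
  · convert hind using 2 with i
    have h1 : (X (Sum.inl (Sum.inl (i : σ))) : MvPolynomial (Vr σ) R) = io (X (i : σ)) := by
      unfold io
      rw [rename_X]
    rw [h1, evW_io, aeval_X]
  · have hio1 : (io (1 : MvPolynomial σ R) : MvPolynomial (Vr σ) R) = 1 := map_one _
    have key : ∀ z : MvPolynomial (Vr σ) R, ∃ p p' : MvPolynomial σ R, aeval t p' ≠ 0 ∧
        pr (io p' * z) = pr (io p) := by
      intro z
      induction z using MvPolynomial.induction_on with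
      | C r =>
        refine ⟨C r, 1, ?_, ?_⟩
        · rw [map_one]; exact one_ne_zero
        · rw [hio1, one_mul, io_C]
      | add z z' hz hz' =>
        obtain ⟨p, p', hp', h1⟩ := hz
        obtain ⟨q, q', hq', h2⟩ := hz'
        refine ⟨q' * p + p' * q, p' * q', ?_, ?_⟩
        · rw [map_mul]; exact mul_ne_zero hp' hq'
        · have h3 : (io (p' * q') : MvPolynomial (Vr σ) R) * (z + z') =
              io q' * (io p' * z) + io p' * (io q' * z') := by
            rw [map_mul]; ring
          rw [h3, map_add, map_mul, h1, map_mul, h2, map_add, map_mul, map_mul, map_add, map_mul,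
            map_mul]
      | mul_X z i hz =>
        obtain ⟨p, p', hp', h1⟩ := hz
        have h2 : ∃ q q' : MvPolynomial σ R, aeval t q' ≠ 0 ∧
            pr (io q' * X i) = pr (io q) := by
          rcases i with (l | l) | b
          · refine ⟨X l, 1, ?_, ?_⟩
            · rw [map_one]; exact one_ne_zero
            · rw [hio1, one_mul]
              unfold io
              rw [rename_X]
          · refine ⟨pderiv l G, pderiv j G, hgj0, ?_⟩
            change pr (io (pderiv j G) * wv R l) = _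
            rw [map_mul, hprg, hprg, hprw]
            ring
          · cases b
            · refine ⟨C π ^ (a + 1), pderiv j G, hgj0, ?_⟩
              change pr (io (pderiv j G) * vv R σ) = _
              have h3 : (io (C π ^ (a + 1) : MvPolynomial σ R) : MvPolynomial (Vr σ) R) =
                  C π ^ a * C π := by
                rw [map_pow, io_C, pow_succ]
              rw [map_mul, hprg, hprw, h3, map_mul, ← hpruv]
              ring
            · refine ⟨pderiv j G, C π ^ a, ?_, ?_⟩
              · rw [map_pow, aeval_C]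
                exact pow_ne_zero _ hp
              · change pr (io (C π ^ a) * uv R σ) = _
                have h3 : (io (C π ^ a : MvPolynomial σ R) : MvPolynomial (Vr σ) R) = C π ^ a := by
                  rw [map_pow, io_C]
                rw [h3, map_mul, hprg, hprw, mul_one]
        obtain ⟨q, q', hq', h3⟩ := h2
        refine ⟨p * q, p' * q', ?_, ?_⟩
        · rw [map_mul]; exact mul_ne_zero hp' hq'
        · have h4 : (io (p' * q') : MvPolynomial (Vr σ) R) * (z * X i) =
              (io p' * z) * (io q' * X i) := by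
            rw [map_mul]; ring
          rw [h4, map_mul, h1, h3, ← map_mul, ← map_mul]
    intro z
    obtain ⟨p, p', h1, h2⟩ := key z
    refine ⟨p, p', ?_, ?_⟩
    · rw [io_eq, evW_io]; exact h1
    · rw [io_eq, io_eq]; exact h2

end

end Pool.Agent.Helper382_Nodal
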