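import Pool.Agent.Helper382_Nodal.SmallP

/-! A positive proportion of the hypersurfaces of a given degree have at most nondegenerate singular
points modulo all primes. -/

set_option autoImplicit false
set_option linter.unusedSectionVars false

namespace Pool.Agent.Helper382_Nodal

open MvPolynomial Pool.Agent.TH214.RM Pool.Agent.H918R2.Quad Finset

/-- All the conditions used for the construction of regular models. -/
def GoodF {n d : ℕ} (x : Mon n d → ℤ) : Prop :=
  (∀ p : ℕ, p.Prime → Nod (Ideal.span {(p : ℤ)}) (form x)) ∧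
    ∀ (K : Type) [Field K] [CharZero K], Smooth (map (algebraMap ℤ K) (form x))

/-- The number of integers of an interval in a residue class. -/
theorem card_class (H p : ℕ) (hp : 0 < p) (r : ZMod p) :
    #{b ∈ Icc (-(H : ℤ)) H | ((b : ℤ) : ZMod p) = r} ≤ (2 * H + 1) / p + 1 := by
  have hp0 : (p : ℤ) ≠ 0 := by exact_mod_cast hp.ne'
  have h1 : #{b ∈ Icc (-(H : ℤ)) H | ((b : ℤ) : ZMod p) = r} ≤
      #(Icc (0 : ℤ) (((2 * H + 1) / p : ℕ) : ℤ)) := by
    refine card_le_card_of_injOn (fun b => (b + H) / p) ?_ ?_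
    · intro b hb
      simp only [coe_filter, mem_Icc, Set.mem_setOf_eq] at hb
      simp only [coe_Icc, Set.mem_Icc]
      refine ⟨Int.ediv_nonneg (by omega) (by omega), ?_⟩
      push_cast
      exact Int.ediv_le_ediv (by omega) (by omega)
    · intro b hb c hc hbc
      simp only [coe_filter, mem_Icc, Set.mem_setOf_eq] at hb hc
      have h2 : ((b : ℤ) : ZMod p) = ((c : ℤ) : ZMod p) := by rw [hb.2, hc.2]
      rw [ZMod.intCast_eq_intCast_iff] at h2
      have h3 : (b + H) % (p : ℤ) = (c + H) % (p : ℤ) := h2.add_right _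
      have h4 := Int.mul_ediv_add_emod (b + H) p
      have h5 := Int.mul_ediv_add_emod (c + H) p
      have h6 : (b + H) / (p : ℤ) = (c + H) / (p : ℤ) := hbc
      rw [h6, h3, h5] at h4
      linarith
  rw [Int.card_Icc] at h1
  generalize (2 * H + 1) / p = t at h1 ⊢
  omega

theorem card_class_prog (H p : ℕ) (hp : p.Prime) (a : ℤ) (q : ℕ) (hq : ¬ p ∣ q) (r : ZMod p) :
    #{x ∈ (Icc (-(H : ℤ)) H).image (fun b => a + q * b) | ((x : ℤ) : ZMod p) = r} ≤
      (2 * H + 1) / p + 1 := by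
  classical
  haveI : Fact p.Prime := ⟨hp⟩
  have hq0 : (q : ZMod p) ≠ 0 := by
    rw [Ne, ZMod.natCast_eq_zero_iff]
    exact hq
  refine le_trans ?_ (card_class H p hp.pos ((r - a) / q))
  refine (card_le_card (t := ({b ∈ Icc (-(H : ℤ)) H |
    ((b : ℤ) : ZMod p) = (r - a) / q}).image (fun b => a + q * b)) ?_).trans card_image_le
  intro x hx
  rw [mem_filter, mem_image] at hx
  obtain ⟨⟨b, hb, rfl⟩, hr⟩ := hx
  rw [mem_image]
  refine ⟨b, mem_filter.2 ⟨hb, ?_⟩, rfl⟩
  rw [← hr]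
  push_cast
  field_simp
  ring

open scoped Classical in
theorem density (n d : ℕ) (hd : 3 ≤ d) : ∃ c : ℝ, 0 < c ∧ ∃ H₀ : ℕ, ∀ H : ℕ, H₀ ≤ H →
    c * ((2 * H + 1 : ℕ) : ℝ) ^ Fintype.card (Mon n d) ≤
      #{x ∈ Fintype.piFinset (fun _ : Mon n d => Icc (-(H : ℤ)) H) | GoodF x} := by
  have hd1 : 1 ≤ d := by omega
  choose R B M₀ hR0 hbad using fun s : Fin (n + 2) => bad_cond s d hd1
  choose R₀ hR₀0 hsm using fun s : Fin (n + 2) => smooth_cond s d hd1
  have hcard0 : (0 : ℝ) < 1 / (4 * (n + 2)) := by positivity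
  choose z₀ hz₀ using fun s : Fin (n + 2) =>
    sieve (m₀ s d) (hbad s) (hR0 s) (1 / (4 * (n + 2))) hcard0
  set z : ℕ := univ.sup z₀ with hz
  have hzs : ∀ s, z₀ s ≤ z := fun s => le_sup (mem_univ s)
  -- the residue class
  choose T hT hTsm using fun p : ℕ => exists_smP n d p hd
  choose a ha using fun m : Mon n d => exists_crt z (fun p => (T p).coeff m.1)
  set q : ℕ := primorial z with hq
  have hqpos : 0 < q := primorial_pos z
  have hq1 : ∀ p : ℕ, p.Prime → p ≤ z → p ∣ q := by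
    intro p hp hpz
    exact dvd_prod_of_mem _ (mem_filter.2 ⟨mem_range.2 (by omega), hp⟩)
  have hq2 : ∀ p : ℕ, p.Prime → z < p → ¬ p ∣ q := by
    intro p hp hzp h
    rw [hq, primorial, (Nat.prime_iff.1 hp).dvd_finset_prod_iff] at h
    obtain ⟨l, hl, hpl⟩ := h
    rw [mem_filter, mem_range] at hl
    have := Nat.le_of_dvd hl.2.pos hpl
    omega
  set A₀ : ℕ := ∑ m : Mon n d, (a m).natAbs with hA₀
  have haA : ∀ m, |a m| ≤ A₀ := by
    intro m
    have h1 : (a m).natAbs ≤ A₀ := single_le_sum (f := fun m : Mon n d => (a m).natAbs)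
      (fun i _ => Nat.zero_le _) (mem_univ m)
    rw [Int.abs_eq_natAbs]
    exact_mod_cast h1
  set A : ℕ := A₀ + q with hA
  choose L₀ hL₀ using fun s : Fin (n + 2) => hz₀ s z (hzs s) A
  set RR : MvPolynomial (Mon n d) ℤ := ∏ s, R₀ s with hRR
  have hRR0 : RR ≠ 0 := prod_ne_zero_iff.2 fun s _ => hR₀0 s
  set L₁ : ℕ := max (univ.sup L₀) (4 * RR.totalDegree) with hL₁
  set N : ℕ := Fintype.card (Mon n d) with hN
  have hN1 : 1 ≤ N := Fintype.card_pos_iff.2 ⟨m₀ 0 d⟩
  refine ⟨1 / (2 * (2 * (q : ℝ)) ^ N), by positivity, 4 * A₀ + 2 * q + 1 + A₀ + q * L₁,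
    fun H hH => ?_⟩
  set H' : ℕ := (H - A₀) / q with hH'
  set L : ℕ := 2 * H' + 1 with hL
  have hH'1 : q * H' + A₀ ≤ H := by
    have h1 : q * H' ≤ H - A₀ := Nat.mul_div_le _ _
    have h2 : A₀ ≤ H := by omega
    omega
  have hH'2 : H - A₀ < q * (H' + 1) := by
    rw [hH']
    exact Nat.lt_mul_div_succ _ hqpos
  have hLL₁ : L₁ ≤ L := by
    have h1 : L₁ ≤ H' := by
      rw [hH', Nat.le_div_iff_mul_le hqpos, mul_comm]
      omega
    omega
  have hLs : ∀ s, L₀ s ≤ L := fun s => (le_sup (f := L₀) (mem_univ s)).trans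
    ((le_max_left _ _).trans hLL₁)
  have hLdeg : 4 * RR.totalDegree ≤ L := (le_max_right _ _).trans hLL₁
  -- the box
  let S : Mon n d → Finset ℤ := fun m => (Icc (-(H' : ℤ)) H').image (fun b => a m + q * b)
  have hSL : ∀ m, #(S m) = L := by
    intro m
    have h1 : Function.Injective (fun b : ℤ => a m + q * b) := by
      intro b c hbc
      have h2 : (q : ℤ) * b = q * c := by
        have h3 : a m + q * b = a m + q * c := hbc
        linarith
      exact mul_left_cancel₀ (by exact_mod_cast hqpos.ne') h2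
    rw [card_image_of_injective _ h1, Int.card_Icc]
    omega
  have hScl : ∀ m, ∀ p : ℕ, p.Prime → z < p → ∀ r : ZMod p,
      #{x ∈ S m | ((x : ℤ) : ZMod p) = r} ≤ L / p + 1 := fun m p hp hzp r =>
    card_class_prog H' p hp (a m) q (hq2 p hp hzp) r
  have hSA : ∀ m, ∀ x ∈ S m, |x| ≤ A * L := by
    intro m x hx
    obtain ⟨b, hb, rfl⟩ := mem_image.1 hx
    rw [mem_Icc, ← abs_le] at hb
    have h1 := haA m
    calc |a m + q * b| ≤ |a m| + |(q : ℤ) * b| := abs_add_le _ _
      _ = |a m| + q * |b| := by rw [abs_mul, Nat.abs_cast]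
      _ ≤ A₀ + q * H' := by gcongr
      _ ≤ (A₀ + q) * L := by
        have h2 : (H' : ℤ) ≤ L := by rw [hL]; push_cast; omega
        have h3 : (1 : ℤ) ≤ L := by rw [hL]; push_cast; omega
        have h4 : (0 : ℤ) ≤ A₀ := by positivity
        have h5 : (0 : ℤ) ≤ q := by positivity
        nlinarith
      _ = A * L := by rw [hA]; push_cast; ring
  have hL0 : (0 : ℝ) < L := by
    have : 0 < L := by omega
    exact_mod_cast this
  -- the bad vectors
  have hbadc : ∀ s : Fin (n + 2),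
      (#{x ∈ Fintype.piFinset S | ∃ p, p.Prime ∧ z < p ∧ BadS s p x} : ℝ) ≤
        1 / (4 * (n + 2)) * (L : ℝ) ^ N := fun s => hL₀ s L (hLs s) S hSL hScl hSA
  have hzero : (#{x ∈ Fintype.piFinset S | eval x RR = 0} : ℝ) ≤ 1 / 4 * (L : ℝ) ^ N := by
    have h1 := sz RR hRR0 L (by omega) S hSL
    have h2 : (#{x ∈ Fintype.piFinset S | eval x RR = 0} : ℝ) * L ≤
        RR.totalDegree * (L : ℝ) ^ N := by exact_mod_cast h1
    have h3 : (4 : ℝ) * RR.totalDegree ≤ L := by exact_mod_cast hLdeg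
    have h4 : (0 : ℝ) ≤ (L : ℝ) ^ N := by positivity
    have h5 : (#{x ∈ Fintype.piFinset S | eval x RR = 0} : ℝ) * L ≤
        (1 / 4 * (L : ℝ) ^ N) * L := by nlinarith
    exact le_of_mul_le_mul_right h5 hL0
  have hcov : Fintype.piFinset S ⊆ {x ∈ Fintype.piFinset S | GoodF x} ∪
      ((univ.biUnion fun s : Fin (n + 2) =>
        {x ∈ Fintype.piFinset S | ∃ p, p.Prime ∧ z < p ∧ BadS s p x}) ∪
        {x ∈ Fintype.piFinset S | eval x RR = 0}) := by
    intro x hx
    by_cases h0 : eval x RR = 0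
    · exact mem_union_right _ (mem_union_right _ (mem_filter.2 ⟨hx, h0⟩))
    by_cases hb : ∃ s : Fin (n + 2), ∃ p, p.Prime ∧ z < p ∧ BadS s p x
    · obtain ⟨s, hs⟩ := hb
      refine mem_union_right _ (mem_union_left _ (mem_biUnion.2 ⟨s, mem_univ s, ?_⟩))
      exact mem_filter.2 ⟨hx, hs⟩
    · refine mem_union_left _ (mem_filter.2 ⟨hx, ?_, ?_⟩)
      · intro p hp
        by_cases hpz : p ≤ z
        · refine nod_of_congr p (T p) (hT p) (hTsm p) x fun m => ?_
          obtain ⟨b, hb', hbx⟩ := mem_image.1 (Fintype.mem_piFinset.1 hx m)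
          rw [← hbx]
          have h1 := ha m p hp hpz
          have h2 : (p : ℤ) ∣ q * b := Dvd.dvd.mul_right (by exact_mod_cast hq1 p hp hpz) _
          have h3 : a m + q * b - (T p).coeff m.1 = (a m - (T p).coeff m.1) + q * b := by ring
          rw [h3]
          exact dvd_add h1 h2
        · push Not at hb
          exact nod_of_not_bad p x fun s => hb s p hp (by omega)
      · intro K _ _ s
        refine hsm s x ?_ K
        intro h1
        apply h0
        rw [hRR, map_prod]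
        exact prod_eq_zero (mem_univ s) h1
  have hgood : 1 / 2 * (L : ℝ) ^ N ≤ #{x ∈ Fintype.piFinset S | GoodF x} := by
    have h1 : #(Fintype.piFinset S) = L ^ N := by
      rw [Fintype.card_piFinset]
      simp only [hSL, prod_const, card_univ]
      rfl
    have h2 := (card_le_card hcov).trans ((card_union_le _ _).trans
      (add_le_add_right ((card_union_le _ _).trans (add_le_add_left card_biUnion_le _)) _))
    rw [h1] at h2
    have h3 : ((L : ℝ) ^ N) ≤ #{x ∈ Fintype.piFinset S | GoodF x} +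
        (∑ s : Fin (n + 2), (#{x ∈ Fintype.piFinset S | ∃ p, p.Prime ∧ z < p ∧ BadS s p x} : ℝ) +
          (#{x ∈ Fintype.piFinset S | eval x RR = 0} : ℝ)) := by exact_mod_cast h2
    have h4 : ∑ s : Fin (n + 2),
        (#{x ∈ Fintype.piFinset S | ∃ p, p.Prime ∧ z < p ∧ BadS s p x} : ℝ) ≤
        1 / 4 * (L : ℝ) ^ N := by
      calc _ ≤ ∑ s : Fin (n + 2), 1 / (4 * ((n : ℝ) + 2)) * (L : ℝ) ^ N :=
            sum_le_sum fun s _ => hbadc s
        _ = 1 / 4 * (L : ℝ) ^ N := by
            rw [sum_const, card_univ, Fintype.card_fin, nsmul_eq_mul]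
            push_cast
            field_simp
    linarith
  have hsub : {x ∈ Fintype.piFinset S | GoodF x} ⊆
      {x ∈ Fintype.piFinset (fun _ : Mon n d => Icc (-(H : ℤ)) H) | GoodF x} := by
    intro x hx
    rw [mem_filter] at hx ⊢
    refine ⟨Fintype.mem_piFinset.2 fun m => ?_, hx.2⟩
    obtain ⟨b, hb, hbx⟩ := mem_image.1 (Fintype.mem_piFinset.1 hx.1 m)
    rw [mem_Icc, ← abs_le] at hb ⊢
    rw [← hbx]
    calc |a m + q * b| ≤ |a m| + |(q : ℤ) * b| := abs_add_le _ _
      _ = |a m| + q * |b| := by rw [abs_mul, Nat.abs_cast]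
      _ ≤ A₀ + q * H' := by
        have := haA m
        gcongr
      _ ≤ H := by
        have h2 : ((q * H' + A₀ : ℕ) : ℤ) ≤ H := by exact_mod_cast hH'1
        push_cast at h2
        linarith
  have hcmp : ((2 * H + 1 : ℕ) : ℝ) ≤ 2 * q * L := by
    have h1 : 2 * H + 1 ≤ 2 * q * L := by
      have h2 : H < q * (H' + 1) + A₀ := by omega
      have h3 : 2 * q * L = 4 * (q * (H' + 1)) - 2 * q := by
        rw [hL]
        zify [show 2 * q ≤ 4 * (q * (H' + 1)) by nlinarith]
        ring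
      rw [h3]
      have h4 : 4 * A₀ + 2 * q + 1 + A₀ ≤ H := by omega
      omega
    exact_mod_cast h1
  calc 1 / (2 * (2 * (q : ℝ)) ^ N) * ((2 * H + 1 : ℕ) : ℝ) ^ N
      ≤ 1 / (2 * (2 * (q : ℝ)) ^ N) * (2 * q * L) ^ N := by gcongr
    _ = 1 / 2 * (L : ℝ) ^ N := by
        have hq0 : (q : ℝ) ≠ 0 := by exact_mod_cast hqpos.ne'
        rw [mul_pow (2 * (q : ℝ)) (L : ℝ)]
        field_simp
    _ ≤ #{x ∈ Fintype.piFinset S | GoodF x} := hgood
    _ ≤ _ := by exact_mod_cast card_le_card hsub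

end Pool.Agent.Helper382_Nodal
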