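import Pool.Agent.Helper382_Nodal.Elim

/-! A uniform bound for the number of values at the critical points. -/

set_option autoImplicit false
set_option linter.unusedSectionVars false

namespace Pool.Agent.Helper382_Nodal

open MvPolynomial

/-- The number of critical values of the specializations killing `I` is bounded. -/
def CB {A σ : Type} [CommRing A] (f : MvPolynomial σ A) (I : Ideal A) : Prop :=
  ∃ B M₀ : ℕ, M₀ ≠ 0 ∧ ∀ (k : Type) [Field k] (χ : A →+* k), (M₀ : k) ≠ 0 → (∀ a ∈ I, χ a = 0) →
    ∃ S : Finset k, S.card ≤ B ∧ ∀ v : k,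
      Ideal.span ({map χ f + C v} ∪ Set.range fun j => pderiv j (map χ f) :
        Set (MvPolynomial σ k)) ≠ ⊤ → v ∈ S

theorem crit_bound {A σ : Type} [CommRing A] [IsNoetherianRing A] [Fintype σ]
    (f : MvPolynomial σ A) (I : Ideal A) : CB f I := by
  classical
  refine IsNoetherian.induction (P := fun I : Ideal A => CB f I) (fun I ih => ?_) I
  by_cases htop : I = ⊤
  · refine ⟨0, 1, one_ne_zero, fun k _ χ _ hχ => ?_⟩
    have h1 := hχ 1 (by rw [htop]; trivial)
    rw [map_one] at h1
    exact absurd h1 one_ne_zero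
  have hlt : ∀ a, a ∉ I → I < I ⊔ Ideal.span {a} := by
    intro a ha
    refine lt_of_le_of_ne le_sup_left fun h => ha ?_
    rw [h]
    exact Ideal.mem_sup_right (Ideal.mem_span_singleton_self a)
  have hkill : ∀ (k : Type) [Field k] (χ : A →+* k) (a : A), (∀ a ∈ I, χ a = 0) → χ a = 0 →
      ∀ b ∈ I ⊔ Ideal.span {a}, χ b = 0 := by
    intro k _ χ a hI ha b hb
    obtain ⟨y, hy, z, hz, rfl⟩ := Submodule.mem_sup.1 hb
    obtain ⟨c, rfl⟩ := Ideal.mem_span_singleton'.1 hz
    rw [map_add, map_mul, hI y hy, ha, mul_zero, add_zero]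
  by_cases hprime : Ideal.IsPrime I
  · by_cases hm : ∃ m : ℕ, m ≠ 0 ∧ (m : A) ∈ I
    · obtain ⟨m, hm0, hmI⟩ := hm
      refine ⟨0, m, hm0, fun k _ χ hk hχ => ?_⟩
      have h1 := hχ _ hmI
      rw [map_natCast] at h1
      exact absurd h1 hk
    · push Not at hm
      have hdom : IsDomain (A ⧸ I) := Ideal.Quotient.isDomain I
      have hch : CharZero (A ⧸ I) := by
        refine charZero_of_inj_zero fun n hn => ?_
        by_contra h
        apply hm n h
        rw [← Ideal.Quotient.eq_zero_iff_mem, map_natCast]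
        exact hn
      obtain ⟨r, hr0, hr⟩ := exists_crit_poly (map (Ideal.Quotient.mk I) f)
      obtain ⟨lc, hlc⟩ := Ideal.Quotient.mk_surjective r.leadingCoeff
      have hlcI : lc ∉ I := by
        rw [← Ideal.Quotient.eq_zero_iff_mem, hlc]
        exact Polynomial.leadingCoeff_ne_zero.2 hr0
      obtain ⟨B, M₀, hM₀, hB⟩ := ih _ (hlt lc hlcI)
      refine ⟨max B r.natDegree, M₀, hM₀, fun k _ χ hk hχ => ?_⟩
      by_cases hl : χ lc = 0
      · obtain ⟨S, hS, hS'⟩ := hB k χ hk (hkill k χ lc hχ hl)
        exact ⟨S, hS.trans (le_max_left _ _), hS'⟩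
      · let χ' : A ⧸ I →+* k := Ideal.Quotient.lift I χ hχ
        have hχ' : χ'.comp (Ideal.Quotient.mk I) = χ := by
          ext a
          exact Ideal.Quotient.lift_mk I χ hχ
        have hχlc : χ' r.leadingCoeff = χ lc := by
          rw [← hlc, ← hχ']
          rfl
        have hrk : r.map χ' ≠ 0 := by
          intro h
          apply hl
          rw [← hχlc, ← Polynomial.coeff_natDegree, ← Polynomial.coeff_map, h,
            Polynomial.coeff_zero]
        refine ⟨(r.map χ').roots.toFinset, ?_, fun v hv => ?_⟩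
        · refine (Multiset.toFinset_card_le _).trans ((Polynomial.card_roots' _).trans
            (Polynomial.natDegree_map_le.trans (le_max_right _ _)))
        · rw [Multiset.mem_toFinset, Polynomial.mem_roots hrk, Polynomial.IsRoot,
            Polynomial.eval_map]
          by_contra hne
          apply hv
          let ψ : Polynomial (A ⧸ I) →+* k := Polynomial.eval₂RingHom χ' v
          have h1 := Ideal.mem_map_of_mem (map ψ) hr
          rw [map_C, Ideal.map_span, Set.image_union, Set.image_singleton,
            ← Set.range_comp] at h1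
          have hψC : ψ.comp Polynomial.C = χ' := by
            ext a
            exact Polynomial.eval₂_C χ' v
          have h2 : map ψ (map Polynomial.C (map (Ideal.Quotient.mk I) f) + C Polynomial.X) =
              map χ f + C v := by
            rw [map_add, map_C, map_map, hψC, map_map, hχ']
            congr 2
            exact Polynomial.eval₂_X χ' v
          have h3 : (⇑(map ψ) ∘ fun j => pderiv j (map Polynomial.C (map (Ideal.Quotient.mk I) f))) =
              fun j => pderiv j (map χ f) := by
            funext j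
            simp only [Function.comp]
            rw [← pderiv_map, map_map, hψC, map_map, hχ']
          rw [h2, h3] at h1
          refine Ideal.eq_top_of_isUnit_mem _ h1 ?_
          exact (IsUnit.mk0 _ hne).map C
  · rcases (Ideal.not_isPrime_iff.1 hprime) with h | ⟨a, ha, b, hb, hab⟩
    · exact absurd h htop
    · obtain ⟨B₁, M₁, hM₁, hB₁⟩ := ih _ (hlt a ha)
      obtain ⟨B₂, M₂, hM₂, hB₂⟩ := ih _ (hlt b hb)
      refine ⟨max B₁ B₂, M₁ * M₂, mul_ne_zero hM₁ hM₂, fun k _ χ hk hχ => ?_⟩
      rw [Nat.cast_mul] at hk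
      have h1 := hχ _ hab
      rw [map_mul] at h1
      rcases mul_eq_zero.1 h1 with h | h
      · obtain ⟨S, hS, hS'⟩ := hB₁ k χ (left_ne_zero_of_mul hk) (hkill k χ a hχ h)
        exact ⟨S, hS.trans (le_max_left _ _), hS'⟩
      · obtain ⟨S, hS, hS'⟩ := hB₂ k χ (right_ne_zero_of_mul hk) (hkill k χ b hχ h)
        exact ⟨S, hS.trans (le_max_right _ _), hS'⟩

end Pool.Agent.Helper382_Nodal
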