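import Mathlib

/-! Extension of derivations, and points of systems of polynomial equations. -/

set_option autoImplicit false
set_option linter.unusedSectionVars false

namespace Pool.Agent.Helper382_Nodal

open MvPolynomial

/-- A derivation extends to the fraction field. -/
theorem exists_deriv_frac {A κ : Type} [CommRing A] [IsDomain A] [Field κ] [Algebra A κ]
    [IsFractionRing A κ] (D : Derivation ℤ A A) :
    ∃ D' : Derivation ℤ κ κ, ∀ a, D' (algebraMap A κ a) = algebraMap A κ (D a) := by
  let ψ : A →+* TrivSqZeroExt κ κ :=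
    { toFun := fun a => TrivSqZeroExt.inl (algebraMap A κ a) + TrivSqZeroExt.inr (algebraMap A κ (D a))
      map_one' := by
        ext <;> simp
      map_mul' := by
        intro a b
        ext
        · simp
        · simp only [TrivSqZeroExt.snd_add, TrivSqZeroExt.snd_inl, TrivSqZeroExt.snd_inr, zero_add,
            TrivSqZeroExt.snd_mul, TrivSqZeroExt.fst_add, TrivSqZeroExt.fst_inl,
            TrivSqZeroExt.fst_inr, add_zero, D.leibniz, map_add, smul_eq_mul, map_mul,
            MulOpposite.smul_eq_mul_unop, MulOpposite.unop_op]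
          ring
      map_zero' := by
        ext <;> simp
      map_add' := by
        intro a b
        ext
        · simp
        · simp only [TrivSqZeroExt.snd_add, TrivSqZeroExt.snd_inl, TrivSqZeroExt.snd_inr, zero_add,
            map_add] }
  have hψ1 : ∀ a, (ψ a).fst = algebraMap A κ a := by
    intro a
    change (TrivSqZeroExt.inl (algebraMap A κ a) + TrivSqZeroExt.inr (algebraMap A κ (D a)) :
      TrivSqZeroExt κ κ).fst = _
    simp
  have hψ2 : ∀ a, (ψ a).snd = algebraMap A κ (D a) := by
    intro a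
    change (TrivSqZeroExt.inl (algebraMap A κ a) + TrivSqZeroExt.inr (algebraMap A κ (D a)) :
      TrivSqZeroExt κ κ).snd = _
    rw [TrivSqZeroExt.snd_add, TrivSqZeroExt.snd_inl, TrivSqZeroExt.snd_inr, zero_add]
  have hu : ∀ s : nonZeroDivisors A, IsUnit (ψ s) := by
    intro s
    rw [TrivSqZeroExt.isUnit_iff_isUnit_fst, hψ1]
    exact IsLocalization.map_units κ s
  let Ψ : κ →+* TrivSqZeroExt κ κ := IsLocalization.lift hu
  have hΨ : ∀ a, Ψ (algebraMap A κ a) = ψ a := fun a => IsLocalization.lift_eq hu a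
  have hid : ((TrivSqZeroExt.fstHom ℤ κ κ : TrivSqZeroExt κ κ →ₐ[ℤ] κ) :
      TrivSqZeroExt κ κ →+* κ).comp Ψ = RingHom.id κ := by
    apply IsLocalization.ringHom_ext (nonZeroDivisors A)
    ext a
    change (Ψ (algebraMap A κ a)).fst = algebraMap A κ a
    rw [hΨ, hψ1]
  have hfst : ∀ x, (Ψ x).fst = x := fun x => congrArg (fun f => f x) hid
  refine ⟨Derivation.mk' (AddMonoidHom.toIntLinearMap
    { toFun := fun x => (Ψ x).snd
      map_zero' := by rw [map_zero]; rfl
      map_add' := fun x y => by rw [map_add]; rfl }) ?_, ?_⟩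
  · intro x y
    change (Ψ (x * y)).snd = x • (Ψ y).snd + y • (Ψ x).snd
    rw [map_mul, TrivSqZeroExt.snd_mul, hfst, hfst]
    simp only [smul_eq_mul, MulOpposite.smul_eq_mul_unop, MulOpposite.unop_op]
    ring
  · intro a
    change (Ψ (algebraMap A κ a)).snd = _
    rw [hΨ, hψ2]

/-- A derivation extends to a finite extension in characteristic zero. -/
theorem exists_deriv_fin {κ L : Type} [Field κ] [CharZero κ] [Field L] [Algebra κ L]
    [FiniteDimensional κ L] (D : Derivation ℤ κ κ) :
    ∃ D' : Derivation ℤ L L, ∀ a, D' (algebraMap κ L a) = algebraMap κ L (D a) := by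
  letI : Differential κ := ⟨D⟩
  letI := Differential.differentialFiniteDimensional κ L
  haveI := Differential.differentialAlgebraFiniteDimensional (F := κ) (K := L)
  exact ⟨Differential.deriv, fun a => DifferentialAlgebra.deriv_algebraMap a⟩

/-- A point of a proper ideal. -/
theorem exists_point_of_maximal {κ σ : Type} [Field κ] [Finite σ] (M : Ideal (MvPolynomial σ κ))
    (hM : M.IsMaximal) : ∃ (L : Type) (_ : Field L) (_ : Algebra κ L)
      (_ : FiniteDimensional κ L) (y : σ → L), ∀ P, aeval y P = 0 ↔ P ∈ M := by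
  letI : Field (MvPolynomial σ κ ⧸ M) := Ideal.Quotient.field M
  have hft : Algebra.FiniteType κ (MvPolynomial σ κ ⧸ M) := inferInstance
  have hfin : Module.Finite κ (MvPolynomial σ κ ⧸ M) :=
    finite_of_finite_type_of_isJacobsonRing κ (MvPolynomial σ κ ⧸ M)
  refine ⟨MvPolynomial σ κ ⧸ M, inferInstance, inferInstance, hfin,
    fun i => Ideal.Quotient.mk M (X i), fun P => ?_⟩
  have h1 : (aeval (fun i => Ideal.Quotient.mk M (X i)) : MvPolynomial σ κ →ₐ[κ] _) =
      Ideal.Quotient.mkₐ κ M := by
    apply MvPolynomial.algHom_ext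
    intro i
    rw [aeval_X]
    rfl
  rw [h1]
  exact Ideal.Quotient.eq_zero_iff_mem

theorem exists_point {κ σ : Type} [Field κ] [Finite σ] (J : Ideal (MvPolynomial σ κ))
    (hJ : J ≠ ⊤) : ∃ (L : Type) (_ : Field L) (_ : Algebra κ L)
      (_ : FiniteDimensional κ L) (y : σ → L), ∀ P ∈ J, aeval y P = 0 := by
  obtain ⟨M, hM, hJM⟩ := Ideal.exists_le_maximal J hJ
  obtain ⟨L, i1, i2, i3, y, hy⟩ := exists_point_of_maximal M hM
  exact ⟨L, i1, i2, i3, y, fun P hP => (hy P).2 (hJM hP)⟩

theorem exists_point_rad {κ σ : Type} [Field κ] [Finite σ] (J : Ideal (MvPolynomial σ κ))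
    (f : MvPolynomial σ κ) (hf : f ∉ J.radical) : ∃ (L : Type) (_ : Field L) (_ : Algebra κ L)
      (_ : FiniteDimensional κ L) (y : σ → L), (∀ P ∈ J, aeval y P = 0) ∧ aeval y f ≠ 0 := by
  rw [Ideal.radical_eq_jacobson, Ideal.jacobson, Submodule.mem_sInf] at hf
  push Not at hf
  obtain ⟨M, ⟨hJM, hM⟩, hfM⟩ := hf
  obtain ⟨L, i1, i2, i3, y, hy⟩ := exists_point_of_maximal M hM
  exact ⟨L, i1, i2, i3, y, fun P hP => (hy P).2 (hJM hP), fun h => hfM ((hy f).1 h)⟩

/-- A derivation which kills the base ring is linear. -/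
theorem exists_linear_deriv {A L : Type} [CommRing A] [Field L] [Algebra A L]
    (D : Derivation ℤ L L) (h : ∀ a : A, D (algebraMap A L a) = 0) :
    ∃ D' : Derivation A L L, ∀ x, D' x = D x := by
  refine ⟨Derivation.mk'
    { toFun := fun x => D x
      map_add' := fun x y => D.map_add x y
      map_smul' := fun a x => by
        have h1 : D (algebraMap A L a * x) = algebraMap A L a * D x := by
          rw [D.leibniz, h, smul_zero, add_zero, smul_eq_mul]
        rw [Algebra.smul_def, h1, RingHom.id_apply, Algebra.smul_def] } ?_, fun x => rfl⟩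
  intro x y
  exact D.leibniz x y

end Pool.Agent.Helper382_Nodal
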