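import Pool.Agent.TH214.RM.LemM

/-! A uniformizer is not in the square of a prime of a polynomial ring over a discrete valuation
ring. -/

set_option autoImplicit false

namespace Pool.Agent.Helper382_Nodal

open MvPolynomial

theorem pi_fin {R : Type} [CommRing R] [IsDomain R] [IsDiscreteValuationRing R] (π : R)
    (hπ : Irreducible π) : ∀ (n : ℕ) (Q : Ideal (MvPolynomial (Fin n) R)), Q.IsPrime →
      C π ∈ Q → ∀ h, h ∉ Q → h * C π ∉ Q ^ 2 := by
  intro n
  induction n with
  | zero =>
    intro Q hQ hπQ h hh hcon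
    let e : MvPolynomial (Fin 0) R ≃ₐ[R] R := isEmptyAlgEquiv R (Fin 0)
    have he : ∀ r, e (C r) = r := fun r => e.commutes r
    have hC : ∀ p : MvPolynomial (Fin 0) R, p = C (e p) := by
      intro p
      apply e.injective
      rw [he]
    let q : Ideal R := Q.comap (C : R →+* MvPolynomial (Fin 0) R)
    have hq : q.IsPrime := Ideal.comap_isPrime _ _
    have hqπ : q = Ideal.span {π} := by
      have h1 : (Ideal.span {π}).IsMaximal := by
        rw [← (IsDiscreteValuationRing.irreducible_iff_uniformizer π).1 hπ]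
        infer_instance
      refine (h1.eq_of_le hq.ne_top ?_).symm
      rw [Ideal.span_singleton_le_iff_mem]
      exact hπQ
    have hQq : Q = q.map (C : R →+* MvPolynomial (Fin 0) R) := by
      apply le_antisymm
      · intro p hp
        rw [hC p] at hp ⊢
        exact Ideal.mem_map_of_mem _ hp
      · exact Ideal.map_comap_le
    have h2 : e h * π ∈ q ^ 2 := by
      rw [hQq, ← Ideal.map_pow, hC h, ← C_mul] at hcon
      have h3 := Ideal.mem_map_of_mem (e : MvPolynomial (Fin 0) R →+* R) hcon
      rw [Ideal.map_map] at h3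
      have h4 : ((e : MvPolynomial (Fin 0) R →+* R).comp (C : R →+* MvPolynomial (Fin 0) R)) =
          RingHom.id R := by
        ext r
        exact he r
      rw [h4, Ideal.map_id] at h3
      have h5 : (e : MvPolynomial (Fin 0) R →+* R) (C (e h * π)) = e h * π := he _
      rwa [h5] at h3
    rw [hqπ, Ideal.span_singleton_pow, Ideal.mem_span_singleton] at h2
    obtain ⟨y, hy⟩ := h2
    have h6 : e h = π * y := by
      have hπ0 := hπ.ne_zero
      apply mul_right_cancel₀ hπ0
      rw [hy]
      ring
    apply hh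
    rw [hC h, h6, C_mul]
    exact Q.mul_mem_right _ hπQ
  | succ n ih =>
    intro Q hQ hπQ h hh hcon
    let e : MvPolynomial (Fin (n + 1)) R ≃ₐ[R] Polynomial (MvPolynomial (Fin n) R) :=
      finSuccEquiv R n
    let e' : MvPolynomial (Fin (n + 1)) R ≃+* Polynomial (MvPolynomial (Fin n) R) := e.toRingEquiv
    let Q₁ : Ideal (Polynomial (MvPolynomial (Fin n) R)) := Q.map e'
    have hQ₁ : Q₁.IsPrime := Ideal.map_isPrime_of_equiv e'
    have hmem : ∀ p, e' p ∈ Q₁ ↔ p ∈ Q := by
      intro p
      constructor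
      · intro hp
        have h1 := (Ideal.mem_map_of_equiv e' _).1 hp
        obtain ⟨x, hx, hxp⟩ := h1
        rwa [← e'.injective hxp]
      · intro hp
        exact Ideal.mem_map_of_mem _ hp
    let q : Ideal (MvPolynomial (Fin n) R) := Q₁.comap (Polynomial.C)
    have hq : q.IsPrime := Ideal.comap_isPrime _ _
    have heC : e' (C π) = Polynomial.C (C π) := by
      change finSuccEquiv R n (C π) = _
      rw [finSuccEquiv_apply, eval₂Hom_C]
      rfl
    have hπq : C π ∈ q := by
      change Polynomial.C (C π) ∈ Q₁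
      rw [← heC, hmem]
      exact hπQ
    have key := Pool.Agent.TH214.RM.lemM q hq (C π) hπq (ih q hq hπq) Q₁ hQ₁ (fun a => Iff.rfl)
      (e' h) (by rw [hmem]; exact hh)
    apply key
    have h1 := Ideal.mem_map_of_mem e' hcon
    rw [Ideal.map_pow, map_mul, heC] at h1
    exact h1

theorem pi_not_sq {R σ : Type} [CommRing R] [IsDomain R] [IsDiscreteValuationRing R] [Finite σ]
    (π : R) (hπ : Irreducible π) (Q : Ideal (MvPolynomial σ R)) (hQ : Q.IsPrime)
    (hπQ : C π ∈ Q) (h : MvPolynomial σ R) (hh : h ∉ Q) : h * C π ∉ Q ^ 2 := by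
  intro hcon
  have : Fintype σ := Fintype.ofFinite σ
  let e : MvPolynomial σ R ≃ₐ[R] MvPolynomial (Fin (Fintype.card σ)) R :=
    renameEquiv R (Fintype.equivFin σ)
  let e' : MvPolynomial σ R ≃+* MvPolynomial (Fin (Fintype.card σ)) R := e.toRingEquiv
  have hmem : ∀ p, e' p ∈ Q.map e' ↔ p ∈ Q := by
    intro p
    constructor
    · intro hp
      have h1 := (Ideal.mem_map_of_equiv e' _).1 hp
      obtain ⟨x, hx, hxp⟩ := h1
      rwa [← e'.injective hxp]
    · intro hp
      exact Ideal.mem_map_of_mem _ hp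
  have heC : e' (C π) = C π := e.commutes π
  refine pi_fin π hπ _ (Q.map e') (Ideal.map_isPrime_of_equiv e') ?_ (e' h) ?_ ?_
  · rw [← heC, hmem]
    exact hπQ
  · rw [hmem]
    exact hh
  · have h1 := Ideal.mem_map_of_mem e' hcon
    rw [Ideal.map_pow, map_mul, heC] at h1
    exact h1

end Pool.Agent.Helper382_Nodal
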