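import Pool.Agent.Helper382_Nodal.Reg
import Pool.Agent.Helper382_Nodal.PiSq
import Pool.Agent.H918R2.Quad.Pres

/-! The expansion of a polynomial at a critical point with invertible Hessian. -/

set_option autoImplicit false
set_option linter.unusedSectionVars false

namespace Pool.Agent.Helper382_Nodal

open MvPolynomial Pool.Agent.H918R2.Quad

/-- A derivation maps the square of an ideal into the ideal. -/
theorem der_sq {R W : Type} [CommRing R] [CommRing W] [Algebra R W] (D : Derivation R W W)
    (Q : Ideal W) (x : W) (hx : x ∈ Q ^ 2) : D x ∈ Q := by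
  rw [pow_two] at hx
  refine Submodule.mul_induction_on hx ?_ ?_
  · intro a ha b hb
    rw [D.leibniz, smul_eq_mul, smul_eq_mul]
    exact Q.add_mem (Q.mul_mem_right _ ha) (Q.mul_mem_right _ hb)
  · intro a b ha hb
    rw [map_add]
    exact Q.add_mem ha hb

section hess

variable {R : Type} [CommRing R] {σ : Type} [Fintype σ] [DecidableEq σ]

/-- The matrix of the second derivatives. -/
noncomputable def hess (G : MvPolynomial σ R) : Matrix σ σ (MvPolynomial σ R) :=
  Matrix.of fun l m => pderiv m (pderiv l G)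

theorem hess_apply (G : MvPolynomial σ R) (l m : σ) : hess G l m = pderiv m (pderiv l G) := rfl

/-- An invertible matrix modulo a prime is injective. -/
theorem mem_of_det {W : Type} [CommRing W] (Q : Ideal W) [Q.IsPrime] (H : Matrix σ σ W)
    (hdet : H.det ∉ Q) (α : σ → W) (h : ∀ m, ∑ l, α l * H l m ∈ Q) (l : σ) : α l ∈ Q := by
  have h1 : ∑ m, (∑ l', α l' * H l' m) * H.adjugate m l = α l * H.det := by
    have h2 : Matrix.vecMul (Matrix.vecMul α H) H.adjugate = H.det • α := by
      rw [Matrix.vecMul_vecMul, Matrix.mul_adjugate, Matrix.vecMul_smul, Matrix.vecMul_one]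
    have h3 := congrFun h2 l
    rw [Pi.smul_apply, smul_eq_mul, mul_comm] at h3
    rw [← h3]
    rfl
  have h4 : α l * H.det ∈ Q := by
    rw [← h1]
    exact Q.sum_mem fun m _ => Q.mul_mem_right _ (h m)
  exact (Ideal.IsPrime.mem_or_mem ‹_› h4).resolve_right hdet

/-- If the Hessian is invertible at `Q` the critical equations are independent. -/
theorem coeff_mem (G : MvPolynomial σ R) (Q : Ideal (MvPolynomial σ R)) [Q.IsPrime]
    (hg : ∀ l, pderiv l G ∈ Q) (hdet : (hess G).det ∉ Q) (α : σ → MvPolynomial σ R)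
    (x : MvPolynomial σ R) (hx : ∀ m, pderiv m x ∈ Q)
    (h : ∑ l, α l * pderiv l G + x ∈ Q ^ 2) (l : σ) : α l ∈ Q := by
  refine mem_of_det Q (hess G) hdet α (fun m => ?_) l
  have h1 := der_sq (pderiv m) Q _ h
  rw [map_add, map_sum] at h1
  have h2 : ∑ l, (pderiv m) (α l * pderiv l G) = ∑ l, α l * hess G l m +
      ∑ l, pderiv l G * pderiv m (α l) := by
    rw [← Finset.sum_add_distrib]
    refine Finset.sum_congr rfl fun l _ => ?_
    rw [Derivation.leibniz, hess_apply]
    rfl
  rw [h2] at h1
  have h3 : ∑ l, pderiv l G * pderiv m (α l) ∈ Q := Q.sum_mem fun l _ => Q.mul_mem_right _ (hg l)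
  have h4 : ∑ l, α l * hess G l m = (∑ l, α l * hess G l m + ∑ l, pderiv l G * pderiv m (α l) +
      pderiv m x) - (∑ l, pderiv l G * pderiv m (α l) + pderiv m x) := by ring
  rw [h4]
  exact Q.sub_mem h1 (Q.add_mem h3 (hx m))

end hess

section dvr

variable {R : Type} [CommRing R] [IsDomain R] [IsDiscreteValuationRing R] {σ : Type} [Fintype σ]
  [DecidableEq σ] (π : R) (hπ : Irreducible π) (G : MvPolynomial σ R)
  (Q : Ideal (MvPolynomial σ R)) [Q.IsPrime] (hπQ : C π ∈ Q) (hg : ∀ l, pderiv l G ∈ Q)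
  (hdet : (hess G).det ∉ Q)

/-- The uniformizer and the partial derivatives. -/
noncomputable def fam (o : Option σ) : MvPolynomial σ R := o.elim (C π) fun l => pderiv l G

include hπ hπQ hg hdet

theorem indep_fam : Indep Q (fam π G) := by
  intro α hα
  rw [Fintype.sum_option] at hα
  change α none * C π + ∑ l, α (some l) * pderiv l G ∈ Q ^ 2 at hα
  have h1 : ∀ l, α (some l) ∈ Q := by
    intro l
    refine coeff_mem G Q hg hdet (fun l => α (some l)) (α none * C π) (fun m => ?_)
      (by rwa [add_comm]) l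
    rw [Derivation.leibniz, pderiv_C, smul_zero, zero_add, smul_eq_mul]
    exact Q.mul_mem_right _ hπQ
  have h2 : ∑ l, α (some l) * pderiv l G ∈ Q ^ 2 := by
    refine Ideal.sum_mem _ fun l _ => ?_
    rw [pow_two]
    exact Ideal.mul_mem_mul (h1 l) (hg l)
  have h3 : α none * C π ∈ Q ^ 2 := by
    have h4 : α none * C π = (α none * C π + ∑ l, α (some l) * pderiv l G) -
        ∑ l, α (some l) * pderiv l G := by ring
    rw [h4]
    exact Ideal.sub_mem _ hα h2
  rintro (_ | l)
  · by_contra h
    exact pi_not_sq π hπ Q inferInstance hπQ _ h h3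
  · exact h1 l

theorem crit_gens (y : MvPolynomial σ R) (hy : y ∈ Q) :
    ∃ (c : MvPolynomial σ R) (a : MvPolynomial σ R) (β : σ → MvPolynomial σ R), c ∉ Q ∧
      c * y = C π * a + ∑ l, β l * pderiv l G := by
  classical
  obtain ⟨T, hT, hcard, hgen⟩ := exists_local_gens_family Q (fam π G) (by
    rintro (_ | l)
    · exact hπQ
    · exact hg l) (indep_fam π hπ G Q hπQ hg hdet)
  have hdim : Q.height ≤ ((Fintype.card (Option σ) : ℕ) : ℕ∞) := by
    have h1 : ((Q.height : ℕ∞) : WithBot ℕ∞) ≤ ringKrullDim (MvPolynomial σ R) :=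
      Ideal.height_le_ringKrullDim_of_ne_top Ideal.IsPrime.ne_top'
    rw [MvPolynomial.ringKrullDim_of_isNoetherianRing,
      (IsDiscreteValuationRing.ringKrullDim_eq_one R : ringKrullDim R = 1)] at h1
    have h2 : (1 : WithBot ℕ∞) + ((Nat.card σ : ℕ) : WithBot ℕ∞) =
        (((Fintype.card (Option σ) : ℕ) : ℕ∞) : WithBot ℕ∞) := by
      rw [Fintype.card_option, Nat.card_eq_fintype_card, add_comm]
      push_cast
      rfl
    rw [h2] at h1
    exact_mod_cast h1
  have hT0 : T = ∅ := by
    have h1 := hcard.trans hdim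
    have h2 : T.card + Fintype.card (Option σ) ≤ Fintype.card (Option σ) := by exact_mod_cast h1
    have h3 : T.card = 0 := by omega
    exact Finset.card_eq_zero.1 h3
  obtain ⟨c, hc, hcy⟩ := hgen y hy
  rw [hT0, Finset.coe_empty, Set.union_empty] at hcy
  obtain ⟨β, hβ⟩ := (Ideal.mem_span_range_iff_exists_fun).1 hcy
  rw [Fintype.sum_option] at hβ
  change β none * C π + ∑ l, β (some l) * pderiv l G = _ at hβ
  refine ⟨c, β none, fun l => β (some l), hc, ?_⟩
  rw [← hβ, mul_comm (C π)]

theorem no_pow (N : ℕ) (a : MvPolynomial σ R) (ha : a ∉ Q)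
    (h : C π ^ N * a ∈ Ideal.span (Set.range fun l => pderiv l G)) : False := by
  obtain ⟨A, _, _, pr, hpr, hprk, hpr0⟩ := exists_quot (R := R)
    (Ideal.span (Set.range fun l => pderiv l G))
  have hker : RingHom.ker (pr : MvPolynomial σ R →+* A) =
      Ideal.span (Set.range fun l => pderiv l G) := hprk
  have hIQ : Ideal.span (Set.range fun l => pderiv l G) ≤ Q := by
    rw [Ideal.span_le]
    rintro _ ⟨l, rfl⟩
    exact hg l
  let q : Ideal A := Q.map (pr : MvPolynomial σ R →+* A)
  have hq : q.IsPrime := Ideal.map_isPrime_of_surjective (f := (pr : MvPolynomial σ R →+* A)) hpr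
    (by rw [hker]; exact hIQ)
  have hcomap : q.comap (pr : MvPolynomial σ R →+* A) = Q := by
    rw [Ideal.comap_map_of_surjective (pr : MvPolynomial σ R →+* A) hpr]
    refine sup_eq_left.2 ?_
    intro x hx
    have h1 : x ∈ RingHom.ker (pr : MvPolynomial σ R →+* A) := by simpa using hx
    rw [hker] at h1
    exact hIQ h1
  have hmem : ∀ x, pr x ∈ q ↔ x ∈ Q := by
    intro x
    rw [← hcomap]
    rfl
  have hreg : IsRegularLocalRing (Localization.AtPrime q) := by
    refine reg_multi (pr : MvPolynomial σ R →+* A) hpr (fun l => pderiv l G) hker q ?_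
    rw [hcomap]
    intro α hα
    exact coeff_mem G Q hg hdet α 0 (fun m => by rw [map_zero]; exact Q.zero_mem)
      (by rwa [add_zero])
  have hdom : IsDomain (Localization.AtPrime q) := regular_isDomain _
  have h1 : algebraMap A (Localization.AtPrime q) (pr (C π)) ^ N *
      algebraMap A (Localization.AtPrime q) (pr a) = 0 := by
    rw [← map_pow, ← map_mul, ← map_pow, ← map_mul, (hpr0 _).2 h, map_zero]
  have h2 : algebraMap A (Localization.AtPrime q) (pr a) ≠ 0 := by
    have h3 : IsUnit (algebraMap A (Localization.AtPrime q) (pr a)) :=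
      IsLocalization.map_units _ (⟨pr a, fun h => ha ((hmem a).1 h)⟩ : q.primeCompl)
    exact h3.ne_zero
  have hN : N ≠ 0 := by
    rintro rfl
    rw [pow_zero, one_mul] at h1
    exact h2 h1
  have h3 : algebraMap A (Localization.AtPrime q) (pr (C π)) = 0 :=
    (pow_eq_zero_iff hN).1 ((mul_eq_zero.1 h1).resolve_right h2)
  rw [IsLocalization.map_eq_zero_iff q.primeCompl] at h3
  obtain ⟨⟨c, hc⟩, hc0⟩ := h3
  obtain ⟨b, rfl⟩ := hpr c
  have hb : b ∉ Q := fun h => hc ((hmem b).2 h)
  have h4 : b * C π ∈ Ideal.span (Set.range fun l => pderiv l G) := by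
    rw [← hpr0, map_mul]
    exact hc0
  obtain ⟨β, hβ⟩ := (Ideal.mem_span_range_iff_exists_fun).1 h4
  have h5 := indep_fam π hπ G Q hπQ hg hdet (fun o => o.elim b fun l => - β l) (by
    rw [Fintype.sum_option]
    change b * C π + ∑ l, -β l * pderiv l G ∈ Q ^ 2
    rw [← hβ]
    have h6 : ∑ l, β l * pderiv l G + ∑ l, -β l * pderiv l G = 0 := by
      rw [← Finset.sum_add_distrib]
      exact Finset.sum_eq_zero fun l _ => by ring
    rw [h6]
    exact Ideal.zero_mem _) none
  exact hb h5

end dvr

end Pool.Agent.Helper382_Nodal
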