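import Pool.Agent.Helper382_Nodal.Der
import Pool.Agent.Helper382_Nodal.Expand
import Pool.Agent.TH214.RM.Crit

/-! Elimination by means of derivations: the values at the critical points, the degenerate critical
points and the singular points of a family of polynomials. -/

set_option autoImplicit false
set_option linter.unusedSectionVars false

namespace Pool.Agent.Helper382_Nodal

open MvPolynomial Pool.Agent.TH214.RM

/-- The chain rule for a derivation which kills the coefficients. -/
theorem der_eval₂ {A L σ : Type*} [CommRing A] [CommRing L] [Fintype σ] (D : Derivation ℤ L L)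
    (φ : A →+* L) (h : ∀ a, D (φ a) = 0) (y : σ → L) (f : MvPolynomial σ A) :
    D (eval₂ φ y f) = ∑ j, eval₂ φ y (pderiv j f) * D (y j) := by
  classical
  induction f using MvPolynomial.induction_on with
  | C a => simp [h]
  | add p q hp hq =>
    simp only [map_add, eval₂_add, hp, hq, add_mul, Finset.sum_add_distrib]
  | mul_X p i hp =>
    rw [eval₂_mul, eval₂_X, D.leibniz, hp, smul_eq_mul, smul_eq_mul]
    have h1 : ∀ k, eval₂ φ y (pderiv k (p * X i)) * D (y k) =
        (if k = i then eval₂ φ y p * D (y i) else 0) +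
          y i * (eval₂ φ y (pderiv k p) * D (y k)) := by
      intro k
      rw [Derivation.leibniz, smul_eq_mul, smul_eq_mul, eval₂_add, eval₂_mul, eval₂_mul, eval₂_X]
      by_cases hk : k = i
      · subst hk
        rw [if_pos rfl, pderiv_X_self, eval₂_one]
        ring
      · rw [if_neg hk, pderiv_X_of_ne (fun h => hk h.symm), eval₂_zero]
        ring
    simp only [h1, Finset.sum_add_distrib, Finset.sum_ite_eq', Finset.mem_univ, if_true,
      ← Finset.mul_sum]

section crit

/-- Generically there are no critical points with indeterminate value. -/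
theorem exists_crit_poly {A σ : Type} [CommRing A] [IsDomain A] [CharZero A] [Fintype σ]
    (f : MvPolynomial σ A) : ∃ r : Polynomial A, r ≠ 0 ∧
      C r ∈ Ideal.span ({map Polynomial.C f + C Polynomial.X} ∪
        Set.range fun j => pderiv j (map Polynomial.C f) : Set (MvPolynomial σ (Polynomial A))) := by
  set S : Set (MvPolynomial σ (Polynomial A)) := {map Polynomial.C f + C Polynomial.X} ∪
        Set.range fun j => pderiv j (map Polynomial.C f) with hS
  let κ := FractionRing (Polynomial A)
  have hch : CharZero κ := by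
    have : CharZero (Polynomial A) := inferInstance
    exact IsFractionRing.charZero (Polynomial A)
  have hinj : Function.Injective (algebraMap (Polynomial A) κ) := IsFractionRing.injective _ _
  by_cases hJ : Ideal.span (map (algebraMap (Polynomial A) κ) '' S) = ⊤
  · have h1 : (1 : MvPolynomial σ κ) ∈ Ideal.span (map (algebraMap (Polynomial A) κ) '' S) := by
      rw [hJ]; trivial
    obtain ⟨s, hs, y, hy, hys⟩ := clear_span (R := κ) (nonZeroDivisors (Polynomial A)) S 1 h1
    refine ⟨s, nonZeroDivisors.ne_zero hs, ?_⟩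
    have h2 : y = C s := by
      apply map_injective _ hinj
      rw [hys, mul_one, map_C]
    rwa [← h2]
  · exfalso
    obtain ⟨L, _, _, _, y, hy⟩ := exists_point _ hJ
    obtain ⟨D₁, hD₁⟩ := exists_deriv_frac (κ := κ)
      ((Polynomial.derivative' : Derivation A (Polynomial A) (Polynomial A)).restrictScalars ℤ)
    obtain ⟨D₂, hD₂⟩ := exists_deriv_fin (L := L) D₁
    let Φ : Polynomial A →+* L := (algebraMap κ L).comp (algebraMap (Polynomial A) κ)
    have hΦ : ∀ r, D₂ (Φ r) = Φ (Polynomial.derivative r) := by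
      intro r
      change D₂ (algebraMap κ L (algebraMap (Polynomial A) κ r)) = _
      rw [hD₂, hD₁]
      rfl
    have hev : ∀ P ∈ S, eval₂ Φ y P = 0 := by
      intro P hP
      have h1 := hy _ (Ideal.subset_span ⟨P, hP, rfl⟩)
      rw [aeval_def, eval₂_map] at h1
      exact h1
    have hk : ∀ a : A, D₂ ((Φ.comp Polynomial.C) a) = 0 := by
      intro a
      change D₂ (Φ (Polynomial.C a)) = 0
      rw [hΦ, Polynomial.derivative_C, map_zero]
    have h1 := hev _ (Or.inl rfl)
    rw [eval₂_add, eval₂_map, eval₂_C] at h1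
    have h2 := congrArg D₂ h1
    rw [map_add, der_eval₂ D₂ _ hk, map_zero, hΦ, Polynomial.derivative_X, map_one] at h2
    have h3 : ∀ j, eval₂ (Φ.comp Polynomial.C) y (pderiv j f) = 0 := by
      intro j
      have h4 := hev _ (Or.inr ⟨j, rfl⟩)
      simp only [pderiv_map, eval₂_map] at h4
      exact h4
    simp only [h3, zero_mul, Finset.sum_const_zero, zero_add] at h2
    exact one_ne_zero h2

end crit

section lin

variable {σ ι : Type} [Fintype ι]

/-- The linear combination of the polynomials `M i` with the coefficients `c i`. -/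
noncomputable def lin {A : Type} [CommRing A] (M : ι → MvPolynomial σ ℤ) (c : ι → A) :
    MvPolynomial σ A :=
  ∑ i, C (c i) * map (Int.castRingHom A) (M i)

theorem lin_map {A B : Type} [CommRing A] [CommRing B] (φ : A →+* B) (M : ι → MvPolynomial σ ℤ)
    (c : ι → A) : map φ (lin M c) = lin M (fun i => φ (c i)) := by
  unfold lin
  rw [map_sum]
  refine Finset.sum_congr rfl fun i _ => ?_
  have h1 : φ.comp (Int.castRingHom A) = Int.castRingHom B := RingHom.ext_int _ _
  rw [map_mul, map_C, map_map, h1]

theorem pderiv_lin {A : Type} [CommRing A] (M : ι → MvPolynomial σ ℤ) (c : ι → A) (j : σ) :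
    pderiv j (lin M c) = lin (fun i => pderiv j (M i)) c := by
  unfold lin
  rw [map_sum]
  refine Finset.sum_congr rfl fun i _ => ?_
  rw [pderiv_C_mul, pderiv_map]

theorem eval₂_lin {A B : Type} [CommRing A] [CommRing B] (φ : A →+* B) (y : σ → B)
    (M : ι → MvPolynomial σ ℤ) (c : ι → A) :
    eval₂ φ y (lin M c) = ∑ i, φ (c i) * eval₂ (Int.castRingHom B) y (M i) := by
  unfold lin
  rw [eval₂_sum]
  refine Finset.sum_congr rfl fun i _ => ?_
  have h1 : φ.comp (Int.castRingHom A) = Int.castRingHom B := RingHom.ext_int _ _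
  rw [eval₂_mul, eval₂_C, eval₂_map, h1]

theorem der_lin [Fintype σ] {L : Type} [CommRing L] (D : Derivation ℤ L L)
    (M : ι → MvPolynomial σ ℤ) (x : ι → L) (y : σ → L) :
    D (∑ i, x i * eval₂ (Int.castRingHom L) y (M i)) =
      ∑ i, D (x i) * eval₂ (Int.castRingHom L) y (M i) +
        ∑ j, (∑ i, x i * eval₂ (Int.castRingHom L) y (pderiv j (M i))) * D (y j) := by
  rw [map_sum]
  have h0 : ∀ a : ℤ, D (Int.castRingHom L a) = 0 := fun a => D.map_algebraMap a
  simp only [D.leibniz, smul_eq_mul, der_eval₂ (A := ℤ) D (Int.castRingHom L) h0]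
  rw [Finset.sum_add_distrib, add_comm]
  congr 1
  · exact Finset.sum_congr rfl fun i _ => mul_comm _ _
  · simp only [Finset.mul_sum, Finset.sum_mul]
    rw [Finset.sum_comm]
    exact Finset.sum_congr rfl fun j _ => Finset.sum_congr rfl fun i _ => by ring

end lin

section elim

variable {σ ι : Type} [Fintype σ] [DecidableEq σ] [Fintype ι] [DecidableEq ι]

theorem exists_deriv_var {κ L : Type} [Field κ] [Algebra (MvPolynomial ι ℤ) κ]
    [IsFractionRing (MvPolynomial ι ℤ) κ] [Field L] [Algebra κ L] [FiniteDimensional κ L]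
    (i₀ : ι) : ∃ D : Derivation ℤ L L, ∀ i, D (algebraMap κ L (algebraMap (MvPolynomial ι ℤ) κ (X i))) =
      if i = i₀ then 1 else 0 := by
  have hch : CharZero κ := charZero_of_injective_algebraMap
    (IsFractionRing.injective (MvPolynomial ι ℤ) κ)
  obtain ⟨D₁, hD₁⟩ := exists_deriv_frac (κ := κ) (pderiv i₀ : Derivation ℤ (MvPolynomial ι ℤ) _)
  obtain ⟨D₂, hD₂⟩ := exists_deriv_fin (L := L) D₁
  have hD₁' : ∀ a, D₁ (algebraMap (MvPolynomial ι ℤ) κ a) =
      algebraMap (MvPolynomial ι ℤ) κ (pderiv i₀ a) := hD₁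
  refine ⟨D₂, fun i => ?_⟩
  rw [hD₂, hD₁']
  by_cases h : i = i₀
  · rw [h, pderiv_X_self, map_one, map_one, if_pos rfl]
  · rw [pderiv_X_of_ne h, map_zero, map_zero, if_neg h]

/-- Generically there are no degenerate critical points. -/
theorem exists_hess_poly (M : ι → MvPolynomial σ ℤ) (e : σ → ι) (he : Function.Injective e)
    (hM : ∀ k, M (e k) = X k) : ∃ R : MvPolynomial ι ℤ, R ≠ 0 ∧
      C R ∈ Ideal.span ({(hess (lin M (X : ι → MvPolynomial ι ℤ))).det} ∪
        Set.range fun j => pderiv j (lin M (X : ι → MvPolynomial ι ℤ))) := by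
  set f : MvPolynomial σ (MvPolynomial ι ℤ) := lin M (X : ι → MvPolynomial ι ℤ) with hf
  set S : Set (MvPolynomial σ (MvPolynomial ι ℤ)) := {(hess f).det} ∪
        Set.range fun j => pderiv j f with hS
  let κ := FractionRing (MvPolynomial ι ℤ)
  have hinj : Function.Injective (algebraMap (MvPolynomial ι ℤ) κ) := IsFractionRing.injective _ _
  by_cases hJ : Ideal.span (map (algebraMap (MvPolynomial ι ℤ) κ) '' S) = ⊤
  · have h1 : (1 : MvPolynomial σ κ) ∈ Ideal.span (map (algebraMap (MvPolynomial ι ℤ) κ) '' S) := by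
      rw [hJ]; trivial
    obtain ⟨s, hs, y, hy, hys⟩ := clear_span (R := κ) (nonZeroDivisors (MvPolynomial ι ℤ)) S 1 h1
    refine ⟨s, nonZeroDivisors.ne_zero hs, ?_⟩
    have h2 : y = C s := by
      apply map_injective _ hinj
      rw [hys, mul_one, map_C]
    rwa [← h2]
  · exfalso
    obtain ⟨L, _, _, _, y, hy⟩ := exists_point _ hJ
    let Φ : MvPolynomial ι ℤ →+* L := (algebraMap κ L).comp (algebraMap (MvPolynomial ι ℤ) κ)
    have hev : ∀ P ∈ S, eval₂ Φ y P = 0 := by
      intro P hP
      have h1 := hy _ (Ideal.subset_span ⟨P, hP, rfl⟩)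
      rw [aeval_def, eval₂_map] at h1
      exact h1
    choose D hD using fun k : σ => exists_deriv_var (κ := κ) (L := L) (e k)
    have hDx : ∀ k i, D k (Φ (X i)) = if i = e k then 1 else 0 := fun k i => hD k i
    -- the Hessian at the point
    let Hs : Matrix σ σ L := Matrix.of fun l m => eval₂ Φ y (hess f l m)
    let Y : Matrix σ σ L := Matrix.of fun m k => D k (y m)
    have hHY : Hs * Y = -1 := by
      ext l k
      rw [Matrix.mul_apply, Matrix.neg_apply, Matrix.one_apply]
      have h1 : eval₂ Φ y (pderiv l f) = 0 := hev _ (Or.inr ⟨l, rfl⟩)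
      rw [hf, pderiv_lin, eval₂_lin] at h1
      have h2 := congrArg (D k) h1
      rw [der_lin, map_zero] at h2
      have h3 : ∑ i, D k (Φ (X i)) * eval₂ (Int.castRingHom L) y (pderiv l (M i)) =
          if l = k then 1 else 0 := by
        simp only [hDx, ite_mul, one_mul, zero_mul, Finset.sum_ite_eq', Finset.mem_univ, if_true]
        rw [hM k]
        by_cases hlk : l = k
        · rw [if_pos hlk, hlk, pderiv_X_self, eval₂_one]
        · rw [if_neg hlk, pderiv_X_of_ne (fun h => hlk h.symm), eval₂_zero]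
      rw [h3] at h2
      have h4 : ∀ m, Hs l m = ∑ i, Φ (X i) * eval₂ (Int.castRingHom L) y (pderiv m (pderiv l (M i))) := by
        intro m
        change eval₂ Φ y (hess f l m) = _
        rw [hess_apply, hf, pderiv_lin, pderiv_lin, eval₂_lin]
      have h5 : ∑ m, Hs l m * Y m k = -(if l = k then 1 else 0) := by
        simp only [h4]
        exact (neg_eq_of_add_eq_zero_right h2).symm
      exact h5
    have hdet : eval₂ Φ y (hess f).det = Hs.det := by
      have h1 : eval₂ Φ y (hess f).det = (eval₂Hom Φ y) (hess f).det := rfl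
      rw [h1, RingHom.map_det]
      rfl
    have h0 : eval₂ Φ y (hess f).det = 0 := hev _ (Or.inl rfl)
    rw [hdet] at h0
    have h6 := congrArg Matrix.det hHY
    rw [Matrix.det_mul, h0, zero_mul, Matrix.det_neg, Matrix.det_one, mul_one] at h6
    exact pow_ne_zero _ (neg_ne_zero.2 one_ne_zero) h6.symm

/-- Generically there are no singular points. -/
theorem exists_smooth_poly (M : ι → MvPolynomial σ ℤ) (d : ℕ) (hd : 1 ≤ d)
    (hM : ∀ i, (M i).IsHomogeneous d) (s : σ) (i₀ : ι) (hi₀ : M i₀ = X s ^ d) :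
    ∃ R : MvPolynomial ι ℤ, R ≠ 0 ∧ ∃ k : ℕ, C R * X s ^ k ∈
      Ideal.span (Set.range fun j => pderiv j (lin M (X : ι → MvPolynomial ι ℤ))) := by
  set f : MvPolynomial σ (MvPolynomial ι ℤ) := lin M (X : ι → MvPolynomial ι ℤ) with hf
  set S : Set (MvPolynomial σ (MvPolynomial ι ℤ)) := Set.range fun j => pderiv j f with hS
  let κ := FractionRing (MvPolynomial ι ℤ)
  have hinj : Function.Injective (algebraMap (MvPolynomial ι ℤ) κ) := IsFractionRing.injective _ _
  by_cases hJ : X s ∈ (Ideal.span (map (algebraMap (MvPolynomial ι ℤ) κ) '' S)).radical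
  · obtain ⟨k, hk⟩ := hJ
    obtain ⟨r, hr, y, hy, hyr⟩ := clear_span (R := κ) (nonZeroDivisors (MvPolynomial ι ℤ)) S _ hk
    refine ⟨r, nonZeroDivisors.ne_zero hr, k, ?_⟩
    have h2 : y = C r * X s ^ k := by
      apply map_injective _ hinj
      rw [hyr, map_mul, map_C, map_pow, map_X]
    rwa [← h2]
  · exfalso
    obtain ⟨L, _, _, _, y, hy, hys⟩ := exists_point_rad _ _ hJ
    have hch : CharZero κ := IsFractionRing.charZero (MvPolynomial ι ℤ)
    have hchL : CharZero L := charZero_of_injective_algebraMap (algebraMap κ L).injective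
    let Φ : MvPolynomial ι ℤ →+* L := (algebraMap κ L).comp (algebraMap (MvPolynomial ι ℤ) κ)
    have hev : ∀ P ∈ S, eval₂ Φ y P = 0 := by
      intro P hP
      have h1 := hy _ (Ideal.subset_span ⟨P, hP, rfl⟩)
      rw [aeval_def, eval₂_map] at h1
      exact h1
    rw [aeval_X] at hys
    obtain ⟨D, hD⟩ := exists_deriv_var (κ := κ) (L := L) i₀
    have hDx : ∀ i, D (Φ (X i)) = if i = i₀ then 1 else 0 := fun i => hD i
    have hfd : f.IsHomogeneous d := by
      refine IsHomogeneous.sum _ _ _ fun i _ => ?_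
      have h2 := (isHomogeneous_C σ (X i : MvPolynomial ι ℤ)).mul
        ((hM i).map (Int.castRingHom (MvPolynomial ι ℤ)))
      rwa [zero_add] at h2
    have hf0 : eval₂ Φ y f = 0 := by
      have h1 := congrArg (eval₂ Φ y) hfd.sum_X_mul_pderiv
      rw [eval₂_sum] at h1
      have h2 : ∀ i, eval₂ Φ y (X i * pderiv i f) = 0 := by
        intro i
        rw [eval₂_mul, hev _ ⟨i, rfl⟩, mul_zero]
      simp only [h2, Finset.sum_const_zero] at h1
      rw [nsmul_eq_mul, eval₂_mul] at h1
      have h3 : eval₂ Φ y (d : MvPolynomial σ (MvPolynomial ι ℤ)) = (d : L) :=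
        map_natCast (eval₂Hom Φ y) d
      rw [h3] at h1
      refine (mul_eq_zero.1 h1.symm).resolve_left ?_
      have : d ≠ 0 := by omega
      exact_mod_cast this
    rw [hf, eval₂_lin] at hf0
    have h2 := congrArg D hf0
    rw [der_lin, map_zero] at h2
    have h3 : ∑ i, D (Φ (X i)) * eval₂ (Int.castRingHom L) y (M i) = y s ^ d := by
      simp only [hDx, ite_mul, one_mul, zero_mul, Finset.sum_ite_eq', Finset.mem_univ, if_true]
      rw [hi₀, eval₂_pow, eval₂_X]
    have h4 : ∀ j, ∑ i, Φ (X i) * eval₂ (Int.castRingHom L) y (pderiv j (M i)) = 0 := by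
      intro j
      rw [← eval₂_lin, ← pderiv_lin, ← hf]
      exact hev _ ⟨j, rfl⟩
    simp only [h3, h4, zero_mul, Finset.sum_const_zero, add_zero] at h2
    exact hys (pow_eq_zero_iff (by omega)|>.1 h2)

end elim

end Pool.Agent.Helper382_Nodal
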