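import Pool.Agent.Helper382_Nodal.Expand

/-! The expansion of a polynomial at a critical point with invertible Hessian: the quadratic form. -/

set_option autoImplicit false
set_option linter.unusedSectionVars false

namespace Pool.Agent.Helper382_Nodal

open MvPolynomial Pool.Agent.H918R2.Quad

section dvr

variable {R : Type} [CommRing R] [IsDomain R] [IsDiscreteValuationRing R] {σ : Type} [Fintype σ]
  [DecidableEq σ] (π : R) (hπ : Irreducible π) (G : MvPolynomial σ R)
  (Q : Ideal (MvPolynomial σ R)) [Q.IsPrime] (hπQ : C π ∈ Q) (hg : ∀ l, pderiv l G ∈ Q)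
  (hdet : (hess G).det ∉ Q)

/-- `G` is divisible by `π ^ k` modulo the critical equations, locally at `Q`. -/
def Div (k : ℕ) : Prop := ∃ (a c : MvPolynomial σ R) (β : σ → MvPolynomial σ R), a ∉ Q ∧
  a * G = C π ^ k * c + ∑ l, β l * pderiv l G

include hπ hπQ hg hdet

theorem div_bound (c₀ : R) (N : ℕ) (hN : ¬ π ^ (N + 1) ∣ c₀)
    (hs : C c₀ ∈ Ideal.span ({G} ∪ Set.range fun l => pderiv l G)) (k : ℕ) (hk : Div π G Q k) :
    k ≤ N := by
  by_contra hcon
  push Not at hcon
  obtain ⟨a, c, β, ha, hac⟩ := hk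
  have hc₀ : c₀ ≠ 0 := by
    rintro rfl
    exact hN (dvd_zero _)
  obtain ⟨N', u, hu⟩ := IsDiscreteValuationRing.eq_unit_mul_pow_irreducible hc₀ hπ
  have hN' : N' ≤ N := by
    by_contra h
    push Not at h
    exact hN (by rw [hu]; exact Dvd.dvd.mul_left (pow_dvd_pow _ h) _)
  rw [Ideal.span_union, Submodule.mem_sup] at hs
  obtain ⟨y, hy, z, hz, hyz⟩ := hs
  obtain ⟨b, rfl⟩ := Ideal.mem_span_singleton'.1 hy
  have h1 : C π ^ N' * (C (u : R) * a - C π ^ (k - N') * c * b) ∈
      Ideal.span (Set.range fun l => pderiv l G) := by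
    have h2 : C π ^ N' * (C (u : R) * a - C π ^ (k - N') * c * b) =
        b * (∑ l, β l * pderiv l G) + a * z := by
      have h3 : C π ^ N' * C π ^ (k - N') = (C π ^ k : MvPolynomial σ R) := by
        rw [← pow_add]
        congr 1
        omega
      have h4 : (C c₀ : MvPolynomial σ R) = C π ^ N' * C (u : R) := by
        rw [hu, C_mul, C_pow, mul_comm]
      have h5 : a * C c₀ = b * (a * G) + a * z := by
        rw [← hyz]
        ring
      rw [hac, h4] at h5
      have h6 : b * (∑ l, β l * pderiv l G) + a * z =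
          a * (C π ^ N' * C (u : R)) - b * (C π ^ k * c) := by
        rw [h5]
        ring
      rw [h6, ← h3]
      ring
    rw [h2]
    refine Ideal.add_mem _ (Ideal.mul_mem_left _ _ (Ideal.sum_mem _ fun l _ =>
      Ideal.mul_mem_left _ _ (Ideal.subset_span ⟨l, rfl⟩))) (Ideal.mul_mem_left _ _ hz)
  refine no_pow π hπ G Q hπQ hg hdet N' _ (fun h => ?_) h1
  have h2 : C π ^ (k - N') * c * b ∈ Q := by
    refine Q.mul_mem_right _ (Q.mul_mem_right _ (Ideal.pow_mem_of_mem _ hπQ _ (by omega)))
  have h3 : C (u : R) * a ∈ Q := by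
    have h4 := Q.add_mem h h2
    rwa [sub_add_cancel] at h4
  rcases Ideal.IsPrime.mem_or_mem ‹_› h3 with h4 | h4
  · refine Ideal.IsPrime.ne_top ‹Q.IsPrime› (Ideal.eq_top_of_isUnit_mem _ h4 ?_)
    exact u.isUnit.map C
  · exact ha h4

theorem exists_exact (hG : G ∈ Q) (c₀ : R) (N : ℕ) (hN : ¬ π ^ (N + 1) ∣ c₀)
    (hs : C c₀ ∈ Ideal.span ({G} ∪ Set.range fun l => pderiv l G)) :
    ∃ (k : ℕ) (a c : MvPolynomial σ R) (β : σ → MvPolynomial σ R), 1 ≤ k ∧ k ≤ N ∧ a ∉ Q ∧
      c ∉ Q ∧ a * G = C π ^ k * c + ∑ l, β l * pderiv l G := by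
  classical
  have h0 : Div π G Q 0 := by
    refine ⟨1, G, 0, ?_, ?_⟩
    · exact (Ideal.ne_top_iff_one Q).1 (Ideal.IsPrime.ne_top ‹_›)
    · simp
  set k := Nat.findGreatest (Div π G Q) N with hk
  have hkD : Div π G Q k := Nat.findGreatest_spec (Nat.zero_le N) h0
  have hkN : k ≤ N := Nat.findGreatest_le N
  have hk1 : ¬ Div π G Q (k + 1) := by
    intro h
    have h1 := div_bound π hπ G Q hπQ hg hdet c₀ N hN hs _ h
    have h2 := Nat.le_findGreatest h1 h
    omega
  obtain ⟨a, c, β, ha, hac⟩ := hkD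
  have hc : c ∉ Q := by
    intro hc
    obtain ⟨b, y, γ, hb, hbc⟩ := crit_gens π hπ G Q hπQ hg hdet c hc
    apply hk1
    refine ⟨b * a, y, fun l => C π ^ k * γ l + b * β l, ?_, ?_⟩
    · intro h
      exact (Ideal.IsPrime.mem_or_mem ‹_› h).elim hb ha
    · have h1 : ∑ l, (C π ^ k * γ l + b * β l) * pderiv l G =
          C π ^ k * ∑ l, γ l * pderiv l G + b * ∑ l, β l * pderiv l G := by
        rw [Finset.mul_sum, Finset.mul_sum, ← Finset.sum_add_distrib]
        exact Finset.sum_congr rfl fun l _ => by ring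
      have h2 : b * a * G = C π ^ k * (b * c) + b * ∑ l, β l * pderiv l G := by
        have h3 : b * a * G = b * (a * G) := by ring
        rw [h3, hac]
        ring
      rw [h2, h1, hbc]
      ring
  refine ⟨k, a, c, β, ?_, hkN, ha, hc, hac⟩
  by_contra h
  have hk0 : k = 0 := by omega
  rw [hk0, pow_zero, one_mul] at hac
  apply hc
  have h1 : c = a * G - ∑ l, β l * pderiv l G := by rw [hac]; ring
  rw [h1]
  exact Q.sub_mem (Q.mul_mem_left _ hG) (Q.sum_mem fun l _ => Q.mul_mem_left _ (hg l))

/-- The expansion at a critical point with invertible Hessian. -/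
theorem expand (hG : G ∈ Q) (c₀ : R) (N : ℕ) (hN : ¬ π ^ (N + 1) ∣ c₀)
    (hs : C c₀ ∈ Ideal.span ({G} ∪ Set.range fun l => pderiv l G)) :
    ∃ (k : ℕ) (h c : MvPolynomial σ R) (qf : Matrix σ σ (MvPolynomial σ R)), 1 ≤ k ∧ k ≤ N ∧
      h ∉ Q ∧ c ∉ Q ∧
      h * G = C π ^ k * c + ∑ l, ∑ m, qf l m * pderiv l G * pderiv m G ∧
      (qf + qf.transpose).det ∉ Q := by
  classical
  obtain ⟨k, a, c, β, hk1, hkN, ha, hc, hac⟩ := exists_exact π hπ G Q hπQ hg hdet hG c₀ N hN hs
  -- the linear coefficients
  let J : Ideal (MvPolynomial σ R) := Ideal.span {C π ^ k} ⊔ Ideal.span (Set.range fun l => pderiv l G)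
  have hπJ : ∀ x, C π ^ k * x ∈ J := fun x =>
    Ideal.mem_sup_left (Ideal.mul_mem_right _ _ (Ideal.mem_span_singleton_self _))
  have hgJ : ∀ l x, x * pderiv l G ∈ J := fun l x =>
    Ideal.mem_sup_right (Ideal.mul_mem_left _ _ (Ideal.subset_span ⟨l, rfl⟩))
  have haGJ : a * G ∈ J := by
    rw [hac]
    exact J.add_mem (hπJ _) (J.sum_mem fun l _ => hgJ l _)
  have hβ1 : ∀ m, a * ∑ l, β l * hess G l m ∈ J := by
    intro m
    have h1 := congrArg (pderiv m) hac
    rw [Derivation.leibniz, map_add, Derivation.leibniz, Derivation.leibniz_pow, pderiv_C, smul_zero,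
      smul_zero, smul_zero, add_zero, map_sum] at h1
    simp only [Derivation.leibniz, smul_eq_mul] at h1
    rw [Finset.sum_add_distrib] at h1
    have h2 : a * ∑ l, β l * hess G l m = a * (a * pderiv m G) + pderiv m a * (a * G) -
        a * (C π ^ k * pderiv m c) - ∑ l, (a * pderiv m (β l)) * pderiv l G := by
      have h3 : ∑ l, β l * hess G l m = a * pderiv m G + G * pderiv m a - C π ^ k * pderiv m c -
          ∑ l, pderiv l G * pderiv m (β l) := by
        rw [h1]
        simp only [hess_apply]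
        ring
      rw [h3]
      have h4 : ∑ l, (a * pderiv m (β l)) * pderiv l G = a * ∑ l, pderiv l G * pderiv m (β l) := by
        rw [Finset.mul_sum]
        exact Finset.sum_congr rfl fun l _ => by ring
      rw [h4]
      ring
    rw [h2]
    refine J.sub_mem (J.sub_mem (J.add_mem (J.mul_mem_left _ (hgJ m a)) (J.mul_mem_left _ haGJ))
      (J.mul_mem_left _ (hπJ _))) (J.sum_mem fun l _ => hgJ l _)
  have hβ2 : ∀ l, (a * (hess G).det) * β l ∈ J := by
    intro l
    have h2 : Matrix.vecMul (Matrix.vecMul β (hess G)) (hess G).adjugate = (hess G).det • β := by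
      rw [Matrix.vecMul_vecMul, Matrix.mul_adjugate, Matrix.vecMul_smul, Matrix.vecMul_one]
    have h3 := congrFun h2 l
    rw [Pi.smul_apply, smul_eq_mul] at h3
    have h4 : (a * (hess G).det) * β l = ∑ m, (a * ∑ l', β l' * hess G l' m) *
        (hess G).adjugate m l := by
      rw [mul_assoc, ← h3]
      change a * (∑ m, (∑ l', β l' * hess G l' m) * (hess G).adjugate m l) = _
      rw [Finset.mul_sum]
      exact Finset.sum_congr rfl fun m _ => by ring
    rw [h4]
    exact J.sum_mem fun m _ => J.mul_mem_right _ (hβ1 m)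
  have hβ3 : ∀ l, ∃ (x : MvPolynomial σ R) (γ : σ → MvPolynomial σ R),
      (a * (hess G).det) * β l = C π ^ k * x + ∑ m, γ m * pderiv m G := by
    intro l
    obtain ⟨y, hy, z, hz, hyz⟩ := Submodule.mem_sup.1 (hβ2 l)
    obtain ⟨b, rfl⟩ := Ideal.mem_span_singleton'.1 hy
    obtain ⟨γ, rfl⟩ := (Ideal.mem_span_range_iff_exists_fun).1 hz
    exact ⟨b, γ, by rw [← hyz, mul_comm b]⟩
  choose x qf hxq using hβ3
  let h : MvPolynomial σ R := (a * (hess G).det) * a
  let c' : MvPolynomial σ R := (a * (hess G).det) * c + ∑ l, x l * pderiv l G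
  have hadet : a * (hess G).det ∉ Q := fun h => (Ideal.IsPrime.mem_or_mem ‹_› h).elim ha hdet
  have hh : h ∉ Q := fun h1 => (Ideal.IsPrime.mem_or_mem ‹_› h1).elim hadet ha
  have hc' : c' ∉ Q := by
    intro h1
    have h2 : ∑ l, x l * pderiv l G ∈ Q := Q.sum_mem fun l _ => Q.mul_mem_left _ (hg l)
    have h3 : (a * (hess G).det) * c ∈ Q := by
      have h4 := Q.sub_mem h1 h2
      simpa [c'] using h4
    exact (Ideal.IsPrime.mem_or_mem ‹_› h3).elim hadet hc
  have hexp : h * G = C π ^ k * c' + ∑ l, ∑ m, qf l m * pderiv l G * pderiv m G := by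
    have h1 : h * G = (a * (hess G).det) * (a * G) := by
      simp only [h]
      ring
    rw [h1, hac, mul_add, Finset.mul_sum]
    have h2 : ∀ l, (a * (hess G).det) * (β l * pderiv l G) =
        C π ^ k * (x l * pderiv l G) + ∑ m, qf l m * pderiv l G * pderiv m G := by
      intro l
      have h3 : (a * (hess G).det) * (β l * pderiv l G) = ((a * (hess G).det) * β l) * pderiv l G := by
        ring
      rw [h3, hxq, add_mul, Finset.sum_mul]
      congr 1
      · ring
      · exact Finset.sum_congr rfl fun m _ => by ring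
    rw [Finset.sum_congr rfl fun l _ => h2 l, Finset.sum_add_distrib, ← Finset.mul_sum]
    simp only [c']
    ring
  clear_value h c'
  refine ⟨k, h, c', qf, hk1, hkN, hh, hc', hexp, ?_⟩
  -- the polar form is invertible
  let P : Matrix σ σ (MvPolynomial σ R) := Matrix.of qf + (Matrix.of qf).transpose
  have hP : ∀ l m, P l m = qf l m + qf m l := fun l m => rfl
  have key : ∀ j m, (if j = m then h else 0) - ∑ l, P m l * hess G l j ∈ Q := by
    intro j
    -- differentiate the expansion
    have h1 := congrArg (pderiv j) hexp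
    rw [Derivation.leibniz, map_add, Derivation.leibniz, Derivation.leibniz_pow, pderiv_C, smul_zero,
      smul_zero, smul_zero, add_zero, map_sum] at h1
    simp only [map_sum, Derivation.leibniz, smul_eq_mul] at h1
    -- the second order part
    let E2 : MvPolynomial σ R := ∑ l, ∑ m, pderiv l G * pderiv m G * pderiv j (qf l m)
    have hE2 : E2 ∈ Q ^ 2 := by
      refine Ideal.sum_mem _ fun l _ => Ideal.sum_mem _ fun m _ => Ideal.mul_mem_right _ _ ?_
      rw [pow_two]
      exact Ideal.mul_mem_mul (hg l) (hg m)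
    have h2 : ∑ l, ∑ m, (qf l m * pderiv l G * hess G m j +
        pderiv m G * (qf l m * hess G l j + pderiv l G * pderiv j (qf l m))) =
        (∑ m, (∑ l, P m l * hess G l j) * pderiv m G) + E2 := by
      have h3 : ∑ m, (∑ l, P m l * hess G l j) * pderiv m G =
          (∑ l, ∑ m, qf l m * pderiv l G * hess G m j) +
          ∑ l, ∑ m, pderiv m G * (qf l m * hess G l j) := by
        have h4 : ∑ l, ∑ m, pderiv m G * (qf l m * hess G l j) =
            ∑ m, ∑ l, pderiv m G * (qf l m * hess G l j) := Finset.sum_comm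
        rw [h4, ← Finset.sum_add_distrib]
        refine Finset.sum_congr rfl fun m _ => ?_
        rw [Finset.sum_mul, ← Finset.sum_add_distrib]
        refine Finset.sum_congr rfl fun l _ => ?_
        rw [hP]
        ring
      rw [h3]
      simp only [E2]
      rw [← Finset.sum_add_distrib, ← Finset.sum_add_distrib]
      refine Finset.sum_congr rfl fun l _ => ?_
      rw [← Finset.sum_add_distrib, ← Finset.sum_add_distrib]
      exact Finset.sum_congr rfl fun m _ => by ring
    have h5 : h * pderiv j G + G * pderiv j h = C π ^ k * pderiv j c' +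
        ((∑ m, (∑ l, P m l * hess G l j) * pderiv m G) + E2) := by
      rw [h1, ← h2]
      rfl
    -- multiply by `h`
    have hmem : ∑ m, (h * ((if j = m then h else 0) - ∑ l, P m l * hess G l j)) * pderiv m G +
        (C π * (C π ^ (k - 1) * (c' * pderiv j h - h * pderiv j c'))) ∈ Q ^ 2 := by
      have hk' : (C π ^ k : MvPolynomial σ R) = C π * C π ^ (k - 1) := by
        rw [← pow_succ']
        congr 1
        omega
      have h6 : ∑ m, (h * ((if j = m then h else 0) - ∑ l, P m l * hess G l j)) * pderiv m G =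
          h * (h * pderiv j G) - h * ∑ m, (∑ l, P m l * hess G l j) * pderiv m G := by
        have h7 : ∑ m, (h * ((if j = m then h else 0) - ∑ l, P m l * hess G l j)) * pderiv m G =
            ∑ m, h * ((if j = m then h else 0) * pderiv m G) -
            ∑ m, h * ((∑ l, P m l * hess G l j) * pderiv m G) := by
          rw [← Finset.sum_sub_distrib]
          exact Finset.sum_congr rfl fun m _ => by ring
        rw [h7, ← Finset.mul_sum, ← Finset.mul_sum]
        congr 2
        simp
      have h8 : h * (h * pderiv j G) - h * ∑ m, (∑ l, P m l * hess G l j) * pderiv m G =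
          h * E2 + h * (C π ^ k * pderiv j c') - pderiv j h * (h * G) := by
        have h9 : h * (h * pderiv j G + G * pderiv j h) = h * (C π ^ k * pderiv j c' +
          ((∑ m, (∑ l, P m l * hess G l j) * pderiv m G) + E2)) := by rw [h5]
        linear_combination h9
      rw [h6, h8, hexp]
      have h10 : h * E2 + h * (C π ^ k * pderiv j c') -
          pderiv j h * (C π ^ k * c' + ∑ l, ∑ m, qf l m * pderiv l G * pderiv m G) +
          C π * (C π ^ (k - 1) * (c' * pderiv j h - h * pderiv j c')) =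
          h * E2 - pderiv j h * ∑ l, ∑ m, qf l m * pderiv l G * pderiv m G := by
        rw [hk']
        ring
      rw [h10]
      refine Ideal.sub_mem _ (Ideal.mul_mem_left _ _ hE2) (Ideal.mul_mem_left _ _ ?_)
      refine Ideal.sum_mem _ fun l _ => Ideal.sum_mem _ fun m _ => ?_
      rw [mul_assoc]
      refine Ideal.mul_mem_left _ _ ?_
      rw [pow_two]
      exact Ideal.mul_mem_mul (hg l) (hg m)
    intro m
    have h11 := coeff_mem G Q hg hdet
      (fun m => h * ((if j = m then h else 0) - ∑ l, P m l * hess G l j))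
      (C π * (C π ^ (k - 1) * (c' * pderiv j h - h * pderiv j c'))) (fun m => by
        rw [Derivation.leibniz, pderiv_C, smul_zero, add_zero, smul_eq_mul]
        exact Q.mul_mem_right _ hπQ) hmem m
    exact (Ideal.IsPrime.mem_or_mem ‹_› h11).resolve_left hh
  -- determinants
  intro hdetP
  have h1 : (Ideal.Quotient.mk Q).mapMatrix (P * hess G) =
      (Ideal.Quotient.mk Q).mapMatrix (h • (1 : Matrix σ σ (MvPolynomial σ R))) := by
    ext m j
    change Ideal.Quotient.mk Q (∑ l, P m l * hess G l j) =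
      Ideal.Quotient.mk Q ((h • (1 : Matrix σ σ (MvPolynomial σ R))) m j)
    rw [eq_comm, Ideal.Quotient.eq]
    have h2 := key j m
    have h3 : (h • (1 : Matrix σ σ (MvPolynomial σ R))) m j = if j = m then h else 0 := by
      rw [Matrix.smul_apply, Matrix.one_apply, smul_eq_mul]
      by_cases hjm : j = m
      · rw [if_pos hjm, if_pos hjm.symm, mul_one]
      · rw [if_neg hjm, if_neg (fun h => hjm h.symm), mul_zero]
    rw [h3]
    exact h2
  have h4 := congrArg Matrix.det h1
  rw [← RingHom.map_det, ← RingHom.map_det, Matrix.det_mul, Matrix.det_smul, Matrix.det_one,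
    mul_one, map_mul] at h4
  have h5 : Ideal.Quotient.mk Q P.det = 0 := by
    rw [Ideal.Quotient.eq_zero_iff_mem]
    exact hdetP
  rw [h5, zero_mul, eq_comm, Ideal.Quotient.eq_zero_iff_mem] at h4
  exact hh (Ideal.IsPrime.mem_of_pow_mem ‹_› _ h4)

end dvr

end Pool.Agent.Helper382_Nodal
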