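import Pool.Agent.Helper382_Nodal.Sieve2

/-! A sieve for conditions modulo primes given by one equation in all but one of the variables and
finitely many values of the last variable: the density. -/

set_option autoImplicit false
set_option linter.unusedSectionVars false

namespace Pool.Agent.Helper382_Nodal

open MvPolynomial Finset

theorem map_ne_zero_of_large {ι : Type} (R : MvPolynomial ι ℤ) (hR : R ≠ 0) :
    ∃ z : ℕ, ∀ p : ℕ, z < p → map (Int.castRingHom (ZMod p)) R ≠ 0 := by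
  obtain ⟨m, hm⟩ := MvPolynomial.ne_zero_iff.1 hR
  refine ⟨(R.coeff m).natAbs, fun p hp h => ?_⟩
  have h1 := congrArg (coeff m) h
  rw [coeff_map, coeff_zero] at h1
  have h2 : ((R.coeff m : ℤ) : ZMod p) = 0 := h1
  rw [ZMod.intCast_zmod_eq_zero_iff_dvd] at h2
  have h3 := Nat.le_of_dvd (Int.natAbs_pos.2 hm) (Int.natCast_dvd.1 h2)
  omega

variable {ι : Type} [Fintype ι] [DecidableEq ι] (i₀ : ι)
  {R : MvPolynomial {i : ι // i ≠ i₀} ℤ} {B : ℕ} {Bad : ℕ → (ι → ℤ) → Prop}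

open scoped Classical in
theorem sieve {M₀ : ℕ} (h : BadCond i₀ R B Bad M₀) (hR : R ≠ 0) (ε : ℝ) (hε : 0 < ε) :
    ∃ z₀ : ℕ, ∀ z, z₀ ≤ z → ∀ A : ℕ, ∃ L₀ : ℕ, ∀ L, L₀ ≤ L → ∀ S : ι → Finset ℤ,
      (∀ i, #(S i) = L) →
      (∀ i, ∀ p : ℕ, p.Prime → z < p → ∀ r : ZMod p,
        #{x ∈ S i | ((x : ℤ) : ZMod p) = r} ≤ L / p + 1) →
      (∀ i, ∀ x ∈ S i, |x| ≤ A * L) →
      (#{x ∈ Fintype.piFinset S | ∃ p, p.Prime ∧ z < p ∧ Bad p x} : ℝ) ≤
        ε * (L : ℝ) ^ Fintype.card ι := by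
  obtain ⟨z₁, hz₁⟩ := map_ne_zero_of_large R hR
  obtain ⟨C₁, hC₁⟩ := growth R
  set D := R.totalDegree with hD
  set N := Fintype.card ι with hN
  have hN1 : 1 ≤ N := Fintype.card_pos_iff.2 ⟨i₀⟩
  set C : ℝ := ((D * B * 2 ^ N : ℕ) : ℝ) with hC
  have hC0 : 0 ≤ C := Nat.cast_nonneg _
  obtain ⟨z₂, hz₂⟩ := exists_nat_gt (2 * C / ε)
  refine ⟨max (max M₀ z₁) (max z₂ 1), fun z hz A => ?_⟩
  have hzM : M₀ ≤ z := le_trans (le_trans (le_max_left _ _) (le_max_left _ _)) hz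
  have hzz₁ : z₁ ≤ z := le_trans (le_trans (le_max_right _ _) (le_max_left _ _)) hz
  have hzz₂ : z₂ ≤ z := le_trans (le_trans (le_max_left _ _) (le_max_right _ _)) hz
  have hz1 : 1 ≤ z := le_trans (le_trans (le_max_right _ _) (le_max_right _ _)) hz
  obtain ⟨L₁, hL₁⟩ := exists_nat_gt (2 * ((D + D * B : ℕ) : ℝ) / ε)
  refine ⟨max (max L₁ (z + 1)) (C₁ * (max A 1) ^ D + 1), fun L hL S hSL hS hA => ?_⟩
  have hLL₁ : L₁ ≤ L := le_trans (le_trans (le_max_left _ _) (le_max_left _ _)) hL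
  have hLz : z + 1 ≤ L := le_trans (le_trans (le_max_right _ _) (le_max_left _ _)) hL
  have hLC : C₁ * (max A 1) ^ D < L := le_trans (le_max_right _ _) hL
  have hL0 : (0 : ℝ) < L := by
    have : 0 < L := by omega
    exact_mod_cast this
  have hz0 : (0 : ℝ) < z := by exact_mod_cast hz1
  -- the small primes
  have hsmall : ∀ p : ℕ, p.Prime → z < p → p ≤ L →
      (#{x ∈ Fintype.piFinset S | Bad p x} : ℝ) ≤ C * (L : ℝ) ^ N * ((p : ℝ) ^ 2)⁻¹ := by
    intro p hp hzp hpL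
    have h1 := card_small i₀ h p hp (by omega) (hz₁ p (by omega)) L hpL S
      (fun i r => hS i p hp hzp r)
    have hp0 : (0 : ℝ) < (p : ℝ) ^ 2 := by
      have := hp.pos
      positivity
    rw [← div_eq_mul_inv, le_div_iff₀ hp0]
    have h2 : (#{x ∈ Fintype.piFinset S | Bad p x} * p ^ 2 : ℝ) ≤
        (D * B * (2 * L) ^ N : ℕ) := by exact_mod_cast h1
    refine h2.trans (le_of_eq ?_)
    rw [hC]
    push_cast
    ring
  have hsum : ∑ p ∈ (Ioc z L).filter Nat.Prime,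
      (#{x ∈ Fintype.piFinset S | Bad p x} : ℝ) ≤ ε / 2 * (L : ℝ) ^ N := by
    calc ∑ p ∈ (Ioc z L).filter Nat.Prime, (#{x ∈ Fintype.piFinset S | Bad p x} : ℝ)
        ≤ ∑ p ∈ (Ioc z L).filter Nat.Prime, C * (L : ℝ) ^ N * ((p : ℝ) ^ 2)⁻¹ := by
          refine sum_le_sum fun p hp => ?_
          rw [mem_filter, mem_Ioc] at hp
          exact hsmall p hp.2 hp.1.1 hp.1.2
      _ ≤ ∑ p ∈ Ioc z L, C * (L : ℝ) ^ N * ((p : ℝ) ^ 2)⁻¹ := by
          refine sum_le_sum_of_subset_of_nonneg (filter_subset _ _) fun p _ _ => ?_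
          positivity
      _ = C * (L : ℝ) ^ N * ∑ p ∈ Ioc z L, ((p : ℝ) ^ 2)⁻¹ := by rw [mul_sum]
      _ ≤ C * (L : ℝ) ^ N * (z : ℝ)⁻¹ := by
          refine mul_le_mul_of_nonneg_left ?_ (by positivity)
          have h1 := sum_Ioc_inv_sq_le_sub (α := ℝ) (k := z) (n := L) (by omega) (by omega)
          have h2 : (0 : ℝ) ≤ (L : ℝ)⁻¹ := by positivity
          linarith
      _ ≤ ε / 2 * (L : ℝ) ^ N := by
          have h1 : C * (z : ℝ)⁻¹ ≤ ε / 2 := by
            rw [← div_eq_mul_inv, div_le_iff₀ hz0]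
            have h2 : 2 * C / ε < z := lt_of_lt_of_le hz₂ (by exact_mod_cast hzz₂)
            rw [div_lt_iff₀ hε] at h2
            linarith
          calc C * (L : ℝ) ^ N * (z : ℝ)⁻¹ = (C * (z : ℝ)⁻¹) * (L : ℝ) ^ N := by ring
            _ ≤ ε / 2 * (L : ℝ) ^ N := by gcongr
  -- the large primes
  have hlarge : (#{x ∈ Fintype.piFinset S | ∃ p, p.Prime ∧ L < p ∧ Bad p x} : ℝ) ≤
      ε / 2 * (L : ℝ) ^ N := by
    have h1 := card_large i₀ h hR L (by omega) (by omega) S hSL (fun i p hp hLp r => by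
      have h2 := hS i p hp (by omega) r
      rwa [Nat.div_eq_of_lt hLp, zero_add] at h2) (fun y hy => by
      rw [Fintype.mem_piFinset] at hy
      have h2 := hC₁ (max A 1 * L) (by
        have : 1 ≤ max A 1 := le_max_right _ _
        nlinarith) y (fun i => (hA i _ (hy i)).trans (by
          push_cast
          gcongr
          exact le_max_left _ _))
      have h3 : (eval y R).natAbs ≤ C₁ * (max A 1 * L) ^ D := by
        zify
        exact_mod_cast h2
      calc (eval y R).natAbs ≤ C₁ * (max A 1 * L) ^ D := h3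
        _ = (C₁ * (max A 1) ^ D) * L ^ D := by ring
        _ < L * L ^ D := by
            apply Nat.mul_lt_mul_of_pos_right hLC
            exact pow_pos (by omega) _
        _ = L ^ (D + 1) := by ring)
    have h2 : (#{x ∈ Fintype.piFinset S | ∃ p, p.Prime ∧ L < p ∧ Bad p x} : ℝ) ≤
        ((D + D * B : ℕ) : ℝ) * (L : ℝ) ^ (N - 1) := by exact_mod_cast h1
    refine h2.trans ?_
    have h3 : ((D + D * B : ℕ) : ℝ) ≤ ε / 2 * L := by
      have h4 : 2 * ((D + D * B : ℕ) : ℝ) / ε < L := lt_of_lt_of_le hL₁ (by exact_mod_cast hLL₁)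
      rw [div_lt_iff₀ hε] at h4
      linarith
    have h5 : (L : ℝ) ^ N = L * (L : ℝ) ^ (N - 1) := by
      rw [← pow_succ']
      congr 1
      omega
    rw [h5, ← mul_assoc]
    gcongr
  -- the union
  have hsub : {x ∈ Fintype.piFinset S | ∃ p, p.Prime ∧ z < p ∧ Bad p x} ⊆
      (((Ioc z L).filter Nat.Prime).biUnion fun p => {x ∈ Fintype.piFinset S | Bad p x}) ∪
        {x ∈ Fintype.piFinset S | ∃ p, p.Prime ∧ L < p ∧ Bad p x} := by
    intro x hx
    rw [mem_filter] at hx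
    obtain ⟨hxS, p, hp, hzp, hb⟩ := hx
    rw [mem_union]
    by_cases hpL : p ≤ L
    · left
      rw [mem_biUnion]
      exact ⟨p, mem_filter.2 ⟨mem_Ioc.2 ⟨hzp, hpL⟩, hp⟩, mem_filter.2 ⟨hxS, hb⟩⟩
    · right
      exact mem_filter.2 ⟨hxS, p, hp, by omega, hb⟩
  have hcard : (#{x ∈ Fintype.piFinset S | ∃ p, p.Prime ∧ z < p ∧ Bad p x} : ℝ) ≤
      ∑ p ∈ (Ioc z L).filter Nat.Prime, (#{x ∈ Fintype.piFinset S | Bad p x} : ℝ) +
        (#{x ∈ Fintype.piFinset S | ∃ p, p.Prime ∧ L < p ∧ Bad p x} : ℝ) := by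
    have h1 := (card_le_card hsub).trans ((card_union_le _ _).trans
      (add_le_add_left card_biUnion_le _))
    exact_mod_cast h1
  linarith

end Pool.Agent.Helper382_Nodal
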