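import Pool.Agent.Helper382_Nodal.Fin
import Pool.Agent.Helper382_Nodal.CritB
import Pool.Agent.Helper382_Nodal.Sieve3

/-! The family of all hypersurfaces of a given degree: the conditions modulo primes. -/

set_option autoImplicit false
set_option linter.unusedSectionVars false

namespace Pool.Agent.Helper382_Nodal

open MvPolynomial Pool.Agent.TH214.RM Pool.Agent.H918R2.Quad

/-- The exponents of the monomials of degree `d`. -/
abbrev Mon (n d : ℕ) : Type := ↥((Finset.univ : Finset (Fin (n + 2))).finsuppAntidiag d)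

theorem degree_mon {n d : ℕ} (m : Mon n d) : ∑ i, m.1 i = d :=
  (Finset.mem_finsuppAntidiag.1 m.2).1

/-- The exponent given by a finitely supported function. -/
def mkMon {n d : ℕ} (m : Fin (n + 2) →₀ ℕ) (h : ∑ i, m i = d) : Mon n d :=
  ⟨m, Finset.mem_finsuppAntidiag.2 ⟨h, Finset.subset_univ _⟩⟩

/-- The form with given coefficients. -/
noncomputable def form {n d : ℕ} {A : Type} [CommRing A] (c : Mon n d → A) :
    MvPolynomial (Fin (n + 2)) A :=
  ∑ m : Mon n d, monomial m.1 (c m)

theorem form_lin {n d : ℕ} {A : Type} [CommRing A] (c : Mon n d → A) :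
    form c = lin (fun m : Mon n d => monomial m.1 (1 : ℤ)) c := by
  unfold form lin
  refine Finset.sum_congr rfl fun m _ => ?_
  rw [map_monomial, C_mul_monomial, map_one, mul_one]

theorem form_map {n d : ℕ} {A A' : Type} [CommRing A] [CommRing A'] (φ : A →+* A')
    (c : Mon n d → A) : map φ (form c) = form (fun m => φ (c m)) := by
  rw [form_lin, form_lin, lin_map]

theorem form_homog {n d : ℕ} {A : Type} [CommRing A] (c : Mon n d → A) :
    (form c).IsHomogeneous d := by
  refine IsHomogeneous.sum _ _ _ fun m _ => isHomogeneous_monomial _ ?_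
  rw [Finsupp.degree_eq_sum]
  exact degree_mon m

theorem coeff_form {n d : ℕ} {A : Type} [CommRing A] (c : Mon n d → A) (m : Mon n d) :
    (form c).coeff m.1 = c m := by
  unfold form
  rw [coeff_sum, Finset.sum_eq_single m]
  · rw [coeff_monomial, if_pos rfl]
  · intro k _ hk
    rw [coeff_monomial, if_neg]
    intro h
    exact hk (Subtype.ext h)
  · intro h
    exact absurd (Finset.mem_univ m) h

/-- The dehomogenized monomials. -/
noncomputable def dm {n : ℕ} (s : Fin (n + 2)) (d : ℕ) (m : Mon n d) :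
    MvPolynomial {j : Fin (n + 2) // j ≠ s} ℤ := deh s (monomial m.1 1)

theorem deh_form {n d : ℕ} {A : Type} [CommRing A] (s : Fin (n + 2)) (c : Mon n d → A) :
    deh s (form c) = lin (dm s d) c := by
  rw [form_lin]
  unfold lin deh
  rw [map_sum]
  refine Finset.sum_congr rfl fun m _ => ?_
  rw [map_mul, aeval_C]
  congr 1
  exact (map_deh (Int.castRingHom A) s (monomial m.1 1)).symm

/-- The exponent of the power of the distinguished variable. -/
noncomputable def m₀ {n : ℕ} (s : Fin (n + 2)) (d : ℕ) : Mon n d :=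
  mkMon (Finsupp.single s d) (by simp [Finsupp.single_apply])

theorem dm_m₀ {n : ℕ} (s : Fin (n + 2)) (d : ℕ) : dm s d (m₀ s d) = 1 := by
  have h1 : (monomial (Finsupp.single s d) (1 : ℤ)) = X s ^ d := (X_pow_eq_monomial).symm
  change deh s (monomial (Finsupp.single s d) 1) = 1
  rw [h1]
  unfold deh
  rw [map_pow, aeval_X]
  unfold tau
  rw [dif_pos rfl, one_pow]

theorem sum_single' {n : ℕ} (a : Fin (n + 2)) (b : ℕ) : ∑ i, (Finsupp.single a b) i = b := by
  rw [Finset.sum_eq_single a]
  · exact Finsupp.single_eq_same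
  · intro i _ hi
    exact Finsupp.single_eq_of_ne hi
  · intro h
    exact absurd (Finset.mem_univ a) h

/-- The exponents of the linear coefficients. -/
noncomputable def m₁ {n : ℕ} (s : Fin (n + 2)) (d : ℕ) (hd : 1 ≤ d) (k : Fin (n + 2)) : Mon n d :=
  mkMon (Finsupp.single s (d - 1) + Finsupp.single k 1) (by
    simp only [Finsupp.add_apply, Finset.sum_add_distrib, sum_single']
    omega)

theorem m₁_coe {n : ℕ} (s : Fin (n + 2)) (d : ℕ) (hd : 1 ≤ d) (k : Fin (n + 2)) :
    (m₁ s d hd k).1 = Finsupp.single s (d - 1) + Finsupp.single k 1 := rfl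

theorem dm_m₁ {n : ℕ} (s : Fin (n + 2)) (d : ℕ) (hd : 1 ≤ d) (k : {j : Fin (n + 2) // j ≠ s}) :
    dm s d (m₁ s d hd k) = X k := by
  have h1 : (monomial (Finsupp.single s (d - 1) + Finsupp.single (k : Fin (n + 2)) 1) (1 : ℤ)) =
      X s ^ (d - 1) * X (k : Fin (n + 2)) := by
    rw [X_pow_eq_monomial]
    unfold X
    rw [monomial_mul, one_mul]
  change deh s (monomial (Finsupp.single s (d - 1) + Finsupp.single (k : Fin (n + 2)) 1) 1) = X k
  rw [h1]
  unfold deh
  rw [map_mul, map_pow, aeval_X, aeval_X]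
  unfold tau
  rw [dif_pos rfl, dif_neg k.2, one_pow, one_mul]

theorem m₁_ne {n : ℕ} (s : Fin (n + 2)) (d : ℕ) (hd : 1 ≤ d) (k : {j : Fin (n + 2) // j ≠ s}) :
    m₁ s d hd k ≠ m₀ s d := by
  intro h
  have h1 := congrArg (fun m : Mon n d => m.1 (k : Fin (n + 2))) h
  have h2 : (m₀ s d).1 = Finsupp.single s d := rfl
  simp only [m₁_coe, h2] at h1
  rw [Finsupp.add_apply, Finsupp.single_eq_same, Finsupp.single_eq_of_ne k.2,
    Finsupp.single_eq_of_ne k.2] at h1
  omega

theorem m₁_inj {n : ℕ} (s : Fin (n + 2)) (d : ℕ) (hd : 1 ≤ d) :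
    Function.Injective (m₁ (n := n) s d hd) := by
  intro k l h
  have h1 := congrArg (fun m : Mon n d => m.1) h
  simp only [m₁_coe] at h1
  have h2 := add_left_cancel h1
  exact (Finsupp.single_left_injective one_ne_zero) h2

end Pool.Agent.Helper382_Nodal
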