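import Pool.Agent.Helper382_Nodal.Family

/-! The family of all hypersurfaces of a given degree: the bad conditions modulo primes. -/

set_option autoImplicit false
set_option linter.unusedSectionVars false

namespace Pool.Agent.Helper382_Nodal

open MvPolynomial Pool.Agent.TH214.RM Pool.Agent.H918R2.Quad

/-- The fibre at `p` has a singular point with degenerate Hessian in the chart `s`. -/
def BadS {n d : ℕ} (s : Fin (n + 2)) (p : ℕ) (c : Mon n d → ℤ) : Prop :=
  ∃ Q : Ideal (MvPolynomial {j : Fin (n + 2) // j ≠ s} ℤ), Q.IsPrime ∧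
    (∀ r : ℤ, C r ∈ Q ↔ r ∈ Ideal.span {(p : ℤ)}) ∧ deh s (form c) ∈ Q ∧
    (∀ j, pderiv j (deh s (form c)) ∈ Q) ∧ (hess (deh s (form c))).det ∈ Q

theorem nod_of_not_bad {n d : ℕ} (p : ℕ) (c : Mon n d → ℤ) (h : ∀ s, ¬ BadS s p c) :
    Nod (Ideal.span {(p : ℤ)}) (form c) := by
  intro s Q hQ hC hF
  by_contra hcon
  push Not at hcon
  exact h s ⟨Q, hQ, hC, hF, hcon.1, hcon.2⟩

/-- The linear combination without one of the terms. -/
theorem lin_split {A σ ι : Type} [CommRing A] [Fintype ι] [DecidableEq ι] (M : ι → MvPolynomial σ ℤ)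
    (i₀ : ι) (hM : M i₀ = 1) (c : ι → A) :
    lin M c = lin (fun i : {i : ι // i ≠ i₀} => M i) (fun i => c i) + C (c i₀) := by
  unfold lin
  rw [Fintype.sum_eq_add_sum_subtype_ne _ i₀, hM, map_one, mul_one, add_comm]

theorem hess_add_C {A σ : Type} [CommRing A] [Fintype σ] [DecidableEq σ] (g : MvPolynomial σ A)
    (a : A) : hess (g + C a) = hess g := by
  ext l m
  rw [hess_apply, hess_apply, map_add, pderiv_C, add_zero]

section

variable {n : ℕ} (s : Fin (n + 2)) (d : ℕ)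

/-- The generic dehomogenized form without the constant term. -/
noncomputable def gen : MvPolynomial {j : Fin (n + 2) // j ≠ s}
    (MvPolynomial {m : Mon n d // m ≠ m₀ s d} ℤ) :=
  lin (fun m : {m : Mon n d // m ≠ m₀ s d} => dm s d m)
    (X : {m : Mon n d // m ≠ m₀ s d} → MvPolynomial {m : Mon n d // m ≠ m₀ s d} ℤ)

theorem map_gen {A : Type} [CommRing A] (φ : MvPolynomial {m : Mon n d // m ≠ m₀ s d} ℤ →+* A) :
    map φ (gen s d) = lin (fun m : {m : Mon n d // m ≠ m₀ s d} => dm s d m)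
      (fun m => φ (X m)) := lin_map _ _ _

theorem deh_eq {A : Type} [CommRing A] (φ : MvPolynomial {m : Mon n d // m ≠ m₀ s d} ℤ →+* A)
    (c : Mon n d → A) (hc : ∀ m : {m : Mon n d // m ≠ m₀ s d}, c m = φ (X m)) :
    deh s (form c) = map φ (gen s d) + C (c (m₀ s d)) := by
  rw [deh_form, lin_split (dm s d) (m₀ s d) (dm_m₀ s d), map_gen]
  congr 2
  funext m
  exact hc m

theorem bad_dvd (R : MvPolynomial {m : Mon n d // m ≠ m₀ s d} ℤ)
    (hR : C R ∈ Ideal.span ({(hess (gen s d)).det} ∪ Set.range fun j => pderiv j (gen s d)))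
    (p : ℕ) (x : Mon n d → ℤ) (h : BadS s p x) :
    (p : ℤ) ∣ eval (fun i : {m : Mon n d // m ≠ m₀ s d} => x i) R := by
  obtain ⟨Q, hQ, hC, hF, hj, hd⟩ := h
  let x' : {m : Mon n d // m ≠ m₀ s d} → ℤ := fun i => x i
  let φ : MvPolynomial {m : Mon n d // m ≠ m₀ s d} ℤ →+* ℤ := eval x'
  have hdeh : deh s (form x) = map φ (gen s d) + C (x (m₀ s d)) :=
    deh_eq s d φ x fun m => (eval_X (f := x') m).symm
  have hle : Ideal.span ({(hess (gen s d)).det} ∪ Set.range fun j => pderiv j (gen s d)) ≤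
      Q.comap (map φ) := by
    rw [Ideal.span_le]
    rintro _ (h | ⟨j, rfl⟩)
    · rw [Set.mem_singleton_iff] at h
      rw [h, SetLike.mem_coe, Ideal.mem_comap, ← hess_map]
      rw [hdeh, hess_add_C] at hd
      exact hd
    · rw [SetLike.mem_coe, Ideal.mem_comap, ← pderiv_map]
      have h1 := hj j
      rw [hdeh, map_add, pderiv_C, add_zero] at h1
      exact h1
  have h1 := hle hR
  rw [Ideal.mem_comap, map_C, hC] at h1
  exact Ideal.mem_span_singleton.1 h1

theorem bad_val (B M₀ : ℕ) (hM₀ : M₀ ≠ 0)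
    (hB : ∀ (k : Type) [Field k] (χ : MvPolynomial {m : Mon n d // m ≠ m₀ s d} ℤ →+* k),
      (M₀ : k) ≠ 0 → (∀ a ∈ (⊥ : Ideal (MvPolynomial {m : Mon n d // m ≠ m₀ s d} ℤ)), χ a = 0) →
      ∃ S : Finset k, S.card ≤ B ∧ ∀ v : k,
      Ideal.span ({map χ (gen s d) + C v} ∪ Set.range fun j => pderiv j (map χ (gen s d)) :
        Set (MvPolynomial {j : Fin (n + 2) // j ≠ s} k)) ≠ ⊤ → v ∈ S)
    (p : ℕ) (hp : p.Prime) (hpM : M₀ < p) (y : {m : Mon n d // m ≠ m₀ s d} → ℤ) :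
    ∃ T : Finset (ZMod p), T.card ≤ B ∧
      ∀ v, BadS s p (cmb (m₀ s d) y v) → ((v : ℤ) : ZMod p) ∈ T := by
  haveI : Fact p.Prime := ⟨hp⟩
  let ρ : ℤ →+* ZMod p := Int.castRingHom (ZMod p)
  have hρ : Function.Surjective ρ := ZMod.intCast_surjective
  let χ : MvPolynomial {m : Mon n d // m ≠ m₀ s d} ℤ →+* ZMod p := ρ.comp (eval y)
  have hM : (M₀ : ZMod p) ≠ 0 := by
    intro h
    rw [ZMod.natCast_eq_zero_iff] at h
    have := Nat.le_of_dvd (Nat.pos_of_ne_zero hM₀) h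
    omega
  obtain ⟨S, hS, hS'⟩ := hB (ZMod p) χ hM (fun a ha => by
    rw [Ideal.mem_bot] at ha
    rw [ha, map_zero])
  refine ⟨S, hS, fun v hv => hS' _ ?_⟩
  obtain ⟨Q, hQ, hC, hF, hj, hd⟩ := hv
  let Φ : MvPolynomial {j : Fin (n + 2) // j ≠ s} ℤ →+* MvPolynomial {j : Fin (n + 2) // j ≠ s}
    (ZMod p) := map ρ
  have hΦ : Function.Surjective Φ := map_surjective ρ hρ
  have hker : RingHom.ker Φ ≤ Q := by
    change RingHom.ker (map ρ) ≤ Q
    rw [ker_map, Ideal.map_le_iff_le_comap]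
    intro r hr
    rw [Ideal.mem_comap, hC, Ideal.mem_span_singleton]
    rw [RingHom.mem_ker] at hr
    exact (ZMod.intCast_zmod_eq_zero_iff_dvd r p).1 hr
  have hcomap : (Q.map Φ).comap Φ = Q := by
    rw [Ideal.comap_map_of_surjective Φ hΦ]
    exact sup_eq_left.2 hker
  have hne : Q.map Φ ≠ ⊤ := by
    intro h
    rw [h, Ideal.comap_top] at hcomap
    exact hQ.ne_top hcomap.symm
  refine fun h => hne (top_unique ?_)
  rw [← h, Ideal.span_le]
  have hdeh : deh s (form (cmb (m₀ s d) y v)) = map (eval y) (gen s d) + C v := by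
    have h1 := deh_eq s d (eval y) (cmb (m₀ s d) y v) fun m => by rw [cmb_ne, eval_X]
    rwa [cmb_self] at h1
  rw [hdeh] at hF hj
  rintro _ (h | ⟨j, rfl⟩)
  · rw [Set.mem_singleton_iff] at h
    rw [h, SetLike.mem_coe]
    have h1 := Ideal.mem_map_of_mem Φ hF
    have h2 : Φ (map (eval y) (gen s d) + C v) = map χ (gen s d) + C ((v : ℤ) : ZMod p) := by
      change map ρ (map (eval y) (gen s d) + C v) = _
      rw [map_add, map_C, map_map]
      rfl
    rwa [h2] at h1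
  · rw [SetLike.mem_coe]
    have h1 := Ideal.mem_map_of_mem Φ (hj j)
    have h2 : Φ (pderiv j (map (eval y) (gen s d) + C v)) = pderiv j (map χ (gen s d)) := by
      change map ρ (pderiv j (map (eval y) (gen s d) + C v)) = _
      rw [map_add, pderiv_C, add_zero, ← pderiv_map, map_map]
    rwa [h2] at h1

theorem bad_cond (hd : 1 ≤ d) : ∃ (R : MvPolynomial {m : Mon n d // m ≠ m₀ s d} ℤ) (B M₀ : ℕ),
    R ≠ 0 ∧ BadCond (m₀ s d) R B (BadS s) M₀ := by
  obtain ⟨R, hR0, hR⟩ := exists_hess_poly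
    (fun m : {m : Mon n d // m ≠ m₀ s d} => dm s d m)
    (fun k : {j : Fin (n + 2) // j ≠ s} => ⟨m₁ s d hd k, m₁_ne s d hd k⟩) (by
      intro k l h
      have h1 := congrArg Subtype.val h
      exact Subtype.ext (m₁_inj s d hd h1)) (fun k => dm_m₁ s d hd k)
  obtain ⟨B, M₀, hM₀, hB⟩ := crit_bound (gen s d) ⊥
  exact ⟨R, B, M₀, hR0, fun p _ x h => bad_dvd s d R hR p x h,
    fun p hp hpM y => bad_val s d B M₀ hM₀ hB p hp hpM y⟩

theorem smooth_cond (hd : 1 ≤ d) : ∃ R : MvPolynomial (Mon n d) ℤ, R ≠ 0 ∧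
    ∀ (c : Mon n d → ℤ), eval c R ≠ 0 → ∀ (K : Type) [Field K] [CharZero K],
      X s ∈ (Ideal.span (Set.range fun j => pderiv j (map (algebraMap ℤ K) (form c)))).radical := by
  obtain ⟨R, hR0, k, hR⟩ := exists_smooth_poly (fun m : Mon n d => monomial m.1 (1 : ℤ)) d hd
    (fun m => isHomogeneous_monomial _ (by
      rw [Finsupp.degree_eq_sum]
      exact degree_mon m)) s (m₀ s d) (X_pow_eq_monomial).symm
  refine ⟨R, hR0, fun c hc K _ _ => ⟨k, ?_⟩⟩
  rw [← form_lin] at hR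
  let φ : MvPolynomial (Mon n d) ℤ →+* K := (algebraMap ℤ K).comp (eval c)
  have h1 := Ideal.mem_map_of_mem (map φ) hR
  rw [Ideal.map_span, ← Set.range_comp, map_mul, map_C, map_pow, map_X] at h1
  have h2 : (⇑(map φ) ∘ fun j => pderiv j (form (X : Mon n d → MvPolynomial (Mon n d) ℤ))) =
      fun j => pderiv j (map (algebraMap ℤ K) (form c)) := by
    funext j
    simp only [Function.comp]
    rw [← pderiv_map, form_map, form_map]
    congr 2
    funext m
    change algebraMap ℤ K (eval c (X m)) = _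
    rw [eval_X]
  rw [h2] at h1
  have h3 : φ R ≠ 0 := by
    change algebraMap ℤ K (eval c R) ≠ 0
    rw [Ne, map_eq_zero_iff _ (algebraMap ℤ K).injective_int]
    exact hc
  have h4 : X s ^ k = C (φ R)⁻¹ * (C (φ R) * X s ^ k : MvPolynomial (Fin (n + 2)) K) := by
    rw [← mul_assoc, ← C_mul, inv_mul_cancel₀ h3, C_1, one_mul]
  rw [h4]
  exact Ideal.mul_mem_left _ _ h1

end

end Pool.Agent.Helper382_Nodal
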