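import Pool.Agent.Helper382_Nodal.Glob2
import Pool.Agent.TH214.RM.Fin

/-! Regular models of smooth hypersurfaces which are regular or have nondegenerate singularities
over each prime, in suitable local coordinates. -/

set_option autoImplicit false
set_option linter.unusedSectionVars false
set_option linter.unusedVariables false

open AlgebraicGeometry CategoryTheory CategoryTheory.Limits MvPolynomial NumberField
open scoped Pointwise

namespace Pool.Agent.Helper382_Nodal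

open Pool.Agent.H918R2.Quad Pool.Agent.W418 Pool.Agent.TH214.RM

theorem model_Z {K : Type} [Field K] [NumberField K] {n : ℕ} (hn : 1 ≤ n)
    (G : MvPolynomial (Fin (n + 2)) K) (d : ℕ) (hd : 2 ≤ d) (hGd : G.IsHomogeneous d)
    (hsm : Smooth G) (hloc : LocNod (𝓞 K) G) {A : Type} [CommRing A] [Algebra K A]
    (π : MvPolynomial (Fin (n + 2)) K →ₐ[K] A) (hπ : Function.Surjective π)
    (hker : RingHom.ker π = Ideal.span {G})
    (𝒜 : ℕ → Submodule K A) [GradedAlgebra 𝒜]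
    (h𝒜 : ∀ d, 𝒜 d = (homogeneousSubmodule (Fin (n + 2)) K d).map π.toLinearMap)
    (Y : Scheme.{0}) (hY : Nonempty (Y ≅ Proj 𝒜)) : HasRegularModel Y := by
  have hirr := irreducible_of_smooth hn G d (by omega) hGd hsm
  obtain ⟨F, _, _, x, b, hx0, hrel, hgen, htb⟩ := exists_ff G hirr d hGd
    (not_dvd_X G hirr.ne_zero d hd hGd)
  let _ : Algebra (𝓞 K) F := ((algebraMap K F).comp (algebraMap (𝓞 K) K)).toAlgebra
  have hst : IsScalarTower (𝓞 K) K F := IsScalarTower.of_algebraMap_eq fun _ => rfl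
  have hM : GoodModule (𝓞 K) x :=
    goodModule_of_locNod (K := K) G hirr.ne_zero d hGd hsm hloc x hx0 hrel hgen b htb
  obtain ⟨ε, hε, hεgen, hε1⟩ := exists_eps x hx0 hgen _ htb G hirr.prime d hGd hrel π hπ hker 𝒜 h𝒜
  exact hasRegularModel_of_goodModule (O := 𝓞 K) 𝒜 ε hε hεgen x hε1 hM Y hY

theorem model_O {K : Type} [Field K] [NumberField K] {n : ℕ} (hn : 1 ≤ n)
    (G : MvPolynomial (Fin (n + 2)) K) (d : ℕ) (hd : 2 ≤ d) (hGd : G.IsHomogeneous d)
    (hsm : Smooth G) (hloc : LocNod (𝓞 K) G) {A : Type} [CommRing A] [Algebra K A]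
    (π : MvPolynomial (Fin (n + 2)) K →ₐ[K] A) (hπ : Function.Surjective π)
    (hker : RingHom.ker π = Ideal.span {G})
    (𝒜 : ℕ → Submodule K A) [GradedAlgebra 𝒜]
    (h𝒜 : ∀ d, 𝒜 d = (homogeneousSubmodule (Fin (n + 2)) K d).map π.toLinearMap)
    {Y : Scheme.{0}} (f : Y ⟶ Spec (CommRingCat.of K)) (i : Y ≅ Proj 𝒜)
    (hi : i.hom ≫ GO.projStr 𝒜 = f) : GO.HasModel (𝓞 K) K f := by
  have hirr := irreducible_of_smooth hn G d (by omega) hGd hsm
  obtain ⟨F, _, _, x, b, hx0, hrel, hgen, htb⟩ := exists_ff G hirr d hGd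
    (not_dvd_X G hirr.ne_zero d hd hGd)
  let _ : Algebra (𝓞 K) F := ((algebraMap K F).comp (algebraMap (𝓞 K) K)).toAlgebra
  have hst : IsScalarTower (𝓞 K) K F := IsScalarTower.of_algebraMap_eq fun _ => rfl
  have hM : GoodModule (𝓞 K) x :=
    goodModule_of_locNod (K := K) G hirr.ne_zero d hGd hsm hloc x hx0 hrel hgen b htb
  obtain ⟨ε, hε, hεgen, hε1⟩ := exists_eps x hx0 hgen _ htb G hirr.prime d hGd hrel π hπ hker 𝒜 h𝒜
  exact hasModel_of_goodModule (O := 𝓞 K) 𝒜 ε hε hεgen x hε1 hM f i hi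

/-- The nondegeneracy of the singular points is preserved by extension of the ring. -/
theorem nod_map {O O' ι : Type} [CommRing O] [CommRing O'] [Fintype ι] [DecidableEq ι]
    (φ : O →+* O') (𝔭 : Ideal O) (𝔮 : Ideal O') (h𝔮 : 𝔮.comap φ = 𝔭) (G : MvPolynomial ι O)
    (h : Nod 𝔭 G) : Nod 𝔮 (map φ G) := by
  intro s Q hQ hC hG
  have hC' : ∀ r : O, C r ∈ Q.comap (map φ) ↔ r ∈ 𝔭 := by
    intro r
    rw [Ideal.mem_comap, map_C, hC, ← h𝔮, Ideal.mem_comap]
  rw [← map_deh] at hG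
  rcases h s (Q.comap (map φ)) (Ideal.comap_isPrime _ _) hC' hG with ⟨j, hj⟩ | h1
  · left
    refine ⟨j, fun h2 => hj ?_⟩
    rw [Ideal.mem_comap, ← pderiv_map, map_deh]
    exact h2
  · right
    rw [← map_deh, hess_map]
    exact h1

/-- Integral forms with nondegenerate singular points modulo all primes. -/
theorem locNod_of_nod {K : Type} [Field K] [NumberField K] {n : ℕ}
    (F : MvPolynomial (Fin (n + 2)) ℤ) (h : ∀ p : ℕ, p.Prime → Nod (Ideal.span {(p : ℤ)}) F) :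
    LocNod (𝓞 K) (map (algebraMap ℤ K) F) := by
  intro 𝔭 hp h0
  classical
  have hpc : (𝔭.comap (algebraMap ℤ (𝓞 K))).IsPrime := Ideal.comap_isPrime _ _
  have hne : 𝔭.comap (algebraMap ℤ (𝓞 K)) ≠ ⊥ := by
    obtain ⟨x, hx, hx0⟩ := Submodule.exists_mem_ne_zero_of_ne_bot h0
    exact Ideal.comap_ne_bot_of_integral_mem hx0 hx (Algebra.IsIntegral.isIntegral x)
  obtain ⟨p, hpp, hp𝔭⟩ : ∃ p : ℕ, p.Prime ∧ 𝔭.comap (algebraMap ℤ (𝓞 K)) =
      Ideal.span {(p : ℤ)} := by
    obtain ⟨a, ha⟩ := (IsPrincipalIdealRing.principal (𝔭.comap (algebraMap ℤ (𝓞 K)))).principal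
    have ha' : 𝔭.comap (algebraMap ℤ (𝓞 K)) = Ideal.span {a} := ha
    have ha0 : a ≠ 0 := by
      rintro rfl
      rw [Ideal.span_singleton_zero] at ha'
      exact hne ha'
    have hprime : Prime a := by
      rw [ha'] at hpc
      exact (Ideal.span_singleton_prime ha0).1 hpc
    refine ⟨a.natAbs, Int.prime_iff_natAbs_prime.1 hprime, ?_⟩
    rw [ha', Int.span_natAbs]
  refine ⟨map (algebraMap ℤ (𝓞 K)) F, 1, 1, 1, one_ne_zero, one_mul _, ?_, Or.inr ?_⟩
  · rw [C_1, one_mul, map_map, ← IsScalarTower.algebraMap_eq]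
    have h1 : (fun i => ∑ j, C ((1 : Matrix (Fin (n + 2)) (Fin (n + 2)) K) i j) * X j) =
        (X : Fin (n + 2) → MvPolynomial (Fin (n + 2)) K) := by
      funext i
      rw [Finset.sum_eq_single i]
      · rw [Matrix.one_apply_eq, C_1, one_mul]
      · intro j _ hj
        rw [Matrix.one_apply_ne (fun h => hj h.symm), C_0, zero_mul]
      · intro h
        exact absurd (Finset.mem_univ i) h
    rw [h1, aeval_X_left_apply]
  · exact nod_map (algebraMap ℤ (𝓞 K)) _ 𝔭 rfl F (by rw [hp𝔭]; exact h p hpp)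

end Pool.Agent.Helper382_Nodal
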