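import Pool.Agent.Helper382_Nodal.Loc2
import Pool.Agent.TH214.RM.Smooth

/-! The local module at a prime where all the singular points are nondegenerate. -/

set_option autoImplicit false
set_option linter.unusedSectionVars false
set_option linter.unusedVariables false

open scoped Pointwise

namespace Pool.Agent.Helper382_Nodal

open MvPolynomial Pool.Agent.H918R2.Quad Pool.Agent.H945R2.D Pool.Agent.H945R2.E
  Pool.Agent.TH214.RM Pool.Agent.W418

/-- The singular points of `G = 0` in the fibre at `𝔭` have invertible Hessian. -/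
def Nod {O ι : Type} [CommRing O] [Fintype ι] [DecidableEq ι] (𝔭 : Ideal O)
    (G : MvPolynomial ι O) : Prop :=
  ∀ (s : ι) (Q : Ideal (MvPolynomial {j : ι // j ≠ s} O)), Q.IsPrime →
    (∀ r : O, C r ∈ Q ↔ r ∈ 𝔭) → deh s G ∈ Q → (∃ j, pderiv j (deh s G) ∉ Q) ∨
      (hess (deh s G)).det ∉ Q

theorem hess_map {O R σ : Type} [CommRing O] [CommRing R] (φ : O →+* R) [Fintype σ]
    [DecidableEq σ] (G : MvPolynomial σ O) :
    (hess (map φ G)).det = map φ (hess G).det := by
  rw [RingHom.map_det]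
  congr 1
  ext l m
  rw [RingHom.mapMatrix_apply, Matrix.map_apply, hess_apply, hess_apply, pderiv_map, pderiv_map]

theorem nod_loc {O R ι : Type} [CommRing O] [CommRing R] [Algebra O R] [Fintype ι] [DecidableEq ι]
    (𝔭 : Ideal O) [𝔭.IsPrime] [IsLocalization.AtPrime R 𝔭]
    (G : MvPolynomial ι O) (h : Nod 𝔭 G)
    (s : ι) (Q : Ideal (MvPolynomial {j : ι // j ≠ s} R)) (hQ : Q.IsPrime)
    (hG : deh s (map (algebraMap O R) G) ∈ Q) (hCQ : ∀ r : R, C r ∈ Q ↔ ¬ IsUnit r) :
    (∃ j, pderiv j (deh s (map (algebraMap O R) G)) ∉ Q) ∨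
      (hess (deh s (map (algebraMap O R) G))).det ∉ Q := by
  set φ : MvPolynomial {j : ι // j ≠ s} O →+* MvPolynomial {j : ι // j ≠ s} R :=
    map (algebraMap O R) with hφ
  have hp : (Q.comap φ).IsPrime := Ideal.comap_isPrime _ _
  have hC : ∀ r : O, C r ∈ Q.comap φ ↔ r ∈ 𝔭 := by
    intro r
    rw [Ideal.mem_comap, hφ, map_C, hCQ, IsLocalization.AtPrime.isUnit_to_map_iff R 𝔭 r]
    simp
  have hdeh : φ (deh s G) = deh s (map (algebraMap O R) G) := map_deh _ _ _
  have hE : deh s G ∈ Q.comap φ := by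
    rw [Ideal.mem_comap, hdeh]
    exact hG
  rcases h s (Q.comap φ) hp hC hE with ⟨j, hj⟩ | h1
  · left
    refine ⟨j, fun h2 => hj ?_⟩
    rw [Ideal.mem_comap, hφ, ← pderiv_map, ← hφ, hdeh]
    exact h2
  · right
    rw [← hdeh, hφ, hess_map]
    exact h1

section

variable {O F ι : Type} [CommRing O] [Field F] [Algebra O F]

theorem aeval_mem_span_pow (x : ι → F) (k : ℕ) (P : MvPolynomial ι O) (hP : P.IsHomogeneous k) :
    aeval x P ∈ Submodule.span O (Set.range x) ^ k := by
  classical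
  rw [aeval_def, eval₂_eq]
  refine Submodule.sum_mem _ fun s hs => ?_
  have h1 : s.degree = k := by
    by_contra hne
    exact (mem_support_iff.1 hs) (hP.coeff_eq_zero hne)
  rw [← Algebra.smul_def]
  refine Submodule.smul_mem _ _ ?_
  rw [← h1]
  change ∏ i ∈ s.support, x i ^ s i ∈ Submodule.span O (Set.range x) ^ (∑ i ∈ s.support, s i)
  have key : ∀ S : Finset ι, ∏ i ∈ S, x i ^ s i ∈
      Submodule.span O (Set.range x) ^ (∑ i ∈ S, s i) := by
    intro S
    induction S using Finset.induction_on with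
    | empty =>
      rw [Finset.prod_empty, Finset.sum_empty, pow_zero]
      exact Submodule.one_le.1 le_rfl
    | insert a S ha ih =>
      rw [Finset.prod_insert ha, Finset.sum_insert ha, pow_add]
      have h2 : x a ∈ Submodule.span O (Set.range x) := Submodule.subset_span ⟨a, rfl⟩
      exact Submodule.mul_mem_mul (Submodule.pow_mem_pow _ h2 _) ih
  exact key _

theorem prod_mem_pow {m : ℕ} (N : Submodule O F) (k : ℕ) (t : Fin m → F)
    (ht : ∀ i, t i ∈ N ^ k) (S : Finset (Fin m)) : ∏ i ∈ S, t i ∈ N ^ (S.card * k) := by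
  classical
  induction S using Finset.induction_on with
  | empty =>
    rw [Finset.prod_empty, Finset.card_empty, zero_mul, pow_zero]
    exact Submodule.one_le.1 le_rfl
  | insert a S ha ih =>
    rw [Finset.prod_insert ha, Finset.card_insert_of_notMem ha, add_mul, one_mul, add_comm, pow_add]
    exact Submodule.mul_mem_mul (ht a) ih

theorem gset_sub (π : O) (x : ι → F) (G : MvPolynomial ι O) (d e m : ℕ)
    (hGd : G.IsHomogeneous d) :
    gset (algebraMap O F π) x G d e m ⊆ Submodule.span O (Set.range x ^ (e + m * (d - 1))) := by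
  rintro y ⟨z, hz, t, ht, rfl⟩
  rw [SetLike.mem_coe, ← Submodule.span_pow, pow_add]
  refine Submodule.mul_mem_mul ?_ ?_
  · rw [Submodule.span_pow]
    exact Submodule.subset_span hz
  · have h1 := prod_mem_pow (Submodule.span O (Set.range x)) (d - 1) t (by
      intro i
      rcases ht i with ⟨z', hz', h⟩ | ⟨j, h⟩
      · rw [h, ← map_pow, ← Algebra.smul_def, Submodule.span_pow]
        exact Submodule.smul_mem _ _ (Submodule.subset_span hz')
      · rw [h]
        exact aeval_mem_span_pow x _ _ hGd.pderiv) Finset.univ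
    rwa [Finset.card_univ, Fintype.card_fin] at h1

theorem pow_mul_mem_gset (π : O) (x : ι → F) (G : MvPolynomial ι O) (d e m : ℕ)
    (g : F) (hg : g ∈ Set.range x ^ (e + m * (d - 1))) :
    algebraMap O F π ^ (∑ i : Fin m, ((i : ℕ) + 1)) * g ∈ gset (algebraMap O F π) x G d e m := by
  rw [pow_add, mul_comm m, pow_mul] at hg
  obtain ⟨z, hz, w, hw, rfl⟩ := Set.mem_mul.1 hg
  rw [Set.mem_pow] at hw
  obtain ⟨t, rfl⟩ := hw
  refine ⟨z, hz, fun i => algebraMap O F π ^ ((i : ℕ) + 1) * (t i : F), fun i =>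
    Or.inl ⟨_, (t i).2, rfl⟩, ?_⟩
  rw [Finset.prod_mul_distrib, Finset.prod_pow_eq_pow_sum, List.prod_ofFn]
  ring

end

section

variable {O K F : Type} [CommRing O] [IsDedekindDomain O] [Field K] [Algebra O K]
  [IsFractionRing O K] [Field F] [Algebra K F] [Algebra O F] [IsScalarTower O K F]

include K in
theorem locMod_of_nod (𝔭 : Ideal O) [𝔭.IsPrime] (h0 : 𝔭 ≠ ⊥) {n : ℕ}
    (G : MvPolynomial (Fin (n + 2)) O) (hG0 : G ≠ 0) (d : ℕ) (hGd : G.IsHomogeneous d)
    (hnod : Nod 𝔭 G) (c₀ : O) (hc₀ : c₀ ≠ 0)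
    (hsm : ∀ s, C c₀ ∈ Ideal.span ({deh s G} ∪ Set.range fun l => pderiv l (deh s G)))
    (x : Fin (n + 2) → F) (hx0 : x 0 = 1)
    (hgen : IntermediateField.adjoin K (Set.range x) = ⊤)
    (b : Fin n → F) (htb : IsTranscendenceBasis K b)
    (x' : Fin (n + 2) → F) (u : Fin (n + 2) → Fin (n + 2) → K)
    (hu : ∀ i, x i = ∑ j, algebraMap K F (u i j) * x' j) (hrel : aeval x' G = 0) :
    LocMod 𝔭 x' := by
  classical
  let R := Localization.subalgebra.ofField K 𝔭.primeCompl 𝔭.primeCompl_le_nonZeroDivisors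
  have : IsLocalization.AtPrime R 𝔭 := Localization.subalgebra.isLocalization_ofField K _ _
  have : IsFractionRing R K := Localization.subalgebra.isFractionRing_ofField K _ _
  have : IsScalarTower O R F := IsScalarTower.of_algebraMap_eq fun r => by
    rw [IsScalarTower.algebraMap_apply O K F]; rfl
  have : IsScalarTower R K F := IsScalarTower.of_algebraMap_eq fun r => rfl
  have hdvr : IsDiscreteValuationRing R :=
    IsLocalization.AtPrime.isDiscreteValuationRing_of_dedekind_domain O h0 R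
  have hinjOR : Function.Injective (algebraMap O R) :=
    IsLocalization.injective R 𝔭.primeCompl_le_nonZeroDivisors
  have hinj : Function.Injective (algebraMap R K) := IsFractionRing.injective R K
  have hinjRF : Function.Injective (algebraMap R F) := by
    rw [IsScalarTower.algebraMap_eq R K F]
    exact (algebraMap K F).injective.comp hinj
  have h1𝔭 : (1 : O) ∉ 𝔭 := (Ideal.ne_top_iff_one 𝔭).1 Ideal.IsPrime.ne_top'
  -- the uniformizer
  obtain ⟨ϖ, hϖ⟩ := IsDiscreteValuationRing.exists_irreducible R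
  obtain ⟨π, t₀, ht₀⟩ := IsLocalization.exists_mk'_eq 𝔭.primeCompl ϖ
  have hπ : Irreducible (algebraMap O R π) := by
    have h1 : Associated ϖ (algebraMap O R π) := by
      refine ⟨(IsLocalization.map_units R t₀).unit, ?_⟩
      rw [← ht₀, IsUnit.unit_spec, IsLocalization.mk'_spec]
    exact h1.irreducible hϖ
  have hπ0 : π ≠ 0 := by
    rintro rfl
    rw [map_zero] at hπ
    exact hπ.ne_zero rfl
  -- the exponent
  have hc₀R : algebraMap O R c₀ ≠ 0 := fun h => hc₀ (hinjOR (by rw [h, map_zero]))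
  obtain ⟨N, hN⟩ : ∃ N : ℕ, ¬ algebraMap O R π ^ (N + 1) ∣ algebraMap O R c₀ := by
    obtain ⟨N, v, hv⟩ := IsDiscreteValuationRing.eq_unit_mul_pow_irreducible hc₀R hπ
    refine ⟨N, fun h => ?_⟩
    rw [hv, (Units.isUnit v).dvd_mul_left, pow_dvd_pow_iff hπ.ne_zero hπ.not_isUnit] at h
    omega
  set m := N + 1 with hm
  have hmN : N < 2 * m := by omega
  refine ⟨1 + m * (d - 1), fun D hD => ?_⟩
  obtain ⟨e, he, rfl⟩ : ∃ e, 1 ≤ e ∧ D = e + m * (d - 1) := ⟨D - m * (d - 1), by omega, by omega⟩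
  set S : Set F := gset (algebraMap O F π) x' G d e m with hS
  set Nm := Submodule.span O (Set.range x' ^ (e + m * (d - 1))) with hNm
  have hSN : Submodule.span O S ≤ Nm := Submodule.span_le.2 (gset_sub π x' G d e m hGd)
  have hSR : gset (algebraMap R F (algebraMap O R π)) x' (map (algebraMap O R) G) d e m = S := by
    have h1 : ∀ i, Yset (algebraMap R F (algebraMap O R π)) x' (map (algebraMap O R) G) d i =
        Yset (algebraMap O F π) x' G d i := by
      intro i
      unfold Yset
      simp only [pderiv_map, aeval_map_algebraMap, ← IsScalarTower.algebraMap_apply O R F]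
    unfold gset at hS ⊢
    simp only [h1]
    exact hS.symm
  let P : Submodule O F :=
    { carrier := {y | y ∈ Nm ∧ ∃ s : O, s ∉ 𝔭 ∧ s • y ∈ Submodule.span O S}
      zero_mem' := ⟨Nm.zero_mem, 1, h1𝔭, by rw [smul_zero]; exact Submodule.zero_mem _⟩
      add_mem' := by
        rintro y z ⟨hy, s, hs, hsy⟩ ⟨hz, t, ht, htz⟩
        refine ⟨Nm.add_mem hy hz, s * t, fun h => (Ideal.IsPrime.mem_or_mem ‹_› h).elim hs ht, ?_⟩
        rw [smul_add]
        refine Submodule.add_mem _ ?_ ?_
        · rw [mul_comm, mul_smul]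
          exact Submodule.smul_mem _ _ hsy
        · rw [mul_smul]
          exact Submodule.smul_mem _ _ htz
      smul_mem' := by
        rintro r y ⟨hy, s, hs, hsy⟩
        refine ⟨Nm.smul_mem r hy, s, hs, ?_⟩
        rw [smul_comm]
        exact Submodule.smul_mem _ _ hsy }
  have hPmem : ∀ y, y ∈ P ↔ y ∈ Nm ∧ ∃ s : O, s ∉ 𝔭 ∧ s • y ∈ Submodule.span O S :=
    fun y => Iff.rfl
  refine ⟨P, ?_, ?_, ?_⟩
  · intro y hy
    exact ⟨1, h1𝔭, by rw [one_smul]; exact hy.1⟩
  · obtain ⟨k, hk⟩ := exists_pow_dvd 𝔭 h0 (π ^ (∑ i : Fin m, ((i : ℕ) + 1)))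
      (pow_ne_zero _ hπ0) 0
    refine ⟨k, fun c hc y hy => ?_⟩
    obtain ⟨s, hs, δ, _, hscd⟩ := hk c hc
    refine ⟨Nm.smul_mem _ hy, s, hs, ?_⟩
    rw [smul_smul, hscd, mul_comm, mul_smul]
    refine Submodule.smul_mem _ _ ?_
    rw [hNm] at hy
    induction hy using Submodule.span_induction with
    | mem g hg =>
      refine Submodule.subset_span ?_
      rw [Algebra.smul_def, map_pow]
      exact pow_mul_mem_gset π x' G d e m g hg
    | zero => rw [smul_zero]; exact Submodule.zero_mem _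
    | add y z _ _ hy hz => rw [smul_add]; exact Submodule.add_mem _ hy hz
    | smul r y _ hy => rw [smul_comm]; exact Submodule.smul_mem _ _ hy
  · intro M hMP hPM f hfM hf q hqp hq
    have hMG : ∀ y ∈ M, y ∈ Submodule.span R S := by
      intro y hy
      obtain ⟨_, s, hs, hsy⟩ := (hPmem y).1 (hMP hy)
      have h3 : (s • y : F) ∈ Submodule.span R S := Submodule.span_subset_span O R _ hsy
      have hsu : IsUnit (algebraMap O R s) :=
        IsLocalization.map_units R (⟨s, hs⟩ : 𝔭.primeCompl)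
      have h4 : y = (hsu.unit⁻¹ : Rˣ) • (s • y) := by
        rw [← algebraMap_smul R s y]
        change y = ((hsu.unit⁻¹ : Rˣ) : R) • (algebraMap O R s • y)
        rw [smul_smul, IsUnit.val_inv_mul, one_smul]
      rw [h4]
      exact Submodule.smul_mem _ _ h3
    have hGM : ∀ y ∈ Submodule.span R S, ∃ s, s ∉ 𝔭 ∧ s • y ∈ M := by
      intro y hy
      obtain ⟨s, hs, hsy⟩ := clear_denom 𝔭 S y hy
      have h3 : s • y ∈ P := ⟨hSN hsy, 1, h1𝔭, by rw [one_smul]; exact hsy⟩
      obtain ⟨t, ht, hty⟩ := hPM _ h3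
      refine ⟨t * s, fun h => (Ideal.IsPrime.mem_or_mem ‹𝔭.IsPrime› h).elim ht hs, ?_⟩
      rw [mul_smul]
      exact hty
    obtain ⟨𝒪, hloc, hR, hRU, hloc2, hG, hreg⟩ := transfer (R := R) 𝔭 M S hMG hGM f q hq
    apply hreg
    have hrel' : aeval x' (map (algebraMap O R) G) = 0 := by
      rw [aeval_map_algebraMap, hrel]
    have hind : ∀ s, x' s ≠ 0 → ∃ j₀ : {i : Fin (n + 2) // i ≠ s},
        AlgebraicIndependent R
          (fun i : {i : {i : Fin (n + 2) // i ≠ s} // i ≠ j₀} => x' i / x' s) := by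
      intro s hs
      obtain ⟨j₀, hj₀⟩ := hind_of (K := K) (ι := Fin (n + 2)) (by simp) x hx0 hgen b htb x' u hu s hs
      exact ⟨j₀, hj₀.restrictScalars hinj⟩
    have hG0' : map (algebraMap O R) G ≠ 0 := fun h =>
      hG0 (map_injective _ hinjOR (by rw [h, map_zero]))
    have hsm' : ∀ s, C (algebraMap O R c₀) ∈ Ideal.span ({deh s (map (algebraMap O R) G)} ∪
        Set.range fun l => pderiv l (deh s (map (algebraMap O R) G))) := by
      intro s
      have h1 := Ideal.mem_map_of_mem (map (algebraMap O R)) (hsm s)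
      rw [map_C, Ideal.map_span, Set.image_union, Set.image_singleton, ← Set.range_comp] at h1
      have h2 : (⇑(map (algebraMap O R)) ∘ fun l => pderiv l (deh s G)) =
          fun l => pderiv l (deh s (map (algebraMap O R) G)) := by
        funext l
        simp only [Function.comp]
        rw [← pderiv_map, map_deh]
      rw [h2, map_deh] at h1
      exact h1
    rw [← hSR] at hG hloc2
    refine ndl 𝒪 hloc hR hRU (fun r hr h => hr (hinjRF (by rw [h, map_zero])))
      (algebraMap O R π) hπ (map (algebraMap O R) G) hG0' d (hGd.map _)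
      (fun s Q hQ hGQ hC => nod_loc 𝔭 G hnod s Q hQ hGQ hC) (algebraMap O R c₀) N hN hsm' x' hrel'
      hind e m he hmN f hf ?_ hG hloc2
    rw [hSR]
    exact hMG f hfM

end

end Pool.Agent.Helper382_Nodal
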