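import Pool.Agent.Helper382_Nodal.Glob
import Pool.Agent.TH214.RM.Smooth

/-! The global module of a smooth hypersurface which is regular or has nondegenerate singularities
over each prime, in suitable local coordinates. -/

set_option autoImplicit false
set_option linter.unusedSectionVars false
set_option linter.unusedVariables false

open scoped Pointwise

namespace Pool.Agent.Helper382_Nodal

open MvPolynomial Pool.Agent.H918R2.Quad Pool.Agent.H945R2.E Pool.Agent.TH214.RM
  Pool.Agent.W418

/-- The chain rule. -/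
theorem chain_rule {R A ι : Type*} [CommRing R] [CommRing A] [Algebra R A] [Fintype ι]
    (D : Derivation R A A) (y : ι → A) (P : MvPolynomial ι R) :
    D (aeval y P) = ∑ i, aeval y (pderiv i P) * D (y i) := by
  classical
  induction P using MvPolynomial.induction_on with
  | C a => simp
  | add p q hp hq =>
    simp only [map_add, hp, hq, add_mul, Finset.sum_add_distrib]
  | mul_X p i hp =>
    rw [map_mul, aeval_X, D.leibniz, hp, smul_eq_mul, smul_eq_mul]
    have h1 : ∀ k, aeval y (pderiv k (p * X i)) * D (y k) =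
        (if k = i then aeval y p * D (y i) else 0) + y i * (aeval y (pderiv k p) * D (y k)) := by
      intro k
      rw [Derivation.leibniz, smul_eq_mul, smul_eq_mul, map_add, map_mul, map_mul, aeval_X]
      by_cases hk : k = i
      · subst hk
        rw [if_pos rfl, pderiv_X_self, map_one]
        ring
      · rw [if_neg hk, pderiv_X_of_ne (fun h => hk h.symm), map_zero]
        ring
    simp only [h1, Finset.sum_add_distrib, Finset.sum_ite_eq', Finset.mem_univ, if_true,
      ← Finset.mul_sum]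

section

variable {K : Type} [Field K] {n : ℕ}

theorem smooth_C_mul (l : K) (hl : l ≠ 0) (G : MvPolynomial (Fin (n + 2)) K) (h : Smooth G) :
    Smooth (C l * G) := by
  intro i
  have h1 : Ideal.span (Set.range fun j => pderiv j G) ≤
      Ideal.span (Set.range fun j => pderiv j (C l * G)) := by
    rw [Ideal.span_le]
    rintro _ ⟨j, rfl⟩
    rw [SetLike.mem_coe]
    change pderiv j G ∈ _
    have h2 : pderiv j G = C l⁻¹ * pderiv j (C l * G) := by
      rw [pderiv_C_mul, ← mul_assoc, ← C_mul, inv_mul_cancel₀ hl, C_1, one_mul]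
    rw [h2]
    exact Ideal.mul_mem_left _ _ (Ideal.subset_span ⟨j, rfl⟩)
  exact Ideal.radical_mono h1 (h i)

theorem smooth_lin (G : MvPolynomial (Fin (n + 2)) K) (h : Smooth G)
    (T T' : Matrix (Fin (n + 2)) (Fin (n + 2)) K) (hTT : T * T' = 1) :
    Smooth (aeval (fun i => ∑ j, C (T i j) * X j : Fin (n + 2) → MvPolynomial (Fin (n + 2)) K) G) := by
  classical
  set ℓ : Fin (n + 2) → MvPolynomial (Fin (n + 2)) K := fun i => ∑ j, C (T i j) * X j with hℓ
  have hTT' : T' * T = 1 := mul_eq_one_comm.1 hTT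
  have hd : ∀ i j, pderiv j (ℓ i) = C (T i j) := by
    intro i j
    simp only [hℓ, map_sum, pderiv_C_mul]
    rw [Finset.sum_eq_single j]
    · rw [pderiv_X_self, mul_one]
    · intro k _ hk
      rw [pderiv_X_of_ne hk, mul_zero]
    · intro h
      exact absurd (Finset.mem_univ j) h
  have hchain : ∀ j, pderiv j (aeval ℓ G) = ∑ i, aeval ℓ (pderiv i G) * C (T i j) := by
    intro j
    rw [chain_rule]
    exact Finset.sum_congr rfl fun i _ => by rw [hd]
  set J := Ideal.span (Set.range fun j => pderiv j (aeval ℓ G)) with hJ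
  have hmem : ∀ i, aeval ℓ (pderiv i G) ∈ J := by
    intro i
    have h1 : aeval ℓ (pderiv i G) = ∑ j, pderiv j (aeval ℓ G) * C (T' j i) := by
      simp only [hchain, Finset.sum_mul]
      rw [Finset.sum_comm]
      have h2 : ∀ k, ∑ j, aeval ℓ (pderiv k G) * C (T k j) * C (T' j i) =
          aeval ℓ (pderiv k G) * C (if k = i then 1 else 0) := by
        intro k
        rw [← Matrix.one_apply, ← hTT, Matrix.mul_apply, map_sum, Finset.mul_sum]
        exact Finset.sum_congr rfl fun j _ => by rw [C_mul]; ring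
      simp only [h2]
      rw [Finset.sum_eq_single i]
      · rw [if_pos rfl, C_1, mul_one]
      · intro k _ hk
        rw [if_neg hk, C_0, mul_zero]
      · intro h
        exact absurd (Finset.mem_univ i) h
    rw [h1]
    exact J.sum_mem fun j _ => J.mul_mem_right _ (Ideal.subset_span ⟨j, rfl⟩)
  have hle : Ideal.span (Set.range fun j => pderiv j G) ≤ J.comap
      ((aeval ℓ : MvPolynomial (Fin (n + 2)) K →ₐ[K] MvPolynomial (Fin (n + 2)) K) :
        MvPolynomial (Fin (n + 2)) K →+* MvPolynomial (Fin (n + 2)) K) := by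
    rw [Ideal.span_le]
    rintro _ ⟨j, rfl⟩
    exact hmem j
  have hrad : ∀ i, ℓ i ∈ J.radical := by
    intro i
    obtain ⟨k, hk⟩ := h i
    refine ⟨k, ?_⟩
    have h1 := hle hk
    rw [Ideal.mem_comap] at h1
    change aeval ℓ (X i ^ k) ∈ J at h1
    rwa [map_pow, aeval_X] at h1
  intro i
  have h1 : X i = ∑ k, C (T' i k) * ℓ k := by
    simp only [hℓ, Finset.mul_sum]
    rw [Finset.sum_comm]
    have h2 : ∀ j, ∑ k, C (T' i k) * (C (T k j) * X j) =
        C (if i = j then 1 else 0) * (X j : MvPolynomial (Fin (n + 2)) K) := by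
      intro j
      rw [← Matrix.one_apply, ← hTT', Matrix.mul_apply, map_sum, Finset.sum_mul]
      exact Finset.sum_congr rfl fun k _ => by rw [C_mul]; ring
    simp only [h2]
    rw [Finset.sum_eq_single i]
    · rw [if_pos rfl, C_1, one_mul]
    · intro k _ hk
      rw [if_neg (fun h => hk h.symm), C_0, zero_mul]
    · intro h
      exact absurd (Finset.mem_univ i) h
  rw [h1]
  exact Ideal.sum_mem _ fun k _ => Ideal.mul_mem_left _ _ (hrad k)

end

section

variable {O K F : Type} [CommRing O] [IsDedekindDomain O] [Field K] [Algebra O K]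
  [IsFractionRing O K] [Field F] [Algebra K F] [Algebra O F] [IsScalarTower O K F]

theorem exists_clear {n : ℕ} (H : MvPolynomial (Fin (n + 2)) O)
    (hsm : Smooth (map (algebraMap O K) H)) (i : Fin (n + 2)) :
    ∃ c : O, c ≠ 0 ∧ ∃ k : ℕ, C c * X i ^ k ∈ Ideal.span (Set.range fun j => pderiv j H) := by
  have hOK : Function.Injective (algebraMap O K) := IsFractionRing.injective O K
  obtain ⟨k, hk⟩ := hsm i
  have hspan : (Set.range fun j => pderiv j (map (algebraMap O K) H)) =
      map (algebraMap O K) '' (Set.range fun j => pderiv j H) := by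
    rw [← Set.range_comp]
    congr 1
    funext j
    exact pderiv_map
  rw [hspan] at hk
  obtain ⟨c, hc, y, hy, hyc⟩ := clear_span (R := K) (nonZeroDivisors O) _ _ hk
  refine ⟨c, nonZeroDivisors.ne_zero hc, k, ?_⟩
  have h1 : y = C c * X i ^ k := by
    apply map_injective _ hOK
    rw [hyc, map_mul, map_C, map_pow, map_X]
  rwa [← h1]

include K in
theorem exists_c0 {n : ℕ} (H : MvPolynomial (Fin (n + 2)) O) (d : ℕ) (hHd : H.IsHomogeneous d)
    (hsm : Smooth (map (algebraMap O K) H)) : ∃ c₀ : O, c₀ ≠ 0 ∧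
      ∀ s, C c₀ ∈ Ideal.span ({deh s H} ∪ Set.range fun l => pderiv l (deh s H)) := by
  classical
  choose c hc k hk using exists_clear (K := K) H hsm
  refine ⟨∏ i, c i, Finset.prod_ne_zero_iff.2 fun i _ => hc i, fun s => ?_⟩
  set J := Ideal.span ({deh s H} ∪ Set.range fun l => pderiv l (deh s H)) with hJ
  have hall := all_pderiv_mem H d hHd s J (Ideal.subset_span (Or.inl rfl))
    (fun j => Ideal.subset_span (Or.inr ⟨j, rfl⟩))
  have h1 : Ideal.span (Set.range fun j => pderiv j H) ≤ J.comap
      ((aeval (tau s) : MvPolynomial (Fin (n + 2)) O →ₐ[O]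
        MvPolynomial {j : Fin (n + 2) // j ≠ s} O) : _ →+* _) := by
    rw [Ideal.span_le]
    rintro _ ⟨j, rfl⟩
    exact hall j
  have h2 : (aeval (tau s) : MvPolynomial (Fin (n + 2)) O →ₐ[O]
      MvPolynomial {j : Fin (n + 2) // j ≠ s} O) (C (c s) * X s ^ (k s)) ∈ J := h1 (hk s)
  have h3 : (tau s s : MvPolynomial {i : Fin (n + 2) // i ≠ s} O) = 1 := by
    unfold tau
    rw [dif_pos rfl]
  rw [map_mul, map_pow, aeval_X, h3, one_pow, mul_one, aeval_C] at h2
  change C (c s) ∈ J at h2
  rw [← Finset.mul_prod_erase _ _ (Finset.mem_univ s), C_mul]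
  exact J.mul_mem_right _ h2

/-- Over each nonzero prime the hypersurface has, in suitable coordinates, an equation which is
regular or whose singular points in the fibre have invertible Hessian. -/
def LocNod (O : Type) {K : Type} [CommRing O] [Field K] [Algebra O K] {n : ℕ}
    (G : MvPolynomial (Fin (n + 2)) K) : Prop :=
  ∀ 𝔭 : Ideal O, 𝔭.IsPrime → 𝔭 ≠ ⊥ →
    ∃ (H : MvPolynomial (Fin (n + 2)) O) (l : K) (T T' : Matrix (Fin (n + 2)) (Fin (n + 2)) K),
      l ≠ 0 ∧ T * T' = 1 ∧
      map (algebraMap O K) H = C l * aeval (fun i => ∑ j, C (T i j) * X j) G ∧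
      (Crit 𝔭 H ∨ Nod 𝔭 H)

include K in
theorem goodModule_of_locNod {n : ℕ} (G : MvPolynomial (Fin (n + 2)) K) (hG0 : G ≠ 0)
    (d : ℕ) (hGd : G.IsHomogeneous d) (hsm : Smooth G) (hloc : LocNod O G)
    (x : Fin (n + 2) → F) (hx0 : x 0 = 1) (hrel : aeval x G = 0)
    (hgen : IntermediateField.adjoin K (Set.range x) = ⊤)
    (b : Fin n → F) (htb : IsTranscendenceBasis K b) : GoodModule O x := by
  classical
  have hOK : Function.Injective (algebraMap O K) := IsFractionRing.injective O K
  obtain ⟨s₀, hs₀, G₀, hG₀⟩ := clear_poly (R := K) (nonZeroDivisors O) G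
  have hs₀0 : s₀ ≠ 0 := nonZeroDivisors.ne_zero hs₀
  have hs₀K : algebraMap O K s₀ ≠ 0 := fun h => hs₀0 (hOK (by rw [h, map_zero]))
  have hG₀0 : G₀ ≠ 0 := by
    rintro rfl
    rw [map_zero] at hG₀
    have h1 : (C (algebraMap O K s₀) : MvPolynomial (Fin (n + 2)) K) ≠ 0 := by
      rwa [Ne, C_eq_zero]
    exact (mul_ne_zero h1 hG0) hG₀.symm
  have hG₀d : G₀.IsHomogeneous d := by
    refine IsHomogeneous.of_map (f := algebraMap O K) hOK ?_
    rw [hG₀]
    have h1 := (isHomogeneous_C (Fin (n + 2)) (algebraMap O K s₀)).mul hGd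
    rwa [zero_add] at h1
  have hrelG₀ : aeval x G₀ = 0 := by
    rw [← aeval_map_algebraMap K x G₀, hG₀, map_mul, hrel, mul_zero]
  have hspan : Ideal.span (Set.range fun j => pderiv j G) =
      Ideal.span (map (algebraMap O K) '' (Set.range fun j => pderiv j G₀)) := by
    apply le_antisymm
    · rw [Ideal.span_le]
      rintro _ ⟨j, rfl⟩
      change pderiv j G ∈ Ideal.span _
      have h1 : pderiv j G = C (algebraMap O K s₀)⁻¹ * map (algebraMap O K) (pderiv j G₀) := by
        rw [← pderiv_map, hG₀, pderiv_C_mul, ← mul_assoc, ← C_mul, inv_mul_cancel₀ hs₀K, C_1,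
          one_mul]
      rw [h1]
      exact Ideal.mul_mem_left _ _ (Ideal.subset_span ⟨_, ⟨j, rfl⟩, rfl⟩)
    · rw [Ideal.span_le]
      rintro _ ⟨_, ⟨j, rfl⟩, rfl⟩
      have h1 : map (algebraMap O K) (pderiv j G₀) = C (algebraMap O K s₀) * pderiv j G := by
        rw [← pderiv_map, hG₀, pderiv_C_mul]
      rw [SetLike.mem_coe]
      change map (algebraMap O K) (pderiv j G₀) ∈ _
      rw [h1]
      exact Ideal.mul_mem_left _ _ (Ideal.subset_span ⟨j, rfl⟩)
  have hex : ∀ i, ∃ c : O, c ≠ 0 ∧ ∃ k : ℕ,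
      C c * X i ^ k ∈ Ideal.span (Set.range fun j => pderiv j G₀) := by
    intro i
    obtain ⟨k, hk⟩ := hsm i
    rw [hspan] at hk
    obtain ⟨c, hc, y, hy, hyc⟩ := clear_span (R := K) (nonZeroDivisors O) _ _ hk
    refine ⟨c, nonZeroDivisors.ne_zero hc, k, ?_⟩
    have h1 : y = C c * X i ^ k := by
      apply map_injective _ hOK
      rw [hyc, map_mul, map_C, map_pow, map_X]
    rwa [← h1]
  choose c hc k hk using hex
  have hc0 : ∏ i, c i ≠ 0 := by
    rw [Finset.prod_ne_zero_iff]
    exact fun i _ => hc i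
  have hDspan : Ideal.span {∏ i, c i} ≠ ⊥ := by
    rw [Ne, Ideal.span_singleton_eq_bot]
    exact hc0
  let S : Finset (Ideal O) :=
    (UniqueFactorizationMonoid.normalizedFactors (Ideal.span {∏ i, c i})).toFinset
  have hS : ∀ 𝔭, 𝔭 ∈ S ↔ 𝔭.IsPrime ∧ ∏ i, c i ∈ 𝔭 := by
    intro 𝔭
    rw [Multiset.mem_toFinset, Ideal.mem_normalizedFactors_iff hDspan,
      Ideal.span_singleton_le_iff_mem]
  have hS0 : ∀ 𝔭 ∈ S, 𝔭 ≠ ⊥ := by
    intro 𝔭 h𝔭 h
    have h1 := ((hS 𝔭).1 h𝔭).2
    rw [h] at h1
    exact hc0 h1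
  refine goodModule_of_loc (K := K) x hx0 S (fun 𝔭 h𝔭 =>
    ⟨Ideal.IsPrime.isMaximal ((hS 𝔭).1 h𝔭).1 (hS0 𝔭 h𝔭), hS0 𝔭 h𝔭⟩) ?_ ?_
  · intro 𝔭 h𝔭
    have hpp := ((hS 𝔭).1 h𝔭).1
    have h0 := hS0 𝔭 h𝔭
    obtain ⟨H, l, T, T', hl, hTT, hH, hcrit⟩ := hloc 𝔭 hpp h0
    let x' : Fin (n + 2) → F := fun i => ∑ j, algebraMap K F (T' i j) * x j
    have hxx' : ∀ i, x i = ∑ j, algebraMap K F (T i j) * x' j := by
      intro i
      have h1 : ∑ j, algebraMap K F (T i j) * x' j =
          ∑ m, (∑ j, algebraMap K F (T i j) * algebraMap K F (T' j m)) * x m := by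
        simp only [x', Finset.mul_sum, Finset.sum_mul]
        rw [Finset.sum_comm]
        refine Finset.sum_congr rfl fun m _ => Finset.sum_congr rfl fun j _ => ?_
        ring
      have h2 : ∀ m, ∑ j, algebraMap K F (T i j) * algebraMap K F (T' j m) =
          if i = m then 1 else 0 := by
        intro m
        have h3 : (T * T') i m = (1 : Matrix (Fin (n + 2)) (Fin (n + 2)) K) i m := by rw [hTT]
        rw [Matrix.mul_apply, Matrix.one_apply] at h3
        have h4 := congrArg (algebraMap K F) h3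
        rw [map_sum] at h4
        simp only [map_mul] at h4
        rw [h4]
        split_ifs <;> simp
      rw [h1]
      simp only [h2, ite_mul, one_mul, zero_mul, Finset.sum_ite_eq, Finset.mem_univ, if_true]
    have hH0 : H ≠ 0 := by
      rintro rfl
      rw [map_zero] at hH
      have h1 : (aeval (fun i => ∑ j, C (T i j) * X j) :
          MvPolynomial (Fin (n + 2)) K →ₐ[K] MvPolynomial (Fin (n + 2)) K) G = 0 := by
        rcases mul_eq_zero.1 hH.symm with h | h
        · exact absurd (C_eq_zero.1 h) hl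
        · exact h
      have hTT' : T' * T = 1 := mul_eq_one_comm.1 hTT
      have h2 : (aeval (fun i => ∑ j, C (T' i j) * X j) :
          MvPolynomial (Fin (n + 2)) K →ₐ[K] MvPolynomial (Fin (n + 2)) K)
          ((aeval (fun i => ∑ j, C (T i j) * X j) :
          MvPolynomial (Fin (n + 2)) K →ₐ[K] MvPolynomial (Fin (n + 2)) K) G) = G := by
        rw [← AlgHom.comp_apply]
        have h3 : (aeval (fun i => ∑ j, C (T' i j) * X j) :
          MvPolynomial (Fin (n + 2)) K →ₐ[K] MvPolynomial (Fin (n + 2)) K).comp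
          (aeval (fun i => ∑ j, C (T i j) * X j) :
          MvPolynomial (Fin (n + 2)) K →ₐ[K] MvPolynomial (Fin (n + 2)) K) = AlgHom.id K _ := by
          apply MvPolynomial.algHom_ext
          intro i
          rw [AlgHom.comp_apply, aeval_X, map_sum, AlgHom.id_apply]
          simp only [map_mul, aeval_X, aeval_C, algebraMap_eq]
          have h1 : ∑ j, C (T i j) * ∑ m, C (T' j m) * X m =
              ∑ m, C (∑ j, T i j * T' j m) * (X m : MvPolynomial (Fin (n + 2)) K) := by
            simp only [Finset.mul_sum, Finset.sum_mul, map_sum]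
            rw [Finset.sum_comm]
            refine Finset.sum_congr rfl fun m _ => Finset.sum_congr rfl fun j _ => ?_
            rw [C_mul]
            ring
          rw [h1]
          have h2 : ∀ m, ∑ j, T i j * T' j m = if i = m then 1 else 0 := by
            intro m
            rw [← Matrix.mul_apply, hTT, Matrix.one_apply]
          simp only [h2]
          simp
        rw [h3, AlgHom.id_apply]
      rw [h1, map_zero] at h2
      exact hG0 h2.symm
    have hHd : H.IsHomogeneous d := by
      refine IsHomogeneous.of_map (f := algebraMap O K) hOK ?_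
      rw [hH]
      have h1 : ((aeval (fun i => ∑ j, C (T i j) * X j) :
          MvPolynomial (Fin (n + 2)) K →ₐ[K] MvPolynomial (Fin (n + 2)) K) G).IsHomogeneous
            (1 * d) := by
        refine hGd.aeval _ fun i => ?_
        refine IsHomogeneous.sum _ _ _ fun j _ => ?_
        have h2 := (isHomogeneous_C (Fin (n + 2)) (T i j)).mul (isHomogeneous_X K j)
        rwa [zero_add] at h2
      have h2 := (isHomogeneous_C (Fin (n + 2)) l).mul h1
      rwa [zero_add, one_mul] at h2
    have hrelH : aeval x' H = 0 := by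
      rw [← aeval_map_algebraMap K x' H, hH, map_mul]
      have h1 : aeval x' ((aeval (fun i => ∑ j, C (T i j) * X j) :
          MvPolynomial (Fin (n + 2)) K →ₐ[K] MvPolynomial (Fin (n + 2)) K) G) = aeval x G := by
        rw [← AlgHom.comp_apply]
        congr 1
        apply MvPolynomial.algHom_ext
        intro i
        rw [AlgHom.comp_apply, aeval_X, aeval_X, map_sum, hxx' i]
        refine Finset.sum_congr rfl fun j _ => ?_
        rw [map_mul, aeval_X, aeval_C]
      rw [h1, hrel, mul_zero]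
    rcases hcrit with hcrit | hnod
    · exact locMod_of_crit (K := K) 𝔭 h0 H hH0 d hHd hcrit x hx0 hgen b htb x' (fun i j => T i j)
        (fun i j => T' i j) hxx' (fun i => rfl) hrelH
    · have hsmH : Smooth (map (algebraMap O K) H) := by
        rw [hH]
        exact smooth_C_mul l hl _ (smooth_lin G hsm T T' hTT)
      obtain ⟨c₀, hc₀, hc₀s⟩ := exists_c0 (K := K) H d hHd hsmH
      refine locMod_lin (K := K) 𝔭 h0 x x' ?_ ?_
        (locMod_of_nod (K := K) 𝔭 h0 H hH0 d hHd hnod c₀ hc₀ hc₀s x hx0 hgen b htb x'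
          (fun i j => T i j) hxx' hrelH)
      · intro i
        refine Submodule.sum_mem _ fun j _ => ?_
        rw [← Algebra.smul_def]
        exact Submodule.smul_mem _ _ (Submodule.subset_span ⟨j, rfl⟩)
      · intro i
        rw [hxx']
        refine Submodule.sum_mem _ fun j _ => ?_
        rw [← Algebra.smul_def]
        exact Submodule.smul_mem _ _ (Submodule.subset_span ⟨j, rfl⟩)
  · intro 𝔭 hpp h𝔭 D hD M hM hM2
    have hprod : ∏ i, c i ∉ 𝔭 := fun h => h𝔭 ((hS 𝔭).2 ⟨hpp, h⟩)
    have hcp : ∀ i, c i ∉ 𝔭 := fun i h => hprod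
      (Ideal.mem_of_dvd 𝔭 (Finset.dvd_prod_of_mem c (Finset.mem_univ i)) h)
    refine regAt_of_crit (K := K) 𝔭 G₀ hG₀0 d hG₀d
      (crit_of_smooth 𝔭 G₀ d hG₀d fun i => ⟨c i, hcp i, k i, hk i⟩) x hx0 hgen b htb x
      (fun i j => if i = j then 1 else 0) ?_ hrelG₀ D hD M hM hM2
    intro i
    simp only [apply_ite (algebraMap K F), map_one, map_zero, ite_mul, one_mul, zero_mul,
      Finset.sum_ite_eq, Finset.mem_univ, if_true]

end

end Pool.Agent.Helper382_Nodal
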