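import Pool.Agent.Helper382_Nodal.Chart3
import Pool.Agent.TH214.RM.Good

/-! The local rings of the blow-up: the combinatorics of the centres. -/

set_option autoImplicit false
set_option linter.unusedSectionVars false

open scoped Pointwise

namespace Pool.Agent.Helper382_Nodal

open MvPolynomial Pool.Agent.H918R2.Quad Pool.Agent.H945R2.D Pool.Agent.TH214.RM

section

variable {F : Type} [Field F] {𝒪 : Subring F}

theorem U_prod {κ : Type} (s : Finset κ) (f : κ → F) (h : ∀ i ∈ s, U 𝒪 (f i)) :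
    U 𝒪 (∏ i ∈ s, f i) := by
  classical
  induction s using Finset.induction_on with
  | empty => simpa using U_one
  | insert b s hb ih =>
    rw [Finset.prod_insert hb]
    exact (h b (Finset.mem_insert_self _ _)).mul
      (ih fun i hi => h i (Finset.mem_insert_of_mem hi))

/-- The combinatorics of the chain of centres. -/
theorem chain_comb {ι : Type} (p : F) (hp : p ≠ 0) (hpO : p ∈ 𝒪) (gl : ι → F)
    (hglO : ∀ l, gl l ∈ 𝒪) (m : ℕ) (τ : Fin m → F) (hτ0 : ∀ i, τ i ≠ 0)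
    (hτ1 : ∀ i : Fin m, τ i / p ^ ((i : ℕ) + 1) ∈ 𝒪 ∨ ∃ j, τ i = gl j)
    (hτ2 : ∀ i : Fin m, p ^ ((i : ℕ) + 1) / τ i ∈ 𝒪) (hτ3 : ∀ (i : Fin m) l, gl l / τ i ∈ 𝒪)
    (hnot : ¬ ∀ l, gl l / p ^ m ∈ 𝒪) :
    ∃ (a : ℕ) (j : ι), gl j ≠ 0 ∧ (∀ l, gl l / gl j ∈ 𝒪) ∧ gl j / p ^ a ∈ 𝒪 ∧
      p ^ (a + 1) / gl j ∈ 𝒪 ∧ (¬ ∀ l, gl l / p ^ (a + 1) ∈ 𝒪) ∧
      (∀ l, gl l / p ^ a ∈ 𝒪) ∧
      (∀ i : Fin m, (i : ℕ) < a → U 𝒪 (τ i / p ^ ((i : ℕ) + 1))) ∧
      (∀ i : Fin m, a ≤ (i : ℕ) → U 𝒪 (τ i / gl j)) := by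
  classical
  set a := Nat.findGreatest (fun a => ∀ l, gl l / p ^ a ∈ 𝒪) m with ha
  have h0 : ∀ l, gl l / p ^ 0 ∈ 𝒪 := by
    intro l
    rw [pow_zero, div_one]
    exact hglO l
  have haS : ∀ l, gl l / p ^ a ∈ 𝒪 := by
    have h1 := Nat.findGreatest_spec (P := fun a => ∀ l, gl l / p ^ a ∈ 𝒪) (Nat.zero_le m) h0
    rw [← ha] at h1
    exact h1
  have ham : a ≤ m := Nat.findGreatest_le m
  have ham' : a < m := by
    rcases ham.lt_or_eq with h | h
    · exact h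
    · rw [h] at haS
      exact absurd haS hnot
  have hnext : ¬ ∀ l, gl l / p ^ (a + 1) ∈ 𝒪 := by
    intro h
    have h2 : a + 1 ≤ Nat.findGreatest (fun a => ∀ l, gl l / p ^ a ∈ 𝒪) m :=
      Nat.le_findGreatest ham' h
    omega
  have hpp : ∀ n : ℕ, p ^ n ≠ 0 := fun n => pow_ne_zero _ hp
  have hppO : ∀ n : ℕ, p ^ n ∈ 𝒪 := fun n => 𝒪.pow_mem hpO n
  obtain ⟨j, hj⟩ : ∃ j, τ ⟨a, ham'⟩ = gl j := by
    refine (hτ1 ⟨a, ham'⟩).resolve_left fun h => hnext fun l => ?_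
    have h1 : gl l / p ^ (a + 1) = (gl l / τ ⟨a, ham'⟩) * (τ ⟨a, ham'⟩ / p ^ (a + 1)) := by
      have := hτ0 ⟨a, ham'⟩
      have := hpp (a + 1)
      field_simp
    rw [h1]
    exact 𝒪.mul_mem (hτ3 _ l) h
  have hj0 : gl j ≠ 0 := by
    rw [← hj]
    exact hτ0 _
  have hw : ∀ l, gl l / gl j ∈ 𝒪 := by
    intro l
    have h1 := hτ3 ⟨a, ham'⟩ l
    rwa [hj] at h1
  have hv : p ^ (a + 1) / gl j ∈ 𝒪 := by
    have h1 := hτ2 ⟨a, ham'⟩
    rwa [hj] at h1
  refine ⟨a, j, hj0, hw, haS j, hv, hnext, haS, ?_, ?_⟩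
  · intro i hi
    have h1 := hτ0 i
    refine ⟨div_ne_zero h1 (hpp _), ?_, ?_⟩
    · rcases hτ1 i with h | ⟨l, hl⟩
      · exact h
      · rw [hl]
        have h2 : gl l / p ^ ((i : ℕ) + 1) = (gl l / p ^ a) * p ^ (a - (i + 1)) := by
          have h3 : p ^ a = p ^ ((i : ℕ) + 1) * p ^ (a - (i + 1)) := by
            rw [← pow_add]
            congr 1
            omega
          have := hpp ((i : ℕ) + 1)
          have := hpp (a - (i + 1))
          rw [h3]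
          field_simp
        rw [h2]
        exact 𝒪.mul_mem (haS l) (hppO _)
    · rw [inv_div]
      exact hτ2 i
  · intro i hi
    have h1 := hτ0 i
    refine ⟨div_ne_zero h1 hj0, ?_, ?_⟩
    · rcases hτ1 i with h | ⟨l, hl⟩
      · have h2 : τ i / gl j = (τ i / p ^ ((i : ℕ) + 1)) * (p ^ (i - a) * (p ^ (a + 1) / gl j)) := by
          have h3 : p ^ ((i : ℕ) + 1) = p ^ ((i : ℕ) - a) * p ^ (a + 1) := by
            rw [← pow_add]
            congr 1
            omega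
          have := hpp (a + 1)
          have := hpp ((i : ℕ) - a)
          rw [h3]
          field_simp
        rw [h2]
        exact 𝒪.mul_mem h (𝒪.mul_mem (hppO _) hv)
      · rw [hl]
        exact hw l
    · rw [inv_div]
      exact hτ3 i j

/-- Moving away from the distinguished coordinate. -/
theorem exists_ne (hloc : IsLoc 𝒪) {ι : Type} [Fintype ι] [DecidableEq ι] (s : ι) (t gl : ι → F)
    (ht : ∀ l, t l ∈ 𝒪) (hts : t s = 1) (hsum : ∑ l, t l * gl l = 0) (a : ℕ) (p : F) (j : ι)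
    (hj0 : gl j ≠ 0) (hw : ∀ l, gl l / gl j ∈ 𝒪) (hv : p ^ (a + 1) / gl j ∈ 𝒪) :
    ∃ j', j' ≠ s ∧ gl j' ≠ 0 ∧ (∀ l, gl l / gl j' ∈ 𝒪) ∧ p ^ (a + 1) / gl j' ∈ 𝒪 ∧
      U 𝒪 (gl j / gl j') := by
  by_cases hjs : j = s
  · subst hjs
    have h1 : ∑ l ∈ Finset.univ \ {j}, -(t l * (gl l / gl j)) = 1 := by
      rw [Finset.sum_eq_add_sum_sdiff_singleton_of_mem (Finset.mem_univ j), hts, one_mul] at hsum
      have h2 : ∑ l ∈ Finset.univ \ {j}, -(t l * (gl l / gl j)) =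
          -(∑ l ∈ Finset.univ \ {j}, t l * gl l) / gl j := by
        rw [neg_div, Finset.sum_div, ← Finset.sum_neg_distrib]
        exact Finset.sum_congr rfl fun l _ => by ring
      rw [h2]
      have h3 : -(∑ l ∈ Finset.univ \ {j}, t l * gl l) = gl j := by linear_combination (-1 : F) * hsum
      rw [h3, div_self hj0]
    obtain ⟨l, hl, hU⟩ := exists_U_of_sum hloc (Finset.univ \ {j}) (fun l => -(t l * (gl l / gl j)))
      (fun l _ => 𝒪.neg_mem (𝒪.mul_mem (ht l) (hw l))) (by rw [h1]; exact U_one)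
    have hlj : l ≠ j := by
      intro h
      rw [h] at hl
      simp at hl
    have hU1 : U 𝒪 (gl l / gl j) := by
      have h2 : -(t l * (gl l / gl j)) = (-t l) * (gl l / gl j) := by ring
      rw [h2] at hU
      exact hU.of_mul_right (𝒪.neg_mem (ht l)) (hw l)
    have hl0 : gl l ≠ 0 := by
      intro h
      rw [h, zero_div] at hU1
      exact not_U_zero hU1
    have hU2 : U 𝒪 (gl j / gl l) := by
      have h2 := hU1.inv
      rwa [inv_div] at h2
    refine ⟨l, hlj, hl0, fun k => ?_, ?_, hU2⟩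
    · have h2 : gl k / gl l = (gl k / gl j) * (gl j / gl l) := by field_simp
      rw [h2]
      exact 𝒪.mul_mem (hw k) hU2.2.1
    · have h2 : p ^ (a + 1) / gl l = (p ^ (a + 1) / gl j) * (gl j / gl l) := by field_simp
      rw [h2]
      exact 𝒪.mul_mem hv hU2.2.1
  · exact ⟨j, hjs, hj0, hw, hv, by rw [div_self hj0]; exact U_one⟩

variable {R ι : Type} [CommRing R] [Algebra R F]

/-- The generators of the centre. -/
def Yset (p : F) (x : ι → F) (G : MvPolynomial ι R) (d i : ℕ) : Set F :=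
  {y | (∃ z ∈ Set.range x ^ (d - 1), y = p ^ (i + 1) * z) ∨ ∃ j, y = aeval x (pderiv j G)}

/-- The generators of the product of the centres. -/
def gset (p : F) (x : ι → F) (G : MvPolynomial ι R) (d e m : ℕ) : Set F :=
  {y | ∃ z ∈ Set.range x ^ e, ∃ t : Fin m → F, (∀ i : Fin m, t i ∈ Yset p x G d i) ∧ y = z * ∏ i, t i}

theorem local_data (hloc : IsLoc 𝒪) (hR : ∀ r : R, algebraMap R F r ∈ 𝒪) (p : F) (x : ι → F)
    (G : MvPolynomial ι R) (d e m : ℕ) (he : 1 ≤ e) (f : F) (hf : f ≠ 0)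
    (hfG : f ∈ Submodule.span R (gset p x G d e m)) (hG : ∀ h ∈ gset p x G d e m, h / f ∈ 𝒪) :
    ∃ (s : ι) (t : Fin m → F), x s ≠ 0 ∧ (∀ j, x j / x s ∈ 𝒪) ∧ (∀ i : Fin m, t i ∈ Yset p x G d i) ∧
      (∀ i, t i ≠ 0) ∧ (∀ i : Fin m, ∀ y ∈ Yset p x G d i, y / t i ∈ 𝒪) ∧
      U 𝒪 (f / (x s ^ e * ∏ i, t i)) := by
  classical
  obtain ⟨g, hg, hU⟩ := exists_U_gen hloc hR _ f hf hG hfG
  obtain ⟨z, hz, t, ht, rfl⟩ := hg
  have hg0 : z * ∏ i, t i ≠ 0 := by
    intro h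
    rw [h, zero_div] at hU
    exact not_U_zero hU
  have hz0 : z ≠ 0 := left_ne_zero_of_mul hg0
  have ht0' : ∏ i, t i ≠ 0 := right_ne_zero_of_mul hg0
  have ht0 : ∀ i, t i ≠ 0 := fun i h => ht0' (Finset.prod_eq_zero (Finset.mem_univ i) h)
  obtain ⟨s, hs, hxs, hUs⟩ := GD1aux.exists_coord 𝒪 x e he (f / ∏ i, t i) (by
    intro h hh
    have h1 : h / (f / ∏ i, t i) = (h * ∏ i, t i) / f := by
      field_simp
    rw [h1]
    exact hG _ ⟨h, hh, t, ht, rfl⟩) z hz (by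
    have h1 : z / (f / ∏ i, t i) = (z * ∏ i, t i) / f := by
      field_simp
    rw [h1]
    exact hU)
  refine ⟨s, t, hs, hxs, ht, ht0, ?_, ?_⟩
  · intro i y hy
    have h1 : (z * ∏ k, Function.update t i y k) / f ∈ 𝒪 := by
      refine hG _ ⟨z, hz, _, ?_, rfl⟩
      intro k
      by_cases hk : k = i
      · subst hk
        rw [Function.update_self]
        exact hy
      · rw [Function.update_of_ne hk]
        exact ht k
    have h2 : ∏ k, Function.update t i y k = (∏ k, t k) * (y / t i) := by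
      rw [Finset.prod_update_of_mem (Finset.mem_univ i),
        Finset.prod_eq_mul_prod_sdiff_singleton_of_mem (Finset.mem_univ i) t]
      have := ht0 i
      field_simp
    rw [h2] at h1
    have h3 : y / t i = ((z * ((∏ k, t k) * (y / t i))) / f) * ((z * ∏ k, t k) / f)⁻¹ := by
      have := ht0 i
      rw [inv_div]
      field_simp
    rw [h3]
    exact 𝒪.mul_mem h1 hU.2.2
  · have h1 : f / (x s ^ e * ∏ i, t i) = f / (∏ i, t i) / x s ^ e := by
      rw [div_div, mul_comm]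
    rw [h1]
    exact hUs

end

end Pool.Agent.Helper382_Nodal
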