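import Pool.Agent.Helper382_Nodal.Loc

/-! Regularity of the local rings of the blow-up of a hypersurface with nondegenerate singularities
in the special fibre. -/

set_option autoImplicit false
set_option linter.unusedSectionVars false

open scoped Pointwise

namespace Pool.Agent.Helper382_Nodal

open MvPolynomial Pool.Agent.H918R2.Quad Pool.Agent.H945R2.D Pool.Agent.TH214.RM

theorem ndl {R F ι : Type} [CommRing R] [IsDomain R] [IsDiscreteValuationRing R] [Field F]
    [Algebra R F] [Fintype ι] [DecidableEq ι] (𝒪 : Subring F) (hloc : IsLoc 𝒪)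
    (hR : ∀ r : R, algebraMap R F r ∈ 𝒪) (hRU : ∀ r : R, U 𝒪 (algebraMap R F r) → IsUnit r)
    (hp0 : ∀ π : R, π ≠ 0 → algebraMap R F π ≠ 0) (π : R) (hπ : Irreducible π)
    (G : MvPolynomial ι R) (hG0 : G ≠ 0) (d : ℕ) (hGd : G.IsHomogeneous d)
    (hnod : ∀ (s : ι) (Q : Ideal (MvPolynomial {j : ι // j ≠ s} R)), Q.IsPrime → deh s G ∈ Q →
      (∀ r : R, C r ∈ Q ↔ ¬ IsUnit r) → (∃ j, pderiv j (deh s G) ∉ Q) ∨
        (hess (deh s G)).det ∉ Q)
    (c₀ : R) (N : ℕ) (hN : ¬ π ^ (N + 1) ∣ c₀)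
    (hsm : ∀ s, C c₀ ∈ Ideal.span ({deh s G} ∪ Set.range fun l => pderiv l (deh s G)))
    (x : ι → F) (hrel : aeval x G = 0)
    (hind : ∀ s, x s ≠ 0 → ∃ j₀ : {i : ι // i ≠ s},
      AlgebraicIndependent R (fun i : {i : {i : ι // i ≠ s} // i ≠ j₀} => x i / x s))
    (e m : ℕ) (he : 1 ≤ e) (hm : N < 2 * m) (f : F) (hf : f ≠ 0)
    (hfG : f ∈ Submodule.span R (gset (algebraMap R F π) x G d e m))
    (hG : ∀ h ∈ gset (algebraMap R F π) x G d e m, h / f ∈ 𝒪)
    (hloc2 : IsLocOf 𝒪 (chart R (Submodule.span R (gset (algebraMap R F π) x G d e m)) f)) :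
    IsRegularLocalRing 𝒪 := by
  classical
  set p := algebraMap R F π with hpdef
  have hp : p ≠ 0 := hp0 π hπ.ne_zero
  have hpO : p ∈ 𝒪 := hR π
  have hppO : ∀ n : ℕ, p ^ n ∈ 𝒪 := fun n => 𝒪.pow_mem hpO n
  obtain ⟨s, t, hs, hxs, ht, ht0, hy, hU⟩ := local_data hloc hR p x G d e m he f hf hfG hG
  set x' : ι → F := fun j => x j / x s with hx'
  have hts : x' s = 1 := div_self hs
  have hxx : (fun j => x' j * x s) = x := by
    funext j
    simp only [hx']
    field_simp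
  have hxs0 : ∀ n : ℕ, x s ^ n ≠ 0 := fun n => pow_ne_zero _ hs
  set gl : ι → F := fun l => aeval x' (pderiv l G) with hgl
  have hglx : ∀ l, aeval x (pderiv l G) = gl l * x s ^ (d - 1) := by
    intro l
    have h1 := aeval_scale x' (x s) (d - 1) (pderiv l G) hGd.pderiv
    rw [hxx] at h1
    exact h1
  have hGx' : aeval x' G = 0 := by
    have h1 := aeval_scale x' (x s) d G hGd
    rw [hxx, hrel] at h1
    exact (mul_eq_zero.1 h1.symm).resolve_right (hxs0 d)
  have hglO : ∀ l, gl l ∈ 𝒪 := fun l => aeval_mem' 𝒪 x' hR hxs _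
  have hsum : ∑ l, x' l * gl l = 0 := by
    have h1 := congrArg (aeval x') hGd.sum_X_mul_pderiv
    rw [map_sum, map_nsmul, hGx', smul_zero] at h1
    simp only [map_mul, aeval_X] at h1
    exact h1
  -- the affine chart
  set G' : MvPolynomial {j : ι // j ≠ s} R := deh s G with hG'def
  set t' : {j : ι // j ≠ s} → F := fun l => x' l with ht'def
  have ht'O : ∀ l, t' l ∈ 𝒪 := fun l => hxs l
  have hG't : aeval t' G' = 0 := by
    rw [ht'def, hG'def, aeval_deh s x' hts G, hGx']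
  have hgl' : ∀ l : {j : ι // j ≠ s}, aeval t' (pderiv l G') = gl l := by
    intro l
    rw [hG'def, pderiv_deh, ht'def, aeval_deh s x' hts]
  have hG'0 : G' ≠ 0 := deh_ne_zero s G hG0 d hGd
  have hnod' : (∃ l, U 𝒪 (aeval t' (pderiv l G'))) ∨ U 𝒪 (aeval t' (hess G').det) := by
    obtain ⟨Q, hQp, hQ, hQC⟩ := exists_Q0 𝒪 hloc hR hRU hp0 π hπ t' ht'O
    rcases hnod s Q hQp ((hQ _).2 (by rw [hG't]; exact not_U_zero)) hQC with ⟨l, hl⟩ | h
    · left
      refine ⟨l, ?_⟩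
      by_contra hcon
      exact hl ((hQ _).2 hcon)
    · right
      by_contra hcon
      exact h ((hQ _).2 hcon)
  -- the centres
  set τ : Fin m → F := fun i => t i / x s ^ (d - 1) with hτ
  have hτ0 : ∀ i, τ i ≠ 0 := fun i => div_ne_zero (ht0 i) (hxs0 _)
  have hrange : ∀ n : ℕ, ∀ z ∈ Set.range x ^ n, ∃ ζ : MvPolynomial {j : ι // j ≠ s} R,
      z = x s ^ n * aeval t' ζ := by
    intro n z hz
    obtain ⟨φ, rfl⟩ := (GD1aux.mem_range_pow x n z).1 hz
    refine ⟨∏ i, tau s (φ i), ?_⟩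
    rw [map_prod]
    have h1 : ∏ i, x (φ i) = ∏ i, (x s * aeval t' (tau (R := R) s (φ i))) := by
      refine Finset.prod_congr rfl fun i _ => ?_
      rw [ht'def, aeval_tau' s x' hts]
      simp only [hx']
      field_simp
    rw [h1, Finset.prod_mul_distrib, Finset.prod_const, Finset.card_univ, Fintype.card_fin]
  have hτ1 : ∀ i : Fin m, τ i / p ^ ((i : ℕ) + 1) ∈ 𝒪 ∨ ∃ j, τ i = gl j := by
    intro i
    rcases ht i with ⟨z, hz, hzt⟩ | ⟨j, hj⟩
    · left
      obtain ⟨ζ, hζ⟩ := hrange _ z hz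
      have h1 : τ i / p ^ ((i : ℕ) + 1) = aeval t' ζ := by
        have h2 := hxs0 (d - 1)
        have h3 : p ^ ((i : ℕ) + 1) ≠ 0 := pow_ne_zero _ hp
        rw [hτ]
        simp only
        rw [hzt, hζ]
        field_simp
      rw [h1]
      exact aeval_mem' 𝒪 t' hR ht'O _
    · right
      refine ⟨j, ?_⟩
      rw [hτ]
      simp only
      rw [hj, hglx]
      have h2 := hxs0 (d - 1)
      field_simp
  have hτ2 : ∀ i : Fin m, p ^ ((i : ℕ) + 1) / τ i ∈ 𝒪 := by
    intro i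
    have h1 := hy i (p ^ ((i : ℕ) + 1) * x s ^ (d - 1)) (Or.inl ⟨_, Set.pow_mem_pow ⟨s, rfl⟩, rfl⟩)
    have h2 : p ^ ((i : ℕ) + 1) / τ i = p ^ ((i : ℕ) + 1) * x s ^ (d - 1) / t i := by
      rw [hτ]
      have h2 := hxs0 (d - 1)
      have := ht0 i
      field_simp
    rw [h2]
    exact h1
  have hτ3 : ∀ (i : Fin m) l, gl l / τ i ∈ 𝒪 := by
    intro i l
    have h1 := hy i (aeval x (pderiv l G)) (Or.inr ⟨l, rfl⟩)
    have h2 : gl l / τ i = aeval x (pderiv l G) / t i := by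
      rw [hτ, hglx]
      have h2 := hxs0 (d - 1)
      have := ht0 i
      field_simp
    rw [h2]
    exact h1
  have hnot : ¬ ∀ l, gl l / p ^ m ∈ 𝒪 := by
    intro h
    refine not_div 𝒪 hloc hR hRU hp0 π hπ G' t' ht'O m hG't hnod' c₀ N hN (hsm s) hm fun l => ?_
    rw [hgl']
    exact h l
  obtain ⟨a, j₁, hj₁0, hj₁w, hj₁u, hj₁v, hnext, haall, hlt, hge⟩ :=
    chain_comb p hp hpO gl hglO m τ hτ0 hτ1 hτ2 hτ3 hnot
  obtain ⟨j, hjs, hj0, hjw, hjv, hjj⟩ := exists_ne hloc s x' gl hxs hts hsum a p j₁ hj₁0 hj₁w hj₁v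
  have hpa : p ^ a ≠ 0 := pow_ne_zero _ hp
  set u : F := gl j / p ^ a with hu
  set v : F := p ^ (a + 1) / gl j with hv
  set w : {j : ι // j ≠ s} → F := fun l => gl l / gl j with hw
  have hu0 : u ≠ 0 := div_ne_zero hj0 hpa
  have huO : u ∈ 𝒪 := haall j
  have hg : ∀ l : {j : ι // j ≠ s}, aeval t' (pderiv l G') = algebraMap R F π ^ a * u * w l := by
    intro l
    rw [hgl', hu, hw, ← hpdef]
    field_simp
  have huv : u * v = algebraMap R F π := by
    rw [hu, hv, ← hpdef, pow_succ]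
    field_simp
  have hvn : ¬ U 𝒪 v := by
    intro h
    apply hnext
    intro l
    have h1 : gl l / p ^ (a + 1) = (gl l / gl j) * v⁻¹ := by
      rw [hv, inv_div]
      have : p ^ (a + 1) ≠ 0 := pow_ne_zero _ hp
      field_simp
    rw [h1]
    exact 𝒪.mul_mem (hjw l) h.2.2
  have hwj : w ⟨j, hjs⟩ = 1 := div_self hj0
  obtain ⟨j₀, hj₀⟩ := hind s hs
  -- the generators in terms of the chart
  let κ : Fin m → F := fun i => if (i : ℕ) < a then p ^ ((i : ℕ) + 1) else gl j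
  have hκ0 : ∀ i, κ i ≠ 0 := by
    intro i
    simp only [κ]
    split_ifs
    · exact pow_ne_zero _ hp
    · exact hj0
  have hτκ : ∀ i, U 𝒪 (τ i / κ i) := by
    intro i
    simp only [κ]
    split_ifs with h
    · exact hlt i h
    · have h1 : τ i / gl j = (τ i / gl j₁) * (gl j₁ / gl j) := by
        field_simp
      rw [h1]
      exact (hge i (by omega)).mul hjj
  let H : F := x s ^ e * ∏ i : Fin m, (x s ^ (d - 1) * κ i)
  have hH0 : H ≠ 0 := mul_ne_zero (hxs0 _)
    (Finset.prod_ne_zero_iff.2 fun i _ => mul_ne_zero (hxs0 _) (hκ0 i))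
  have hfH : U 𝒪 (f / H) := by
    have h1 : f / H = f / (x s ^ e * ∏ i, t i) * ∏ i, (τ i / κ i) := by
      have h2 : ∏ i, (τ i / κ i) = (∏ i, t i) / ∏ i : Fin m, (x s ^ (d - 1) * κ i) := by
        rw [← Finset.prod_div_distrib]
        refine Finset.prod_congr rfl fun i _ => ?_
        rw [hτ]
        simp only
        rw [div_div]
      rw [h2]
      have h3 : ∏ i, t i ≠ 0 := Finset.prod_ne_zero_iff.2 fun i _ => ht0 i
      have h4 : ∏ i : Fin m, (x s ^ (d - 1) * κ i) ≠ 0 :=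
        Finset.prod_ne_zero_iff.2 fun i _ => mul_ne_zero (hxs0 _) (hκ0 i)
      have h5 := hxs0 e
      simp only [H]
      field_simp
    rw [h1]
    exact hU.mul (U_prod _ _ fun i _ => hτκ i)
  -- the quotients of the partial derivatives
  have hww : ∀ l : ι, ∃ ω : MvPolynomial (Vr {j : ι // j ≠ s}) R,
      evW R t' w u v ω = gl l / gl j := by
    intro l
    by_cases hl : l = s
    · subst hl
      refine ⟨-∑ k, io (X k) * wv R k, ?_⟩
      rw [map_neg, map_sum]
      simp only [map_mul, evW_io, evW_w, aeval_X]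
      have h1 := Fintype.sum_eq_add_sum_subtype_ne (fun k => x' k * gl k) l
      rw [hsum] at h1
      simp only [hts, one_mul] at h1
      have h2 : gl l = -∑ k : {j : ι // j ≠ l}, x' k * gl k := by linear_combination -h1
      rw [h2, neg_div, Finset.sum_div]
      congr 1
      exact Finset.sum_congr rfl fun k _ => by rw [ht'def, hw]; ring
    · exact ⟨wv R ⟨l, hl⟩, by rw [evW_w]⟩
  have hCe : ∀ n : ℕ, evW R t' w u v (C π ^ n) = p ^ n := by
    intro n
    rw [map_pow, ← io_C, evW_io, aeval_C]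
  have hYset : ∀ (i : Fin m), ∀ y ∈ Yset p x G d i, ∃ ω : MvPolynomial (Vr {j : ι // j ≠ s}) R,
      y = (x s ^ (d - 1) * κ i) * evW R t' w u v ω := by
    rintro i y (⟨z, hz, rfl⟩ | ⟨l, rfl⟩)
    · obtain ⟨ζ, hζ⟩ := hrange _ z hz
      by_cases hi : (i : ℕ) < a
      · refine ⟨io ζ, ?_⟩
        simp only [κ]
        rw [if_pos hi, evW_io, hζ]
        ring
      · refine ⟨io ζ * (C π ^ ((i : ℕ) - a) * vv R _), ?_⟩
        simp only [κ]
        rw [if_neg hi, map_mul, map_mul, evW_io, hCe, evW_v, hζ, hv]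
        have h1 : p ^ ((i : ℕ) + 1) = p ^ ((i : ℕ) - a) * p ^ (a + 1) := by
          rw [← pow_add]
          congr 1
          omega
        rw [h1]
        field_simp
    · obtain ⟨ω, hω⟩ := hww l
      by_cases hi : (i : ℕ) < a
      · refine ⟨C π ^ (a - ((i : ℕ) + 1)) * uv R _ * ω, ?_⟩
        simp only [κ]
        rw [if_pos hi, map_mul, map_mul, hCe, evW_u, hω, hglx, hu]
        have h1 : p ^ a = p ^ ((i : ℕ) + 1) * p ^ (a - ((i : ℕ) + 1)) := by
          rw [← pow_add]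
          congr 1
          omega
        have h2 : p ^ ((i : ℕ) + 1) ≠ 0 := pow_ne_zero _ hp
        have h3 : p ^ (a - ((i : ℕ) + 1)) ≠ 0 := pow_ne_zero _ hp
        rw [h1]
        field_simp
      · refine ⟨ω, ?_⟩
        simp only [κ]
        rw [if_neg hi, hω, hglx]
        field_simp
  have hgen : ∀ g ∈ gset p x G d e m, ∃ ω : MvPolynomial (Vr {j : ι // j ≠ s}) R,
      g = H * evW R t' w u v ω := by
    rintro g ⟨z, hz, y, hyY, rfl⟩
    obtain ⟨ζ, hζ⟩ := hrange _ z hz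
    choose ω hω using fun i => hYset i (y i) (hyY i)
    refine ⟨io ζ * ∏ i, ω i, ?_⟩
    rw [map_mul, map_prod, evW_io, hζ]
    have h1 : ∏ i, y i = (∏ i : Fin m, (x s ^ (d - 1) * κ i)) * ∏ i, evW R t' w u v (ω i) := by
      rw [← Finset.prod_mul_distrib]
      exact Finset.prod_congr rfl fun i _ => hω i
    rw [h1]
    simp only [H]
    ring
  have heW := evW_mem (σ := {j : ι // j ≠ s}) hR t' w u v ht'O (fun l => hjw l) huO hjv
  have hfrac := frac_of_chart (evW R t' w u v) heW (gset p x G d e m) f H hH0 hgen hfG hfH hloc2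
  exact chart_reg 𝒪 hloc hR hRU hp0 π hπ G' t' ht'O hG't hG'0 hnod' c₀ N hN (hsm s) a ⟨j, hjs⟩ w u v
    (fun l => hjw l) huO hjv hu0 hg hwj huv hvn j₀ hj₀ hfrac

end Pool.Agent.Helper382_Nodal
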