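import Pool.Agent.Helper382_Nodal.Expand2

/-! The chart of the blow-up at a point with invertible Hessian: independence of the relations. -/

set_option autoImplicit false
set_option linter.unusedSectionVars false

namespace Pool.Agent.Helper382_Nodal

open MvPolynomial Pool.Agent.H918R2.Quad

/-- The variables of the chart. -/
abbrev Vr (σ : Type) : Type := (σ ⊕ σ) ⊕ Bool

section

variable {R : Type} [CommRing R] {σ : Type}

/-- The polynomials in the coordinates of the original chart. -/
noncomputable def io : MvPolynomial σ R →ₐ[R] MvPolynomial (Vr σ) R :=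
  rename fun l => Sum.inl (Sum.inl l)

/-- The quotients of partial derivatives. -/
noncomputable def wv (R : Type) [CommRing R] {σ : Type} (l : σ) : MvPolynomial (Vr σ) R :=
  X (Sum.inl (Sum.inr l))

/-- The divisor of the uniformizer. -/
noncomputable def uv (R : Type) [CommRing R] (σ : Type) : MvPolynomial (Vr σ) R := X (Sum.inr true)

/-- The complementary divisor. -/
noncomputable def vv (R : Type) [CommRing R] (σ : Type) : MvPolynomial (Vr σ) R := X (Sum.inr false)

theorem io_C (r : R) : (io (C r) : MvPolynomial (Vr σ) R) = C r := by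
  unfold io
  rw [rename_C]

theorem inj_ll : Function.Injective (fun l : σ => (Sum.inl (Sum.inl l) : Vr σ)) := fun _ _ h =>
  Sum.inl_injective (Sum.inl_injective h)

theorem pderiv_io_T (m : σ) (g : MvPolynomial σ R) :
    pderiv (Sum.inl (Sum.inl m)) (io g : MvPolynomial (Vr σ) R) = io (pderiv m g) :=
  pderiv_rename inj_ll m g

theorem pderiv_io_ne (x : Vr σ) (hx : ∀ m, x ≠ Sum.inl (Sum.inl m)) (g : MvPolynomial σ R) :
    pderiv x (io g : MvPolynomial (Vr σ) R) = 0 := by
  classical
  induction g using MvPolynomial.induction_on with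
  | C a => rw [io_C, pderiv_C]
  | add p q hp hq => rw [map_add, map_add, hp, hq, add_zero]
  | mul_X p i hp =>
    rw [map_mul, Derivation.leibniz, hp]
    have h1 : (io (X i) : MvPolynomial (Vr σ) R) = X (Sum.inl (Sum.inl i)) := by
      unfold io
      rw [rename_X]
    rw [h1, pderiv_X_of_ne (fun h => hx i h.symm), smul_zero, smul_zero, add_zero]

end

section

variable {R : Type} [CommRing R] {σ : Type} [Fintype σ] [DecidableEq σ]

/-- The quadratic form in the quotients of partial derivatives. -/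
noncomputable def qw (qf : Matrix σ σ (MvPolynomial σ R)) : MvPolynomial (Vr σ) R :=
  ∑ l, ∑ m, io (qf l m) * wv R l * wv R m

/-- The polar form. -/
noncomputable def pw (qf : Matrix σ σ (MvPolynomial σ R)) (m : σ) : MvPolynomial (Vr σ) R :=
  ∑ l, wv R l * io ((qf + qf.transpose) l m)

theorem sum_pw (qf : Matrix σ σ (MvPolynomial σ R)) :
    ∑ m, pw qf m * wv R m = 2 * qw qf := by
  unfold pw qw
  have h1 : ∑ m, (∑ l, wv R l * io ((qf + qf.transpose) l m)) * wv R m =
      ∑ m, ∑ l, (io (qf l m) * wv R l * wv R m + io (qf m l) * wv R m * wv R l) := by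
    refine Finset.sum_congr rfl fun m _ => ?_
    rw [Finset.sum_mul]
    refine Finset.sum_congr rfl fun l _ => ?_
    rw [Matrix.add_apply, Matrix.transpose_apply, map_add]
    ring
  rw [h1]
  simp only [Finset.sum_add_distrib]
  rw [Finset.sum_comm, two_mul]

theorem pderiv_qw_W (qf : Matrix σ σ (MvPolynomial σ R)) (m : σ) :
    pderiv (Sum.inl (Sum.inr m)) (qw qf) = pw qf m := by
  have hio : ∀ g : MvPolynomial σ R, pderiv (Sum.inl (Sum.inr m))
      (io g : MvPolynomial (Vr σ) R) = 0 := fun g => pderiv_io_ne _ (by simp) g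
  have hw : ∀ l, pderiv (Sum.inl (Sum.inr m)) (wv R l : MvPolynomial (Vr σ) R) =
      if l = m then 1 else 0 := by
    intro l
    unfold wv
    by_cases h : l = m
    · rw [if_pos h, h, pderiv_X_self]
    · rw [if_neg h, pderiv_X_of_ne]
      simpa using h
  unfold qw pw
  rw [map_sum]
  simp only [map_sum, Derivation.leibniz, hio, hw, smul_eq_mul]
  have h1 : ∀ l k : σ, io (qf l k) * wv R l * (if k = m then (1 : MvPolynomial (Vr σ) R) else 0) +
      wv R k * (io (qf l k) * (if l = m then (1 : MvPolynomial (Vr σ) R) else 0) + wv R l * 0) =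
      (if k = m then io (qf l k) * wv R l else 0) + (if l = m then io (qf l k) * wv R k else 0) := by
    intro l k
    split_ifs <;> ring
  simp only [h1, Finset.sum_add_distrib]
  simp only [Finset.sum_ite_eq', Finset.mem_univ, if_true]
  have h2 : ∑ l : σ, ∑ k : σ, (if l = m then io (qf l k) * wv R k else 0 : MvPolynomial (Vr σ) R) =
      ∑ k : σ, io (qf m k) * wv R k := by
    rw [Finset.sum_comm]
    simp only [Finset.sum_ite_eq', Finset.mem_univ, if_true]
  rw [h2, ← Finset.sum_add_distrib]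
  refine Finset.sum_congr rfl fun l _ => ?_
  rw [Matrix.add_apply, Matrix.transpose_apply, map_add]
  ring

theorem pderiv_qw_b (qf : Matrix σ σ (MvPolynomial σ R)) (b : Bool) :
    pderiv (Sum.inr b) (qw qf) = 0 := by
  have hio : ∀ g : MvPolynomial σ R, pderiv (Sum.inr b)
      (io g : MvPolynomial (Vr σ) R) = 0 := fun g => pderiv_io_ne _ (by simp) g
  have hw : ∀ l, pderiv (Sum.inr b) (wv R l : MvPolynomial (Vr σ) R) = 0 := by
    intro l
    unfold wv
    rw [pderiv_X_of_ne]
    simp
  unfold qw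
  rw [map_sum]
  simp only [map_sum, Derivation.leibniz, hio, hw, smul_eq_mul]
  simp

/-- The last relation of the chart. -/
noncomputable def Erel (qf : Matrix σ σ (MvPolynomial σ R)) (c : MvPolynomial σ R)
    (s e1 e2 : ℕ) : MvPolynomial (Vr σ) R :=
  io c * (uv R σ ^ e1 * vv R σ ^ e2) + uv R σ ^ s * qw qf

/-- The relations of the chart. -/
noncomputable def rel (π : R) (G : MvPolynomial σ R) (a : ℕ) (j : σ) (E : MvPolynomial (Vr σ) R) :
    σ ⊕ Fin 3 → MvPolynomial (Vr σ) R
  | Sum.inl l => io (pderiv l G) - C π ^ a * uv R σ * wv R l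
  | Sum.inr 0 => wv R j - 1
  | Sum.inr 1 => uv R σ * vv R σ - C π
  | Sum.inr 2 => E

/-- The derivative of a sum of multiples of elements of `Q`. -/
theorem der_sum {R W κ : Type} [CommRing R] [CommRing W] [Algebra R W] [Fintype κ]
    (D : Derivation R W W) (Q : Ideal W) (f : κ → W) (hf : ∀ i, f i ∈ Q) (α : κ → W)
    (h : ∑ i, α i * f i ∈ Q ^ 2) : ∑ i, α i * D (f i) ∈ Q := by
  have h1 := der_sq D Q _ h
  rw [map_sum] at h1
  have h2 : ∑ i, α i * D (f i) = ∑ i, D (α i * f i) - ∑ i, f i * D (α i) := by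
    rw [← Finset.sum_sub_distrib]
    refine Finset.sum_congr rfl fun i _ => ?_
    rw [D.leibniz, smul_eq_mul, smul_eq_mul]
    ring
  rw [h2]
  exact Q.sub_mem h1 (Q.sum_mem fun i _ => Q.mul_mem_right _ (hf i))

variable (π : R) (G : MvPolynomial σ R) (a : ℕ) (j : σ) (E : MvPolynomial (Vr σ) R)
  (Q : Ideal (MvPolynomial (Vr σ) R)) (hQ : ∀ i, rel π G a j E i ∈ Q)
  (α : σ ⊕ Fin 3 → MvPolynomial (Vr σ) R) (h : ∑ i, α i * rel π G a j E i ∈ Q ^ 2)

theorem sum_rel (D : Derivation R (MvPolynomial (Vr σ) R) (MvPolynomial (Vr σ) R)) :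
    ∑ i, α i * D (rel π G a j E i) = (∑ l, α (Sum.inl l) *
      (D (io (pderiv l G)) - C π ^ a * (uv R σ * D (wv R l) + wv R l * D (uv R σ)))) +
      α (Sum.inr 0) * D (wv R j) + α (Sum.inr 1) * (uv R σ * D (vv R σ) + vv R σ * D (uv R σ)) +
      α (Sum.inr 2) * D E := by
  have hDC : ∀ r : R, D (C r) = 0 := fun r => D.map_algebraMap r
  have hDCn : D (C π ^ a) = 0 := by rw [← C_pow, hDC]
  rw [Fintype.sum_sum_type, Fin.sum_univ_three]
  have h1 : ∀ l, D (rel π G a j E (Sum.inl l)) =
      D (io (pderiv l G)) - C π ^ a * (uv R σ * D (wv R l) + wv R l * D (uv R σ)) := by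
    intro l
    change D (io (pderiv l G) - C π ^ a * uv R σ * wv R l) = _
    rw [map_sub, D.leibniz, D.leibniz, hDCn]
    simp only [smul_eq_mul]
    ring
  have h2 : D (rel π G a j E (Sum.inr 0)) = D (wv R j) := by
    change D (wv R j - 1) = _
    rw [map_sub, D.map_one_eq_zero, sub_zero]
  have h3 : D (rel π G a j E (Sum.inr 1)) = uv R σ * D (vv R σ) + vv R σ * D (uv R σ) := by
    change D (uv R σ * vv R σ - C π) = _
    rw [map_sub, D.leibniz, hDC, sub_zero, smul_eq_mul, smul_eq_mul]
  have h4 : D (rel π G a j E (Sum.inr 2)) = D E := rfl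
  rw [h2, h3, h4]
  simp only [h1]
  ring

include hQ h

theorem dW (m : σ) : -(α (Sum.inl m) * (C π ^ a * uv R σ)) +
    α (Sum.inr 0) * (if j = m then 1 else 0) +
      α (Sum.inr 2) * pderiv (Sum.inl (Sum.inr m)) E ∈ Q := by
  have h1 := der_sum (pderiv (Sum.inl (Sum.inr m))) Q _ hQ α h
  rw [sum_rel] at h1
  have hw : ∀ l, pderiv (Sum.inl (Sum.inr m)) (wv R l : MvPolynomial (Vr σ) R) =
      if l = m then 1 else 0 := by
    intro l
    unfold wv
    by_cases h : l = m
    · rw [if_pos h, h, pderiv_X_self]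
    · rw [if_neg h, pderiv_X_of_ne]
      simpa using h
  have hu : pderiv (Sum.inl (Sum.inr m)) (uv R σ) = 0 := by
    unfold uv
    rw [pderiv_X_of_ne]
    simp
  have hv : pderiv (Sum.inl (Sum.inr m)) (vv R σ) = 0 := by
    unfold vv
    rw [pderiv_X_of_ne]
    simp
  simp only [hw, hu, hv, pderiv_io_ne (R := R) (Sum.inl (Sum.inr m)) (by simp), mul_zero, add_zero,
    zero_sub] at h1
  have h2 : ∑ l, α (Sum.inl l) * -(C π ^ a * (uv R σ * if l = m then 1 else 0)) =
      -(α (Sum.inl m) * (C π ^ a * uv R σ)) := by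
    rw [Finset.sum_eq_single m]
    · rw [if_pos rfl]
      ring
    · intro l _ hl
      rw [if_neg hl]
      ring
    · intro h
      exact absurd (Finset.mem_univ m) h
  rw [h2] at h1
  exact h1

theorem dT (m : σ) : ∑ l, α (Sum.inl l) * io (hess G l m) +
      α (Sum.inr 2) * pderiv (Sum.inl (Sum.inl m)) E ∈ Q := by
  have h1 := der_sum (pderiv (Sum.inl (Sum.inl m))) Q _ hQ α h
  rw [sum_rel] at h1
  have hw : ∀ l, pderiv (Sum.inl (Sum.inl m)) (wv R l : MvPolynomial (Vr σ) R) = 0 := by
    intro l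
    unfold wv
    rw [pderiv_X_of_ne]
    simp
  have hu : pderiv (Sum.inl (Sum.inl m)) (uv R σ) = 0 := by
    unfold uv
    rw [pderiv_X_of_ne]
    simp
  have hv : pderiv (Sum.inl (Sum.inl m)) (vv R σ) = 0 := by
    unfold vv
    rw [pderiv_X_of_ne]
    simp
  simp only [hw, hu, hv, pderiv_io_T, mul_zero, add_zero, sub_zero] at h1
  exact h1

theorem dU : -(∑ l, α (Sum.inl l) * (C π ^ a * wv R l)) + α (Sum.inr 1) * vv R σ +
      α (Sum.inr 2) * pderiv (Sum.inr true) E ∈ Q := by
  have h1 := der_sum (pderiv (Sum.inr true)) Q _ hQ α h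
  rw [sum_rel] at h1
  have hw : ∀ l, pderiv (Sum.inr true) (wv R l : MvPolynomial (Vr σ) R) = 0 := by
    intro l
    unfold wv
    rw [pderiv_X_of_ne]
    simp
  have hu : pderiv (Sum.inr true) (uv R σ) = 1 := by
    unfold uv
    rw [pderiv_X_self]
  have hv : pderiv (Sum.inr true) (vv R σ) = 0 := by
    unfold vv
    rw [pderiv_X_of_ne]
    simp
  simp only [hw, hu, hv, pderiv_io_ne (R := R) (Sum.inr true) (by simp), mul_zero, add_zero,
    zero_add, mul_one, zero_sub, mul_neg, Finset.sum_neg_distrib] at h1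
  exact h1

theorem dV : α (Sum.inr 1) * uv R σ + α (Sum.inr 2) * pderiv (Sum.inr false) E ∈ Q := by
  have h1 := der_sum (pderiv (Sum.inr false)) Q _ hQ α h
  rw [sum_rel] at h1
  have hw : ∀ l, pderiv (Sum.inr false) (wv R l : MvPolynomial (Vr σ) R) = 0 := by
    intro l
    unfold wv
    rw [pderiv_X_of_ne]
    simp
  have hu : pderiv (Sum.inr false) (uv R σ) = 0 := by
    unfold uv
    rw [pderiv_X_of_ne]
    simp
  have hv : pderiv (Sum.inr false) (vv R σ) = 1 := by
    unfold vv
    rw [pderiv_X_self]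
  simp only [hw, hu, hv, pderiv_io_ne (R := R) (Sum.inr false) (by simp), mul_zero, add_zero,
    zero_add, mul_one, sub_self, Finset.sum_const_zero] at h1
  exact h1

end

end Pool.Agent.Helper382_Nodal
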