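import Pool.Agent.Helper382_Nodal.Pres

/-! The chart of the blow-up: independence of the relations at the points of the chart. -/

set_option autoImplicit false
set_option linter.unusedSectionVars false

namespace Pool.Agent.Helper382_Nodal

open MvPolynomial Pool.Agent.H918R2.Quad

section

variable {R : Type} [CommRing R] {σ : Type} [Fintype σ] [DecidableEq σ]

variable (π : R) (G : MvPolynomial σ R) (a : ℕ) (j : σ)
  (Q : Ideal (MvPolynomial (Vr σ) R)) [Q.IsPrime]

theorem ne_one_mem : (1 : MvPolynomial (Vr σ) R) ∉ Q :=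
  (Ideal.ne_top_iff_one Q).1 (Ideal.IsPrime.ne_top ‹_›)

theorem wj_notMem (E : MvPolynomial (Vr σ) R) (hQ : ∀ i, rel π G a j E i ∈ Q) : wv R j ∉ Q := by
  intro h
  have h1 : wv R j - 1 ∈ Q := hQ (Sum.inr 0)
  apply ne_one_mem Q
  have h2 := Q.sub_mem h h1
  rwa [sub_sub_cancel] at h2

theorem indep_smooth (hQ : ∀ i, rel π G 0 j (io G) i ∈ Q) (hgj : io (pderiv j G) ∉ Q) :
    Indep Q (rel π G 0 j (io G)) := by
  intro α h
  have hw := wj_notMem π G 0 j Q _ hQ
  have hu : uv R σ ∉ Q := by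
    intro hu
    have h1 : io (pderiv j G) - C π ^ 0 * uv R σ * wv R j ∈ Q := hQ (Sum.inl j)
    apply hgj
    have h2 := Q.add_mem h1 (Q.mul_mem_right (wv R j) (Q.mul_mem_left (C π ^ 0) hu))
    rwa [sub_add_cancel] at h2
  have hE : ∀ m, pderiv (Sum.inl (Sum.inr m)) (io G : MvPolynomial (Vr σ) R) = 0 := fun m =>
    pderiv_io_ne _ (by simp) G
  have hEb : ∀ b, pderiv (Sum.inr b) (io G : MvPolynomial (Vr σ) R) = 0 := fun m =>
    pderiv_io_ne _ (by simp) G
  have hne : ∀ m, j ≠ m → α (Sum.inl m) ∈ Q := by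
    intro m hm
    have h1 := dW π G 0 j _ Q hQ α h m
    rw [if_neg hm, hE, mul_zero, mul_zero, add_zero, add_zero, pow_zero, one_mul] at h1
    exact ((Ideal.IsPrime.mem_or_mem ‹_› (Q.neg_mem_iff.1 h1))).resolve_right hu
  have hγ : α (Sum.inr 1) ∈ Q := by
    have h1 := dV π G 0 j _ Q hQ α h
    rw [hEb, mul_zero, add_zero] at h1
    exact (Ideal.IsPrime.mem_or_mem ‹_› h1).resolve_right hu
  have hj : α (Sum.inl j) ∈ Q := by
    have h1 := dU π G 0 j _ Q hQ α h
    rw [hEb, mul_zero, add_zero] at h1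
    have h2 : ∑ l, α (Sum.inl l) * (C π ^ 0 * wv R l) ∈ Q := by
      have h3 := Q.sub_mem (Q.mul_mem_right (vv R σ) hγ) h1
      convert h3 using 1
      ring
    rw [Finset.sum_eq_add_sum_sdiff_singleton_of_mem (Finset.mem_univ j)] at h2
    have h3 : ∑ l ∈ Finset.univ \ {j}, α (Sum.inl l) * (C π ^ 0 * wv R l) ∈ Q := by
      refine Q.sum_mem fun l hl => Q.mul_mem_right _ (hne l ?_)
      intro h4
      rw [h4] at hl
      simp at hl
    have h4 := (Submodule.add_mem_iff_left _ h3).1 h2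
    rw [pow_zero, one_mul] at h4
    exact (Ideal.IsPrime.mem_or_mem ‹_› h4).resolve_right hw
  have hall : ∀ l, α (Sum.inl l) ∈ Q := by
    intro l
    by_cases hl : j = l
    · rw [← hl]; exact hj
    · exact hne l hl
  have hβ : α (Sum.inr 0) ∈ Q := by
    have h1 := dW π G 0 j _ Q hQ α h j
    rw [if_pos rfl, hE, mul_zero, add_zero, mul_one] at h1
    have h2 := (Submodule.add_mem_iff_right _
      (Q.neg_mem (Q.mul_mem_right (C π ^ 0 * uv R σ) hj))).1 h1
    exact h2
  have hδ : α (Sum.inr 2) ∈ Q := by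
    have h1 := dT π G 0 j _ Q hQ α h j
    rw [pderiv_io_T] at h1
    have h2 := (Submodule.add_mem_iff_right _
      (Q.sum_mem fun l _ => Q.mul_mem_right (io (hess G l j)) (hall l))).1 h1
    exact (Ideal.IsPrime.mem_or_mem ‹_› h2).resolve_right hgj
  rintro (l | l)
  · exact hall l
  · match l with
    | 0 => exact hβ
    | 1 => exact hγ
    | 2 => exact hδ

theorem pderiv_Erel_W (qf : Matrix σ σ (MvPolynomial σ R)) (c : MvPolynomial σ R)
    (s e1 e2 : ℕ) (m : σ) :
    pderiv (Sum.inl (Sum.inr m)) (Erel qf c s e1 e2) = uv R σ ^ s * pw qf m := by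
  have hu : pderiv (Sum.inl (Sum.inr m)) (uv R σ) = 0 := by
    unfold uv
    rw [pderiv_X_of_ne]
    simp
  have hv : pderiv (Sum.inl (Sum.inr m)) (vv R σ) = 0 := by
    unfold vv
    rw [pderiv_X_of_ne]
    simp
  have hio : pderiv (Sum.inl (Sum.inr m)) (io c : MvPolynomial (Vr σ) R) = 0 :=
    pderiv_io_ne _ (by simp) c
  unfold Erel
  simp only [map_add, Derivation.leibniz, Derivation.leibniz_pow, hu, hv, hio, pderiv_qw_W,
    smul_zero, add_zero, zero_add, smul_eq_mul, mul_zero]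

theorem pderiv_Erel_V (qf : Matrix σ σ (MvPolynomial σ R)) (c : MvPolynomial σ R)
    (s e1 e2 : ℕ) :
    pderiv (Sum.inr false) (Erel qf c s e1 e2) =
      io c * (uv R σ ^ e1 * ((e2 : MvPolynomial (Vr σ) R) * vv R σ ^ (e2 - 1))) := by
  have hu : pderiv (Sum.inr false) (uv R σ) = 0 := by
    unfold uv
    rw [pderiv_X_of_ne]
    simp
  have hv : pderiv (Sum.inr false) (vv R σ) = 1 := by
    unfold vv
    rw [pderiv_X_self]
  have hio : pderiv (Sum.inr false) (io c : MvPolynomial (Vr σ) R) = 0 :=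
    pderiv_io_ne _ (by simp) c
  unfold Erel
  simp only [map_add, Derivation.leibniz, Derivation.leibniz_pow, hu, hv, hio, pderiv_qw_b,
    smul_zero, add_zero, smul_eq_mul, nsmul_eq_mul, mul_one]
  ring

theorem pderiv_Erel_U (qf : Matrix σ σ (MvPolynomial σ R)) (c : MvPolynomial σ R) :
    pderiv (Sum.inr true) (Erel qf c 2 0 0) = 2 * uv R σ * qw qf := by
  have hu : pderiv (Sum.inr true) (uv R σ) = 1 := by
    unfold uv
    rw [pderiv_X_self]
  have hio : pderiv (Sum.inr true) (io c : MvPolynomial (Vr σ) R) = 0 :=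
    pderiv_io_ne _ (by simp) c
  unfold Erel
  simp only [pow_zero, mul_one, map_add, Derivation.leibniz, Derivation.leibniz_pow, hu, hio,
    pderiv_qw_b, smul_zero, add_zero, zero_add, smul_eq_mul, nsmul_eq_mul]
  push_cast
  ring

end

section

variable {R : Type} [CommRing R] [IsDomain R] [IsDiscreteValuationRing R] {σ : Type} [Fintype σ]
  [DecidableEq σ]

variable (π : R) (hπ : Irreducible π) (G : MvPolynomial σ R) (a : ℕ) (j : σ)
  (Q : Ideal (MvPolynomial (Vr σ) R)) [Q.IsPrime]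
  (qf : Matrix σ σ (MvPolynomial σ R)) (c : MvPolynomial σ R) (s e1 e2 : ℕ)

theorem indep_crit (hQ : ∀ i, rel π G a j (Erel qf c s e1 e2) i ∈ Q) (hπ : Irreducible π)
    (hπQ : C π ∈ Q) (hg : ∀ l, io (pderiv l G) ∈ Q) (hdet : io (hess G).det ∉ Q)
    (hqf : io (qf + qf.transpose).det ∉ Q) (hc : io c ∉ Q) (hV : vv R σ ∈ Q)
    (hcase : (s = 0 ∧ 2 ≤ e2) ∨ (s = 1 ∧ e1 = 0 ∧ e2 = 1) ∨ (s = 2 ∧ e1 = 0 ∧ e2 = 0 ∧ 1 ≤ a)) :
    Indep Q (rel π G a j (Erel qf c s e1 e2)) := by
  intro α h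
  have hw := wj_notMem π G a j Q _ hQ
  have hpu : C π ^ a * uv R σ ∈ Q := by
    have h1 : io (pderiv j G) - C π ^ a * uv R σ * wv R j ∈ Q := hQ (Sum.inl j)
    have h2 := Q.sub_mem (hg j) h1
    rw [sub_sub_cancel] at h2
    exact (Ideal.IsPrime.mem_or_mem ‹_› h2).resolve_right hw
  have hE : io c * (uv R σ ^ e1 * vv R σ ^ e2) + uv R σ ^ s * qw qf ∈ Q := hQ (Sum.inr 2)
  have hdW : ∀ m, α (Sum.inr 0) * (if j = m then 1 else 0) +
      α (Sum.inr 2) * (uv R σ ^ s * pw qf m) ∈ Q := by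
    intro m
    have h1 := dW π G a j _ Q hQ α h m
    rw [pderiv_Erel_W, add_assoc] at h1
    exact (Submodule.add_mem_iff_right _ (Q.neg_mem (Q.mul_mem_left _ hpu))).1 h1
  have hsum : α (Sum.inr 0) * wv R j + α (Sum.inr 2) * (uv R σ ^ s * (2 * qw qf)) ∈ Q := by
    have h1 : ∑ m, (α (Sum.inr 0) * (if j = m then 1 else 0) +
        α (Sum.inr 2) * (uv R σ ^ s * pw qf m)) * wv R m ∈ Q :=
      Q.sum_mem fun m _ => Q.mul_mem_right _ (hdW m)
    have h2 : ∑ m, (α (Sum.inr 0) * (if j = m then 1 else 0) +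
        α (Sum.inr 2) * (uv R σ ^ s * pw qf m)) * wv R m =
        α (Sum.inr 0) * wv R j + α (Sum.inr 2) * (uv R σ ^ s * (2 * qw qf)) := by
      rw [← sum_pw, Finset.mul_sum, Finset.mul_sum]
      simp only [add_mul, Finset.sum_add_distrib]
      congr 1
      · simp [mul_assoc]
      · exact Finset.sum_congr rfl fun m _ => by ring
    rwa [h2] at h1
  -- from `δ * U ^ s` times the polar form
  have hpol : (∀ m, α (Sum.inr 2) * (uv R σ ^ s * pw qf m) ∈ Q) →
      α (Sum.inr 2) * uv R σ ^ s ∈ Q := by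
    intro h1
    by_contra hcon
    have h2 : ∀ m, ∑ l, wv R l * ((qf + qf.transpose).map io) l m ∈ Q := by
      intro m
      have h3 : α (Sum.inr 2) * uv R σ ^ s * pw qf m ∈ Q := by
        rw [mul_assoc]; exact h1 m
      exact (Ideal.IsPrime.mem_or_mem ‹_› h3).resolve_left hcon
    have h3 : ((qf + qf.transpose).map io).det ∉ Q := by
      have h4 : ((qf + qf.transpose).map (io : MvPolynomial σ R →ₐ[R] _)).det =
          io (qf + qf.transpose).det := (AlgHom.map_det io _).symm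
      rw [h4]
      exact hqf
    exact hw (mem_of_det Q _ h3 _ h2 j)
  have hβδ : α (Sum.inr 0) ∈ Q ∧ α (Sum.inr 2) ∈ Q := by
    rcases hcase with ⟨rfl, he2⟩ | ⟨rfl, rfl, rfl⟩ | ⟨rfl, rfl, rfl, ha⟩
    · have hq : qw qf ∈ Q := by
        have h1 : io c * (uv R σ ^ e1 * vv R σ ^ e2) ∈ Q :=
          Q.mul_mem_left _ (Q.mul_mem_left _ (Ideal.pow_mem_of_mem _ hV _ (by omega)))
        have h2 := (Submodule.add_mem_iff_right _ h1).1 hE
        rwa [pow_zero, one_mul] at h2
      have hβ : α (Sum.inr 0) ∈ Q := by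
        have h1 : α (Sum.inr 2) * (uv R σ ^ 0 * (2 * qw qf)) ∈ Q :=
          Q.mul_mem_left _ (Q.mul_mem_left _ (Q.mul_mem_left _ hq))
        have h2 := (Submodule.add_mem_iff_left _ h1).1 hsum
        exact (Ideal.IsPrime.mem_or_mem ‹_› h2).resolve_right hw
      refine ⟨hβ, ?_⟩
      have h1 := hpol fun m => (Submodule.add_mem_iff_right _ (Q.mul_mem_right _ hβ)).1 (hdW m)
      rwa [pow_zero, mul_one] at h1
    · have hq : uv R σ ^ 1 * qw qf ∈ Q := by
        have h1 : io c * (uv R σ ^ 0 * vv R σ ^ 1) ∈ Q :=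
          Q.mul_mem_left _ (Q.mul_mem_left _ (Ideal.pow_mem_of_mem _ hV _ (by omega)))
        exact (Submodule.add_mem_iff_right _ h1).1 hE
      have hβ : α (Sum.inr 0) ∈ Q := by
        have h1 : α (Sum.inr 2) * (uv R σ ^ 1 * (2 * qw qf)) ∈ Q := by
          have h2 : uv R σ ^ 1 * (2 * qw qf) = 2 * (uv R σ ^ 1 * qw qf) := by ring
          rw [h2]
          exact Q.mul_mem_left _ (Q.mul_mem_left _ hq)
        have h2 := (Submodule.add_mem_iff_left _ h1).1 hsum
        exact (Ideal.IsPrime.mem_or_mem ‹_› h2).resolve_right hw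
      refine ⟨hβ, ?_⟩
      have h1 := hpol fun m => (Submodule.add_mem_iff_right _ (Q.mul_mem_right _ hβ)).1 (hdW m)
      rw [pow_one] at h1
      rcases Ideal.IsPrime.mem_or_mem ‹_› h1 with h2 | hu
      · exact h2
      · have h3 := dV π G a j _ Q hQ α h
        rw [pderiv_Erel_V] at h3
        have h4 := (Submodule.add_mem_iff_right _ (Q.mul_mem_left _ hu)).1 h3
        have h5 : α (Sum.inr 2) * io c ∈ Q := by
          simpa using h4
        exact (Ideal.IsPrime.mem_or_mem ‹_› h5).resolve_right hc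
    · have hu : uv R σ ∉ Q := by
        intro hu
        apply hc
        have h1 : uv R σ ^ 2 * qw qf ∈ Q :=
          Q.mul_mem_right _ (Ideal.pow_mem_of_mem _ hu _ (by omega))
        have h2 := (Submodule.add_mem_iff_left _ h1).1 hE
        simpa using h2
      have hγ : α (Sum.inr 1) ∈ Q := by
        have h3 := dV π G a j _ Q hQ α h
        rw [pderiv_Erel_V] at h3
        have h4 : α (Sum.inr 1) * uv R σ ∈ Q := by simpa using h3
        exact (Ideal.IsPrime.mem_or_mem ‹_› h4).resolve_right hu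
      have h2q : α (Sum.inr 2) * (2 * uv R σ * qw qf) ∈ Q := by
        have h3 := dU π G a j _ Q hQ α h
        rw [pderiv_Erel_U] at h3
        refine (Submodule.add_mem_iff_right _ (Q.add_mem (Q.neg_mem (Q.sum_mem fun l _ => ?_))
          (Q.mul_mem_right _ hγ))).1 h3
        exact Q.mul_mem_left _ (Q.mul_mem_right _ (Ideal.pow_mem_of_mem _ hπQ _ (by omega)))
      have hβ : α (Sum.inr 0) ∈ Q := by
        have h1 : α (Sum.inr 2) * (uv R σ ^ 2 * (2 * qw qf)) ∈ Q := by
          have h2 : α (Sum.inr 2) * (uv R σ ^ 2 * (2 * qw qf)) =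
              uv R σ * (α (Sum.inr 2) * (2 * uv R σ * qw qf)) := by ring
          rw [h2]
          exact Q.mul_mem_left _ h2q
        have h2 := (Submodule.add_mem_iff_left _ h1).1 hsum
        exact (Ideal.IsPrime.mem_or_mem ‹_› h2).resolve_right hw
      refine ⟨hβ, ?_⟩
      have h1 := hpol fun m => (Submodule.add_mem_iff_right _ (Q.mul_mem_right _ hβ)).1 (hdW m)
      rcases Ideal.IsPrime.mem_or_mem ‹_› h1 with h2 | hu'
      · exact h2
      · exact absurd (Ideal.IsPrime.mem_of_pow_mem ‹_› _ hu') hu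
  obtain ⟨hβ, hδ⟩ := hβδ
  have hα : ∀ l, α (Sum.inl l) ∈ Q := by
    intro l
    have h1 : ∀ m, ∑ l, α (Sum.inl l) * ((hess G).map io) l m ∈ Q := by
      intro m
      have h2 := dT π G a j _ Q hQ α h m
      exact (Submodule.add_mem_iff_left _ (Q.mul_mem_right _ hδ)).1 h2
    have h3 : ((hess G).map (io : MvPolynomial σ R →ₐ[R] _)).det ∉ Q := by
      have h4 : ((hess G).map (io : MvPolynomial σ R →ₐ[R] _)).det =
          io (hess G).det := (AlgHom.map_det io _).symm
      rw [h4]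
      exact hdet
    exact mem_of_det Q _ h3 _ h1 l
  have hγ : α (Sum.inr 1) ∈ Q := by
    by_contra hcon
    rw [Fintype.sum_sum_type, Fin.sum_univ_three] at h
    have hsq : ∀ x y, x ∈ Q → y ∈ Q → x * y ∈ Q ^ 2 := by
      intro x y hx hy
      rw [pow_two]
      exact Ideal.mul_mem_mul hx hy
    have h1 : α (Sum.inr 1) * rel π G a j (Erel qf c s e1 e2) (Sum.inr 1) ∈ Q ^ 2 := by
      have h2 := Ideal.sub_mem _ (Ideal.sub_mem _ (Ideal.sub_mem _ h
        (Ideal.sum_mem (Q ^ 2) fun l (_ : l ∈ Finset.univ) => hsq _ _ (hα l) (hQ (Sum.inl l))))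
        (hsq _ _ hβ (hQ (Sum.inr 0)))) (hsq _ _ hδ (hQ (Sum.inr 2)))
      convert h2 using 1
      ring
    by_cases hu : uv R σ ∈ Q
    · have h3 : α (Sum.inr 1) * C π ∈ Q ^ 2 := by
        have h4 : α (Sum.inr 1) * (uv R σ * vv R σ - C π) ∈ Q ^ 2 := h1
        have h5 : α (Sum.inr 1) * C π = α (Sum.inr 1) * (uv R σ * vv R σ) -
          α (Sum.inr 1) * (uv R σ * vv R σ - C π) := by ring
        rw [h5]
        exact Ideal.sub_mem _ (Ideal.mul_mem_left _ _ (hsq _ _ hu hV)) h4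
      exact pi_not_sq π hπ Q inferInstance hπQ _ hcon h3
    · have h2 := dV π G a j _ Q hQ α (by
        rw [Fintype.sum_sum_type, Fin.sum_univ_three]
        exact h)
      have h3 := (Submodule.add_mem_iff_left _ (Q.mul_mem_right _ hδ)).1 h2
      exact (Ideal.IsPrime.mem_or_mem ‹_› h3).elim hcon hu
  rintro (l | l)
  · exact hα l
  · match l with
    | 0 => exact hβ
    | 1 => exact hγ
    | 2 => exact hδ

end

end Pool.Agent.Helper382_Nodal
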