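import Pool.Agent.H918R2.Quad.Reg2

/-! Regularity of a quotient of a regular ring by relations which are independent modulo the square
of the maximal ideal. -/

set_option autoImplicit false

namespace Pool.Agent.Helper382_Nodal

open IsLocalRing Module Pool.Agent.H918R2.Quad

section param

variable {B : Type*} [CommRing B] [IsRegularLocalRing B]

theorem exists_param_family {κ : Type} [Finite κ] (t : κ → B) (ht : ∀ i, t i ∈ maximalIdeal B)
    (hind : ∀ α : κ → B, ∑ᶠ i, α i * t i ∈ maximalIdeal B ^ 2 → ∀ i, α i ∈ maximalIdeal B) :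
    ∃ (d : ℕ) (z : Fin d → B) (e : κ → Fin d), Function.Injective e ∧ ringKrullDim B = d ∧
      Ideal.span (Set.range z) = maximalIdeal B ∧ ∀ i, z (e i) = t i := by
  classical
  have : Fintype κ := Fintype.ofFinite κ
  let v : κ → CotangentSpace B := fun i => (maximalIdeal B).toCotangent ⟨t i, ht i⟩
  have hv : LinearIndependent (ResidueField B) v := by
    rw [Fintype.linearIndependent_iff]
    intro g hg i
    choose α hα using fun i => IsLocalRing.residue_surjective (g i)
    have h1 : ∑ j, (maximalIdeal B).toCotangent ⟨α j * t j, Ideal.mul_mem_left _ _ (ht j)⟩ = 0 := by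
      rw [← hg]
      refine Finset.sum_congr rfl fun j _ => ?_
      rw [← hα j]
      rfl
    rw [← map_sum, Ideal.toCotangent_eq_zero] at h1
    have h2 : ((∑ j, (⟨α j * t j, Ideal.mul_mem_left _ _ (ht j)⟩ : maximalIdeal B) :
        maximalIdeal B) : B) = ∑ᶠ j, α j * t j := by
      rw [finsum_eq_sum_of_fintype, AddSubmonoidClass.coe_finsetSum]
    rw [h2] at h1
    rw [← hα i, IsLocalRing.residue_eq_zero_iff]
    exact hind α h1 i
  have hinj : Function.Injective v := hv.injective
  have hli : LinearIndepOn (ResidueField B) id (Set.range v) := hv.linearIndepOn_id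
  let b := Basis.extend hli
  have hmem : ∀ i, v i ∈ hli.extend (Set.subset_univ _) := fun i => hli.subset_extend _ ⟨i, rfl⟩
  let w : κ → hli.extend (Set.subset_univ _) := fun i => ⟨v i, hmem i⟩
  have hwinj : Function.Injective w := fun i j h => hinj (congrArg Subtype.val h)
  have hbw : ∀ i, b (w i) = v i := fun i => Basis.extend_apply_self hli (w i)
  choose z hz using fun i => Ideal.toCotangent_surjective (maximalIdeal B) (b i)
  have hfin : Fintype (hli.extend (Set.subset_univ _)) := by
    have := Module.Finite.finite_basis b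
    exact Fintype.ofFinite _
  have hcard : Fintype.card (hli.extend (Set.subset_univ _)) =
      Module.finrank (ResidueField B) (CotangentSpace B) := (Module.finrank_eq_card_basis b).symm
  let e := Fintype.equivFin (hli.extend (Set.subset_univ _))
  let z' : hli.extend (Set.subset_univ _) → maximalIdeal B := fun y =>
    if h : ∃ i, w i = y then ⟨t h.choose, ht _⟩ else z y
  have hz'w : ∀ i, z' (w i) = ⟨t i, ht i⟩ := by
    intro i
    have h : ∃ j, w j = w i := ⟨i, rfl⟩
    have h1 : h.choose = i := hwinj h.choose_spec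
    simp only [z']
    rw [dif_pos h]
    simp only [h1]
  have hz' : ∀ y, (maximalIdeal B).toCotangent (z' y) = b y := by
    intro y
    by_cases hy : ∃ i, w i = y
    · obtain ⟨i, rfl⟩ := hy
      rw [hz'w, hbw]
    · simp only [z']
      rw [dif_neg hy]
      exact hz y
  refine ⟨_, fun i => (z' (e.symm i) : B), fun i => e (w i), ?_, ?_, ?_, ?_⟩
  · intro i j h
    exact hwinj (e.injective h)
  · rw [hcard]
    exact Pool.Agent.H968R2.FL.finrank_cotangent.symm
  · have h1 := Pool.Agent.H968R2.FL.span_of_basis b z' hz'
    have h2 : (Set.range fun i => (z' (e.symm i) : B)) = Set.range fun i => (z' i : B) := by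
      ext x
      constructor
      · rintro ⟨i, rfl⟩
        exact ⟨e.symm i, rfl⟩
      · rintro ⟨i, rfl⟩
        exact ⟨e i, by simp⟩
    rw [h2]
    exact h1
  · intro i
    simp only [Equiv.symm_apply_apply]
    rw [hz'w]

end param

/-- The relations `f` are independent modulo the square of `P`. -/
def Indep {W κ : Type} [CommRing W] [Fintype κ] (P : Ideal W) (f : κ → W) : Prop :=
  ∀ α : κ → W, ∑ i, α i * f i ∈ P ^ 2 → ∀ i, α i ∈ P

/-- Local generators of a prime of a regular ring, containing independent elements. -/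
theorem exists_local_gens_family {W κ : Type} [CommRing W] [IsRegularRing W] [Fintype κ]
    (P : Ideal W) [P.IsPrime] (f : κ → W) (hf : ∀ i, f i ∈ P) (hind : Indep P f) :
    ∃ G : Finset W, (∀ g ∈ G, g ∈ P) ∧ ((G.card + Fintype.card κ : ℕ) : ℕ∞) ≤ P.height ∧
      ∀ y ∈ P, ∃ c, c ∉ P ∧ c * y ∈ Ideal.span (Set.range f ∪ (G : Set W)) := by
  classical
  let L := Localization.AtPrime P
  have hinj : ∀ x : W, algebraMap W L x ∈ maximalIdeal L ↔ x ∈ P := by
    intro x
    exact IsLocalization.AtPrime.to_map_mem_maximal_iff L P x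
  have hsq : maximalIdeal L ^ 2 = (P ^ 2).map (algebraMap W L) := by
    rw [Ideal.map_pow, Localization.AtPrime.map_eq_maximalIdeal]
  have hind' : ∀ α : κ → L, ∑ᶠ i, α i * algebraMap W L (f i) ∈ maximalIdeal L ^ 2 →
      ∀ i, α i ∈ maximalIdeal L := by
    intro α hα i
    obtain ⟨s, hs⟩ := IsLocalization.exist_integer_multiples_of_finite P.primeCompl α
    choose β hβ using hs
    rw [finsum_eq_sum_of_fintype] at hα
    have h1 : algebraMap W L (∑ j, β j * f j) ∈ (P ^ 2).map (algebraMap W L) := by
      have h2 : algebraMap W L (∑ j, β j * f j) = algebraMap W L s *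
          ∑ j, α j * algebraMap W L (f j) := by
        rw [map_sum, Finset.mul_sum]
        refine Finset.sum_congr rfl fun j _ => ?_
        rw [map_mul, hβ j, Algebra.smul_def, mul_assoc]
      rw [h2, ← hsq]
      exact Ideal.mul_mem_left _ _ hα
    obtain ⟨c, hc, hcm⟩ := mem_of_map_mem P _ _ h1
    rw [Finset.mul_sum] at hcm
    have h3 := hind (fun j => c * β j) (by
      convert hcm using 1
      refine Finset.sum_congr rfl fun j _ => ?_
      ring) i
    have h4 : β i ∈ P := (Ideal.IsPrime.mem_or_mem ‹_› h3).resolve_left hc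
    rw [← hinj, hβ i, Algebra.smul_def] at h4
    refine (Ideal.IsPrime.mem_or_mem (Ideal.IsMaximal.isPrime inferInstance) h4).resolve_left ?_
    intro h5
    rw [hinj] at h5
    exact s.2 h5
  obtain ⟨d, z, e, he, hd, hz, hze⟩ := exists_param_family (B := L)
    (fun i => algebraMap W L (f i)) (fun i => (hinj _).2 (hf i)) hind'
  obtain ⟨G, hG, hcard, hle⟩ := exists_local_gens_aux P z hz
    (Finset.univ \ Finset.univ.image e)
  refine ⟨G, hG, ?_, ?_⟩
  · rw [IsLocalization.AtPrime.ringKrullDim_eq_height P L] at hd
    have h1 : P.height = (d : ℕ∞) := by exact_mod_cast hd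
    rw [h1]
    have h2 : (Finset.univ \ Finset.univ.image e).card + Fintype.card κ = d := by
      rw [Finset.card_sdiff_of_subset (Finset.subset_univ _),
        Finset.card_image_of_injective _ he, Finset.card_univ, Finset.card_univ, Fintype.card_fin]
      have h3 := Fintype.card_le_of_injective e he
      rw [Fintype.card_fin] at h3
      omega
    have h4 : G.card + Fintype.card κ ≤ d := by omega
    exact_mod_cast h4
  · intro y hy
    apply mem_of_map_mem P
    have h3 : algebraMap W L y ∈ Ideal.span (Set.range z) := by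
      rw [hz, ← Localization.AtPrime.map_eq_maximalIdeal]
      exact Ideal.mem_map_of_mem _ hy
    refine (Ideal.span_le.2 ?_) h3
    rintro _ ⟨i, rfl⟩
    by_cases hi : ∃ k, e k = i
    · obtain ⟨k, rfl⟩ := hi
      rw [hze]
      exact Ideal.mem_map_of_mem _ (Ideal.subset_span (Or.inl ⟨k, rfl⟩))
    · have h4 : z i ∈ Ideal.span (z '' ((Finset.univ \ Finset.univ.image e : Finset (Fin d)) :
          Set (Fin d))) := by
        apply Ideal.subset_span
        refine ⟨i, ?_, rfl⟩
        simp only [Finset.coe_sdiff, Finset.coe_univ, Finset.coe_image, Set.image_univ,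
          Set.mem_sdiff, Set.mem_univ, Set.mem_range, true_and]
        exact hi
      exact Ideal.map_mono (Ideal.span_mono Set.subset_union_right) (hle h4)

/-- Regularity of a quotient by independent relations. -/
theorem reg_multi {W A κ : Type} [CommRing W] [IsRegularRing W] [CommRing A] [Fintype κ]
    (pr : W →+* A) (hpr : Function.Surjective pr) (f : κ → W)
    (hker : RingHom.ker pr = Ideal.span (Set.range f)) (q : Ideal A) [q.IsPrime]
    (hind : Indep (q.comap pr) f) : IsRegularLocalRing (Localization.AtPrime q) := by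
  classical
  have hf0 : ∀ i, pr (f i) = 0 := by
    intro i
    rw [← RingHom.mem_ker, hker]
    exact Ideal.subset_span ⟨i, rfl⟩
  obtain ⟨G, hG, hcard, hgen⟩ := exists_local_gens_family (q.comap pr) f (fun i => by
    rw [Ideal.mem_comap, hf0]; exact q.zero_mem) hind
  refine reg_core pr hpr (Finset.univ.image f) (by rw [hker]; simp) q (RingHom.id W)
    (fun z => ⟨z, rfl⟩) ?_ ∅ (by simp) ?_ (Set.range f) ?_ G ?_ ?_ ?_
  · intro x hx
    have h0 : x = 0 := by simpa using hx
    rw [h0]
    exact Ideal.zero_mem _
  · intro x hx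
    have h0 : x = 0 := by simpa using hx
    refine ⟨1, ?_, ?_⟩
    · rw [map_one]
      exact (Ideal.ne_top_iff_one q).1 Ideal.IsPrime.ne_top'
    · rw [h0, mul_zero, map_zero]
      exact Ideal.zero_mem _
  · rintro x ⟨i, rfl⟩
    exact hf0 i
  · intro g hg
    rw [Ideal.map_id]
    exact hG g hg
  · intro y hy
    rw [Ideal.map_id] at hy ⊢
    obtain ⟨c, hc, hcy⟩ := hgen y hy
    exact ⟨c, hc, by simpa using hcy⟩
  · refine le_trans ?_ hcard
    have h1 : (Finset.univ.image f).card ≤ Fintype.card κ := Finset.card_image_le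
    have h2 : (∅ : Finset W).card + G.card + (Finset.univ.image f).card ≤
        G.card + Fintype.card κ := by
      rw [Finset.card_empty]
      omega
    exact_mod_cast h2

end Pool.Agent.Helper382_Nodal
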