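import Mathlib

/-! A sieve for conditions modulo primes given by one equation in all but one of the variables and
finitely many values of the last variable. -/

set_option autoImplicit false
set_option linter.unusedSectionVars false

namespace Pool.Agent.Helper382_Nodal

open MvPolynomial Finset

/-- The number of zeros of a polynomial in a box. -/
theorem sz {ι R : Type} [Fintype ι] [DecidableEq ι] [CommRing R] [IsDomain R] [DecidableEq R]
    (p : MvPolynomial ι R) (hp : p ≠ 0) (L : ℕ) (hL : 0 < L) (S : ι → Finset R)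
    (hS : ∀ i, #(S i) = L) :
    #{x ∈ Fintype.piFinset S | eval x p = 0} * L ≤ p.totalDegree * L ^ Fintype.card ι := by
  classical
  let e := Fintype.equivFin ι
  set n := Fintype.card ι with hn
  set q : MvPolynomial (Fin n) R := rename e p with hq
  have hq0 : q ≠ 0 := by
    intro h
    apply hp
    exact rename_injective e e.injective (by rw [← hq, h, map_zero])
  have hdeg : q.totalDegree ≤ p.totalDegree := totalDegree_rename_le _ _
  set T : Fin n → Finset R := fun j => S (e.symm j) with hT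
  have h1 := schwartz_zippel_sup_sum hq0 T
  have hcard : ∏ i, (#(T i) : ℚ≥0) = (L : ℚ≥0) ^ n := by
    simp only [hT, hS, prod_const, card_univ, Fintype.card_fin]
  have hsup : (q.support.sup fun s ↦ ∑ i, (s i / #(T i) : ℚ≥0)) ≤ (p.totalDegree : ℚ≥0) / L := by
    refine Finset.sup_le fun s hs => ?_
    simp only [hT, hS]
    rw [← Finset.sum_div]
    have h2 : s.sum (fun _ e => e) ≤ q.totalDegree := le_totalDegree hs
    have h3 : ∑ i, s i ≤ p.totalDegree := by
      refine le_trans (le_of_eq ?_) (h2.trans hdeg)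
      rw [Finsupp.sum_fintype _ _ (fun _ => rfl)]
    gcongr
    exact_mod_cast h3
  rw [hcard] at h1
  have h2 := h1.trans hsup
  have hL' : (0 : ℚ≥0) < L := by exact_mod_cast hL
  rw [div_le_div_iff₀ (pow_pos hL' n) hL'] at h2
  have h3 : #{x ∈ Fintype.piFinset T | eval x q = 0} * L ≤ p.totalDegree * L ^ n := by
    exact_mod_cast h2
  refine le_trans (Nat.mul_le_mul_right L ?_) h3
  refine card_le_card_of_injOn (fun x j => x (e.symm j)) ?_ ?_
  · intro x hx
    simp only [coe_filter, Fintype.mem_piFinset, Set.mem_setOf_eq] at hx ⊢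
    refine ⟨fun j => hx.1 _, ?_⟩
    rw [hq, eval_rename]
    have h4 : ((fun j => x (e.symm j)) ∘ e) = x := by
      funext i
      simp
    rw [h4]
    exact hx.2
  · intro x _ y _ hxy
    funext i
    have h5 := congrFun hxy (e i)
    simpa using h5

/-- The number of points of a box which are zeros modulo `p`. -/
theorem sz_mod {ι : Type} [Fintype ι] [DecidableEq ι] (R : MvPolynomial ι ℤ) (p : ℕ)
    [hp : Fact p.Prime] (hR : map (Int.castRingHom (ZMod p)) R ≠ 0) (K : ℕ) (S : ι → Finset ℤ)
    (hS : ∀ i, ∀ r : ZMod p, #{x ∈ S i | ((x : ℤ) : ZMod p) = r} ≤ K) :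
    #{x ∈ Fintype.piFinset S | (p : ℤ) ∣ eval x R} * p ≤
      R.totalDegree * (p * K) ^ Fintype.card ι := by
  classical
  have hp0 : 0 < p := hp.out.pos
  set Rp := map (Int.castRingHom (ZMod p)) R with hRp
  have h1 := sz Rp hR p hp0 (fun _ => (Finset.univ : Finset (ZMod p))) (fun _ => by
    rw [card_univ, ZMod.card])
  set Z := {x ∈ Fintype.piFinset (fun _ : ι => (Finset.univ : Finset (ZMod p))) | eval x Rp = 0}
    with hZ
  have h2 : #{x ∈ Fintype.piFinset S | (p : ℤ) ∣ eval x R} ≤ K ^ Fintype.card ι * #Z := by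
    refine card_le_mul_card_image_of_maps_to (f := fun x i => ((x i : ℤ) : ZMod p)) ?_ _ ?_
    · intro x hx
      rw [mem_filter] at hx
      rw [hZ, mem_filter]
      refine ⟨by simp, ?_⟩
      have h3 : eval (fun i => ((x i : ℤ) : ZMod p)) Rp = ((eval x R : ℤ) : ZMod p) := by
        have h4 := eval₂_comp_left (Int.castRingHom (ZMod p)) (RingHom.id ℤ) x R
        rw [RingHom.comp_id] at h4
        rw [hRp, eval_map]
        exact h4.symm
      rw [h3, ZMod.intCast_zmod_eq_zero_iff_dvd]
      exact hx.2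
    · intro r _
      have h3 : {x ∈ {x ∈ Fintype.piFinset S | (p : ℤ) ∣ eval x R} |
          (fun i => ((x i : ℤ) : ZMod p)) = r} ⊆
          Fintype.piFinset fun i => {y ∈ S i | ((y : ℤ) : ZMod p) = r i} := by
        intro x hx
        rw [mem_filter, mem_filter, Fintype.mem_piFinset] at hx
        rw [Fintype.mem_piFinset]
        intro i
        rw [mem_filter]
        exact ⟨hx.1.1 i, congrFun hx.2 i⟩
      refine (card_le_card h3).trans ?_
      rw [Fintype.card_piFinset]
      calc ∏ i, #{y ∈ S i | ((y : ℤ) : ZMod p) = r i} ≤ ∏ _i : ι, K :=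
            Finset.prod_le_prod' fun i _ => hS i (r i)
        _ = K ^ Fintype.card ι := by rw [prod_const, card_univ]
  have h3 : Rp.totalDegree ≤ R.totalDegree := Finset.sup_mono (support_map_subset _ _)
  calc #{x ∈ Fintype.piFinset S | (p : ℤ) ∣ eval x R} * p
      ≤ K ^ Fintype.card ι * #Z * p := Nat.mul_le_mul_right _ h2
    _ = K ^ Fintype.card ι * (#Z * p) := by ring
    _ ≤ K ^ Fintype.card ι * (Rp.totalDegree * p ^ Fintype.card ι) := Nat.mul_le_mul_left _ h1
    _ ≤ K ^ Fintype.card ι * (R.totalDegree * p ^ Fintype.card ι) := by gcongr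
    _ = R.totalDegree * (p * K) ^ Fintype.card ι := by ring

/-- The growth of a polynomial. -/
theorem growth {ι : Type} [Fintype ι] (R : MvPolynomial ι ℤ) :
    ∃ C₁ : ℕ, ∀ (M : ℕ), 1 ≤ M → ∀ x : ι → ℤ, (∀ i, |x i| ≤ M) →
      |eval x R| ≤ C₁ * (M : ℤ) ^ R.totalDegree := by
  classical
  refine ⟨∑ m ∈ R.support, (R.coeff m).natAbs, fun M hM x hx => ?_⟩
  rw [eval_eq]
  refine (Finset.abs_sum_le_sum_abs _ _).trans ?_
  push_cast
  rw [Finset.sum_mul]
  refine Finset.sum_le_sum fun m hm => ?_
  rw [abs_mul]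
  gcongr
  rw [Finset.abs_prod]
  calc ∏ i ∈ m.support, |x i ^ m i| ≤ ∏ i ∈ m.support, (M : ℤ) ^ m i := by
        refine Finset.prod_le_prod (fun i _ => abs_nonneg _) fun i _ => ?_
        rw [abs_pow]
        gcongr
        exact hx i
    _ = (M : ℤ) ^ (m.sum fun _ e => e) := by
        rw [Finset.prod_pow_eq_pow_sum]
        rfl
    _ ≤ (M : ℤ) ^ R.totalDegree := by
        gcongr
        · exact_mod_cast hM
        · exact le_totalDegree hm

/-- The number of large prime divisors. -/
theorem card_primes_le (L T : ℕ) (m : ℤ) (hm : m ≠ 0) (hL : 2 ≤ L) (hmL : m.natAbs < L ^ (T + 1))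
    (P : Finset ℕ) (hP : ∀ p ∈ P, p.Prime ∧ L < p ∧ (p : ℤ) ∣ m) : #P ≤ T := by
  have h1 : ∏ p ∈ P, p ∣ m.natAbs := by
    refine Finset.prod_primes_dvd _ (fun p hp => Nat.prime_iff.1 (hP p hp).1) fun p hp => ?_
    exact Int.natCast_dvd.1 (hP p hp).2.2
  have h2 : L ^ #P ≤ ∏ p ∈ P, p := by
    rw [← Finset.prod_const]
    exact Finset.prod_le_prod' fun p hp => (hP p hp).2.1.le
  have h3 : L ^ #P ≤ m.natAbs := h2.trans (Nat.le_of_dvd (Int.natAbs_pos.2 hm) h1)
  have h4 : L ^ #P < L ^ (T + 1) := h3.trans_lt hmL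
  have h5 := (Nat.pow_lt_pow_iff_right (by omega : 1 < L)).1 h4
  omega

end Pool.Agent.Helper382_Nodal
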