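import Pool.Agent.Helper382_Nodal.Sieve

/-! A sieve for conditions modulo primes given by one equation in all but one of the variables and
finitely many values of the last variable: the main estimate. -/

set_option autoImplicit false
set_option linter.unusedSectionVars false

namespace Pool.Agent.Helper382_Nodal

open MvPolynomial Finset

section

variable {ι : Type} [Fintype ι] [DecidableEq ι] (i₀ : ι)

/-- The vector with the coordinates `y` and `v`. -/
def cmb (y : {i : ι // i ≠ i₀} → ℤ) (v : ℤ) : ι → ℤ := fun i =>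
  if h : i = i₀ then v else y ⟨i, h⟩

theorem cmb_self (y : {i : ι // i ≠ i₀} → ℤ) (v : ℤ) : cmb i₀ y v i₀ = v := by
  unfold cmb
  rw [dif_pos rfl]

theorem cmb_ne (y : {i : ι // i ≠ i₀} → ℤ) (v : ℤ) (i : {i : ι // i ≠ i₀}) :
    cmb i₀ y v i = y i := by
  unfold cmb
  rw [dif_neg i.2]

theorem cmb_eta (x : ι → ℤ) : cmb i₀ (fun i => x i) (x i₀) = x := by
  funext i
  unfold cmb
  split_ifs with h
  · rw [h]
  · rfl

theorem card_pairs (S : ι → Finset ℤ) (P : (ι → ℤ) → Prop) [DecidablePred P] :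
    #{x ∈ Fintype.piFinset S | P x} ≤
      ∑ y ∈ Fintype.piFinset (fun i : {i : ι // i ≠ i₀} => S i), #{v ∈ S i₀ | P (cmb i₀ y v)} := by
  classical
  rw [← card_sigma]
  refine card_le_card_of_injOn (fun x => ⟨fun i => x i, x i₀⟩) ?_ ?_
  · intro x hx
    simp only [coe_filter, Fintype.mem_piFinset, Set.mem_setOf_eq] at hx
    simp only [coe_sigma, Set.mem_sigma_iff, mem_coe, Fintype.mem_piFinset, mem_filter]
    refine ⟨fun i => hx.1 i, hx.1 i₀, ?_⟩
    rw [cmb_eta]
    exact hx.2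
  · intro x _ y _ hxy
    simp only [Sigma.mk.injEq, heq_eq_eq] at hxy
    rw [← cmb_eta i₀ x, ← cmb_eta i₀ y, hxy.1, hxy.2]

variable (R : MvPolynomial {i : ι // i ≠ i₀} ℤ) (B : ℕ) (Bad : ℕ → (ι → ℤ) → Prop)

/-- The conditions on the bad vectors. -/
structure BadCond (M₀ : ℕ) : Prop where
  dvd : ∀ p : ℕ, p.Prime → ∀ x, Bad p x → (p : ℤ) ∣ eval (fun i : {i : ι // i ≠ i₀} => x i) R
  val : ∀ p : ℕ, p.Prime → M₀ < p → ∀ y : {i : ι // i ≠ i₀} → ℤ, ∃ T : Finset (ZMod p), #T ≤ B ∧
    ∀ v, Bad p (cmb i₀ y v) → ((v : ℤ) : ZMod p) ∈ T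

variable {R B Bad}

theorem card_last {M₀ : ℕ} (h : BadCond i₀ R B Bad M₀) (p : ℕ) (hp : p.Prime) (hpM : M₀ < p)
    (K : ℕ) (S₀ : Finset ℤ) (hS : ∀ r : ZMod p, #{x ∈ S₀ | ((x : ℤ) : ZMod p) = r} ≤ K)
    (y : {i : ι // i ≠ i₀} → ℤ) [DecidablePred (Bad p)] :
    #{v ∈ S₀ | Bad p (cmb i₀ y v)} ≤ B * K := by
  classical
  obtain ⟨T, hT, hTB⟩ := h.val p hp hpM y
  calc #{v ∈ S₀ | Bad p (cmb i₀ y v)} ≤ K * #T := by
        refine card_le_mul_card_image_of_maps_to (f := fun v : ℤ => (v : ZMod p)) ?_ _ ?_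
        · intro v hv
          rw [mem_filter] at hv
          exact hTB v hv.2
        · intro r _
          refine (card_le_card ?_).trans (hS r)
          intro v hv
          rw [mem_filter, mem_filter] at hv
          rw [mem_filter]
          exact ⟨hv.1.1, hv.2⟩
    _ ≤ B * K := by
        rw [mul_comm]
        exact Nat.mul_le_mul_right _ hT

theorem card_index : Fintype.card {i : ι // i ≠ i₀} + 1 = Fintype.card ι := by
  rw [Fintype.card_subtype_compl, Fintype.card_subtype_eq]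
  have : 0 < Fintype.card ι := Fintype.card_pos_iff.2 ⟨i₀⟩
  omega

/-- The primes up to the length of the box. -/
theorem card_small {M₀ : ℕ} (h : BadCond i₀ R B Bad M₀) (p : ℕ) (hp : p.Prime) (hpM : M₀ < p)
    (hR : map (Int.castRingHom (ZMod p)) R ≠ 0) (L : ℕ) (hpL : p ≤ L) (S : ι → Finset ℤ)
    (hS : ∀ i, ∀ r : ZMod p, #{x ∈ S i | ((x : ℤ) : ZMod p) = r} ≤ L / p + 1)
    [DecidablePred (Bad p)] :
    #{x ∈ Fintype.piFinset S | Bad p x} * p ^ 2 ≤
      R.totalDegree * B * (2 * L) ^ Fintype.card ι := by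
  classical
  haveI : Fact p.Prime := ⟨hp⟩
  set K := L / p + 1 with hK
  have hpK : p * K ≤ 2 * L := by
    rw [hK, mul_add, mul_one]
    have := Nat.mul_div_le L p
    omega
  have h1 := card_pairs i₀ S (Bad p)
  have h2 : ∑ y ∈ Fintype.piFinset (fun i : {i : ι // i ≠ i₀} => S i),
      #{v ∈ S i₀ | Bad p (cmb i₀ y v)} ≤
      #{y ∈ Fintype.piFinset (fun i : {i : ι // i ≠ i₀} => S i) | (p : ℤ) ∣ eval y R} * (B * K) := by
    rw [← smul_eq_mul, ← sum_const]
    rw [← sum_filter_add_sum_filter_not (Fintype.piFinset (fun i : {i : ι // i ≠ i₀} => S i))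
      (fun y => (p : ℤ) ∣ eval y R)]
    have h3 : ∑ y ∈ Fintype.piFinset (fun i : {i : ι // i ≠ i₀} => S i) with ¬ (p : ℤ) ∣ eval y R,
        #{v ∈ S i₀ | Bad p (cmb i₀ y v)} = 0 := by
      refine sum_eq_zero fun y hy => ?_
      rw [mem_filter] at hy
      rw [card_eq_zero, filter_eq_empty_iff]
      intro v _ hv
      apply hy.2
      have h4 := h.dvd p hp _ hv
      simp only [cmb_ne] at h4
      exact h4
    rw [h3, add_zero]
    exact sum_le_sum fun y _ => card_last i₀ h p hp hpM K (S i₀) (hS i₀) y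
  have h3 := sz_mod R p hR K (fun i : {i : ι // i ≠ i₀} => S i) (fun i => hS i)
  calc #{x ∈ Fintype.piFinset S | Bad p x} * p ^ 2
      ≤ #{y ∈ Fintype.piFinset (fun i : {i : ι // i ≠ i₀} => S i) | (p : ℤ) ∣ eval y R} *
          (B * K) * p ^ 2 := Nat.mul_le_mul_right _ (h1.trans h2)
    _ = (#{y ∈ Fintype.piFinset (fun i : {i : ι // i ≠ i₀} => S i) | (p : ℤ) ∣ eval y R} * p) *
          (B * (p * K)) := by ring
    _ ≤ (R.totalDegree * (p * K) ^ Fintype.card {i : ι // i ≠ i₀}) * (B * (p * K)) :=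
        Nat.mul_le_mul_right _ h3
    _ = R.totalDegree * B * (p * K) ^ (Fintype.card {i : ι // i ≠ i₀} + 1) := by ring
    _ ≤ R.totalDegree * B * (2 * L) ^ Fintype.card ι := by
        rw [card_index]
        gcongr

/-- The primes greater than the length of the box. -/
theorem card_large {M₀ : ℕ} (h : BadCond i₀ R B Bad M₀) (hR : R ≠ 0) (L : ℕ) (hL : 2 ≤ L)
    (hML : M₀ ≤ L) (S : ι → Finset ℤ) (hSL : ∀ i, #(S i) = L)
    (hS : ∀ i, ∀ p : ℕ, p.Prime → L < p → ∀ r : ZMod p,
      #{x ∈ S i | ((x : ℤ) : ZMod p) = r} ≤ 1)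
    (hval : ∀ y ∈ Fintype.piFinset (fun i : {i : ι // i ≠ i₀} => S i),
      (eval y R).natAbs < L ^ (R.totalDegree + 1))
    [DecidablePred fun x => ∃ p, p.Prime ∧ L < p ∧ Bad p x] :
    #{x ∈ Fintype.piFinset S | ∃ p, p.Prime ∧ L < p ∧ Bad p x} ≤
      (R.totalDegree + R.totalDegree * B) * L ^ (Fintype.card ι - 1) := by
  classical
  have hN := card_index i₀
  have h1 := card_pairs i₀ S (fun x => ∃ p, p.Prime ∧ L < p ∧ Bad p x)
  refine h1.trans ?_
  rw [← sum_filter_add_sum_filter_not (Fintype.piFinset (fun i : {i : ι // i ≠ i₀} => S i))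
      (fun y => eval y R = 0), add_mul]
  have hc : Fintype.card ι - 1 = Fintype.card {i : ι // i ≠ i₀} := by omega
  refine add_le_add ?_ ?_
  · calc ∑ y ∈ Fintype.piFinset (fun i : {i : ι // i ≠ i₀} => S i) with eval y R = 0,
        #{v ∈ S i₀ | ∃ p, p.Prime ∧ L < p ∧ Bad p (cmb i₀ y v)}
        ≤ ∑ y ∈ Fintype.piFinset (fun i : {i : ι // i ≠ i₀} => S i) with eval y R = 0, L := by
          refine sum_le_sum fun y _ => ?_
          exact (card_filter_le _ _).trans (hSL i₀).le
      _ = #{y ∈ Fintype.piFinset (fun i : {i : ι // i ≠ i₀} => S i) | eval y R = 0} * L := by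
          rw [sum_const, smul_eq_mul]
      _ ≤ R.totalDegree * L ^ Fintype.card {i : ι // i ≠ i₀} :=
          sz R hR L (by omega) _ (fun i => hSL i)
      _ = R.totalDegree * L ^ (Fintype.card ι - 1) := by rw [hc]
  · calc ∑ y ∈ Fintype.piFinset (fun i : {i : ι // i ≠ i₀} => S i) with ¬ eval y R = 0,
        #{v ∈ S i₀ | ∃ p, p.Prime ∧ L < p ∧ Bad p (cmb i₀ y v)}
        ≤ ∑ y ∈ Fintype.piFinset (fun i : {i : ι // i ≠ i₀} => S i) with ¬ eval y R = 0,
            R.totalDegree * B := by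
          refine sum_le_sum fun y hy => ?_
          rw [mem_filter] at hy
          set P : Finset ℕ := {p ∈ (eval y R).natAbs.primeFactors | L < p} with hP
          have hP1 : ∀ p ∈ P, p.Prime ∧ L < p ∧ (p : ℤ) ∣ eval y R := by
            intro p hp
            rw [hP, mem_filter, Nat.mem_primeFactors] at hp
            exact ⟨hp.1.1, hp.2, Int.natCast_dvd.2 hp.1.2.1⟩
          have hPc : #P ≤ R.totalDegree :=
            card_primes_le L R.totalDegree (eval y R) hy.2 hL (hval y hy.1) P hP1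
          have hsub : {v ∈ S i₀ | ∃ p, p.Prime ∧ L < p ∧ Bad p (cmb i₀ y v)} ⊆
              P.biUnion fun p => {v ∈ S i₀ | Bad p (cmb i₀ y v)} := by
            intro v hv
            rw [mem_filter] at hv
            obtain ⟨hv1, p, hp, hLp, hb⟩ := hv
            rw [mem_biUnion]
            refine ⟨p, ?_, ?_⟩
            · rw [hP, mem_filter, Nat.mem_primeFactors]
              have h4 := h.dvd p hp _ hb
              simp only [cmb_ne] at h4
              exact ⟨⟨hp, Int.natCast_dvd.1 h4, Int.natAbs_ne_zero.2 hy.2⟩, hLp⟩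
            · rw [mem_filter]
              exact ⟨hv1, hb⟩
          calc #{v ∈ S i₀ | ∃ p, p.Prime ∧ L < p ∧ Bad p (cmb i₀ y v)}
              ≤ ∑ p ∈ P, #{v ∈ S i₀ | Bad p (cmb i₀ y v)} := (card_le_card hsub).trans card_biUnion_le
            _ ≤ ∑ p ∈ P, B * 1 := by
                refine sum_le_sum fun p hp => ?_
                obtain ⟨hp1, hp2, _⟩ := hP1 p hp
                exact card_last i₀ h p hp1 (by omega) 1 (S i₀) (hS i₀ p hp1 hp2) y
            _ = #P * B := by rw [sum_const, smul_eq_mul, mul_one]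
            _ ≤ R.totalDegree * B := Nat.mul_le_mul_right _ hPc
      _ ≤ ∑ y ∈ Fintype.piFinset (fun i : {i : ι // i ≠ i₀} => S i), R.totalDegree * B :=
          sum_le_sum_of_subset (filter_subset _ _)
      _ = R.totalDegree * B * L ^ (Fintype.card ι - 1) := by
          rw [sum_const, smul_eq_mul, Fintype.card_piFinset, hc]
          simp only [hSL, prod_const, card_univ]
          ring

end

end Pool.Agent.Helper382_Nodal
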