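import Pool.Agent.Helper382_Nodal.Family2

/-! Forms with smooth reduction modulo a given prime. -/

set_option autoImplicit false
set_option linter.unusedSectionVars false

namespace Pool.Agent.Helper382_Nodal

open MvPolynomial Pool.Agent.TH214.RM Pool.Agent.H918R2.Quad

/-- The form `T` has no singular point modulo `p` away from the origin. -/
def SmP {m : ℕ} (p : ℕ) (T : MvPolynomial (Fin m) ℤ) : Prop :=
  ∀ P : Ideal (MvPolynomial (Fin m) ℤ), P.IsPrime →
    (∀ r : ℤ, C r ∈ P ↔ r ∈ Ideal.span {(p : ℤ)}) → T ∈ P → (∀ j, pderiv j T ∈ P) → ∀ i, X i ∈ P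

theorem smP_fermat (m d p : ℕ) (hd : ¬ p ∣ d) :
    SmP p (∑ i : Fin m, X i ^ d : MvPolynomial (Fin m) ℤ) := by
  intro P hP hC hT hj i
  have hd0 : d ≠ 0 := by
    rintro rfl
    exact hd (dvd_zero p)
  have h1 := hj i
  rw [map_sum, Finset.sum_eq_single i] at h1
  · rw [Derivation.leibniz_pow, pderiv_X_self, smul_eq_mul, mul_one, nsmul_eq_mul] at h1
    rcases hP.mem_or_mem h1 with h2 | h2
    · exfalso
      have h3 : (C (d : ℤ) : MvPolynomial (Fin m) ℤ) ∈ P := by
        have h4 : (C (d : ℤ) : MvPolynomial (Fin m) ℤ) = (d : MvPolynomial (Fin m) ℤ) :=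
          map_natCast C d
        rw [h4]
        exact h2
      rw [hC, Ideal.mem_span_singleton] at h3
      exact hd (by exact_mod_cast h3)
    · exact hP.mem_of_pow_mem _ h2
  · intro k _ hk
    rw [Derivation.leibniz_pow, pderiv_X_of_ne hk, smul_zero, smul_zero]
  · intro h
    exact absurd (Finset.mem_univ i) h

/-- The form `x_0 ^ (d-1) x_1 + ... + x_n ^ (d-1) x_(n+1) + x_(n+1) ^ d`. -/
noncomputable def towF (n d : ℕ) : MvPolynomial (Fin (n + 2)) ℤ :=
  ∑ i : Fin (n + 1), X i.castSucc ^ (d - 1) * X i.succ + X (Fin.last (n + 1)) ^ d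

theorem smP_tower (n d p : ℕ) (hd3 : 3 ≤ d) (hd : p ∣ d) : SmP p (towF n d) := by
  intro P hP hC hT hj
  have hCd : (d : MvPolynomial (Fin (n + 2)) ℤ) ∈ P := by
    have h4 : (C (d : ℤ) : MvPolynomial (Fin (n + 2)) ℤ) = (d : MvPolynomial (Fin (n + 2)) ℤ) :=
      map_natCast C d
    rw [← h4, hC, Ideal.mem_span_singleton]
    exact_mod_cast hd
  -- the step
  have step : ∀ i₀ : Fin (n + 1), (i₀.succ = Fin.last (n + 1) ∨
      (X i₀.succ : MvPolynomial (Fin (n + 2)) ℤ) ∈ P) →
      (X i₀.castSucc : MvPolynomial (Fin (n + 2)) ℤ) ∈ P := by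
    intro i₀ h0
    have h1 := hj i₀.succ
    unfold towF at h1
    rw [map_add, map_sum] at h1
    have hlast : pderiv i₀.succ (X (Fin.last (n + 1)) ^ d : MvPolynomial (Fin (n + 2)) ℤ) ∈ P := by
      rw [Derivation.leibniz_pow, smul_eq_mul, nsmul_eq_mul]
      exact P.mul_mem_right _ hCd
    have h2 := (Submodule.add_mem_iff_left _ hlast).1 h1
    have h3 : ∀ i : Fin (n + 1), pderiv i₀.succ
        (X i.castSucc ^ (d - 1) * X i.succ : MvPolynomial (Fin (n + 2)) ℤ) =
        (if i = i₀ then X i.castSucc ^ (d - 1) else 0) +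
        X i.succ * pderiv i₀.succ (X i.castSucc ^ (d - 1) : MvPolynomial (Fin (n + 2)) ℤ) := by
      intro i
      rw [Derivation.leibniz, smul_eq_mul, smul_eq_mul]
      congr 1
      by_cases hi : i = i₀
      · rw [if_pos hi, hi, pderiv_X_self, mul_one]
      · rw [if_neg hi, pderiv_X_of_ne (fun h => hi (Fin.succ_injective _ h)), mul_zero]
    simp only [h3, Finset.sum_add_distrib, Finset.sum_ite_eq', Finset.mem_univ, if_true] at h2
    have h4 : ∑ i : Fin (n + 1), X i.succ * pderiv i₀.succ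
        (X i.castSucc ^ (d - 1) : MvPolynomial (Fin (n + 2)) ℤ) ∈ P := by
      refine P.sum_mem fun i _ => P.mul_mem_left _ ?_
      rw [Derivation.leibniz_pow]
      by_cases hi : i.castSucc = i₀.succ
      · rcases h0 with h0 | h0
        · exfalso
          rw [h0] at hi
          exact (Fin.castSucc_lt_last i).ne hi
        · rw [nsmul_eq_mul, smul_eq_mul, hi]
          exact P.mul_mem_left _ (P.mul_mem_right _ (Ideal.pow_mem_of_mem _ h0 _ (by omega)))
      · rw [pderiv_X_of_ne hi, smul_zero, smul_zero]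
        exact P.zero_mem
    have h5 := (Submodule.add_mem_iff_left _ h4).1 h2
    exact hP.mem_of_pow_mem _ h5
  have hcs : ∀ i : Fin (n + 1), (X i.castSucc : MvPolynomial (Fin (n + 2)) ℤ) ∈ P := by
    intro i
    induction i using Fin.reverseInduction with
    | last => exact step _ (Or.inl (Fin.succ_last n))
    | cast i ih => exact step _ (Or.inr (by rw [Fin.succ_castSucc]; exact ih))
  intro i
  induction i using Fin.lastCases with
  | last =>
    unfold towF at hT
    have h1 : ∑ i : Fin (n + 1), X i.castSucc ^ (d - 1) * X i.succ ∈ P :=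
      P.sum_mem fun i _ => P.mul_mem_right _ (Ideal.pow_mem_of_mem _ (hcs i) _ (by omega))
    exact hP.mem_of_pow_mem _ ((Submodule.add_mem_iff_right _ h1).1 hT)
  | cast i => exact hcs i

theorem towF_homog (n d : ℕ) (hd : 1 ≤ d) : (towF n d).IsHomogeneous d := by
  refine IsHomogeneous.add (IsHomogeneous.sum _ _ _ fun i _ => ?_) ?_
  · have h1 := ((isHomogeneous_X ℤ (i.castSucc : Fin (n + 2))).pow (d - 1)).mul
      (isHomogeneous_X ℤ (i.succ : Fin (n + 2)))
    have h2 : 1 * (d - 1) + 1 = d := by omega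
    rwa [h2] at h1
  · have h1 := (isHomogeneous_X ℤ (Fin.last (n + 1))).pow d
    rwa [one_mul] at h1

theorem form_coeff {n d : ℕ} (T : MvPolynomial (Fin (n + 2)) ℤ) (hT : T.IsHomogeneous d) :
    form (fun m : Mon n d => T.coeff m.1) = T := by
  ext m
  by_cases hm : ∑ i, m i = d
  · have h1 := coeff_form (fun m : Mon n d => T.coeff m.1) (mkMon m hm)
    exact h1
  · have h2 : ∀ G : MvPolynomial (Fin (n + 2)) ℤ, G.IsHomogeneous d → G.coeff m = 0 := by
      intro G hG
      refine hG.coeff_eq_zero ?_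
      rw [Finsupp.degree_eq_sum]
      exact hm
    rw [h2 _ (form_homog _), h2 T hT]

/-- A form congruent to a form which is smooth modulo `p` has no singular points over `p`. -/
theorem nod_of_congr {n d : ℕ} (p : ℕ) (T : MvPolynomial (Fin (n + 2)) ℤ)
    (hT : T.IsHomogeneous d) (hsm : SmP p T) (c : Mon n d → ℤ)
    (hc : ∀ m : Mon n d, (p : ℤ) ∣ c m - T.coeff m.1) : Nod (Ideal.span {(p : ℤ)}) (form c) := by
  intro s Q hQ hC hF
  left
  by_contra hcon
  push Not at hcon
  let θ : MvPolynomial (Fin (n + 2)) ℤ →+* MvPolynomial {j : Fin (n + 2) // j ≠ s} ℤ :=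
    ((aeval (tau s) : MvPolynomial (Fin (n + 2)) ℤ →ₐ[ℤ]
        MvPolynomial {j : Fin (n + 2) // j ≠ s} ℤ) : _ →+* _)
  have hθ : ∀ G, θ G = deh s G := fun G => rfl
  have hθC : ∀ r : ℤ, θ (C r) = C r := by
    intro r
    rw [hθ]
    unfold deh
    rw [aeval_C]
    rfl
  have hPC : ∀ r : ℤ, C r ∈ Q.comap θ ↔ r ∈ Ideal.span {(p : ℤ)} := by
    intro r
    rw [Ideal.mem_comap, hθC, hC]
  have hall : ∀ j, pderiv j (form c) ∈ Q.comap θ := fun j =>
    all_pderiv_mem (form c) d (form_homog c) s Q hF hcon j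
  have hp : (C (p : ℤ) : MvPolynomial (Fin (n + 2)) ℤ) ∈ Q.comap θ := by
    rw [hPC]
    exact Ideal.mem_span_singleton_self _
  choose e he using hc
  have hdiff : form c = T + C (p : ℤ) * form e := by
    rw [← form_coeff T hT]
    ext m
    rw [coeff_add, coeff_C_mul]
    by_cases hm : ∑ i, m i = d
    · have h1 := coeff_form c (mkMon m hm)
      have h2 := coeff_form (fun m : Mon n d => T.coeff m.1) (mkMon m hm)
      have h3 := coeff_form e (mkMon m hm)
      have h4 : (mkMon m hm : Mon n d).1 = m := rfl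
      rw [h4] at h1 h2 h3
      rw [h1, h2, h3, ← he, h4]
      ring
    · have h2 : ∀ G : MvPolynomial (Fin (n + 2)) ℤ, G.IsHomogeneous d → G.coeff m = 0 := by
        intro G hG
        refine hG.coeff_eq_zero ?_
        rw [Finsupp.degree_eq_sum]
        exact hm
      rw [h2 _ (form_homog _), h2 _ (form_homog _), h2 _ (form_homog _)]
      ring
  have hTP : T ∈ Q.comap θ := by
    have h1 : form c ∈ Q.comap θ := hF
    rw [hdiff] at h1
    exact (Submodule.add_mem_iff_left _ ((Q.comap θ).mul_mem_right _ hp)).1 h1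
  have hTj : ∀ j, pderiv j T ∈ Q.comap θ := by
    intro j
    have h1 := hall j
    rw [hdiff, map_add, pderiv_C_mul] at h1
    exact (Submodule.add_mem_iff_left _ ((Q.comap θ).mul_mem_right _ hp)).1 h1
  have h1 := hsm (Q.comap θ) (Ideal.comap_isPrime _ _) hPC hTP hTj s
  rw [Ideal.mem_comap, hθ] at h1
  have h2 : deh s (X s : MvPolynomial (Fin (n + 2)) ℤ) = 1 := by
    unfold deh
    rw [aeval_X]
    unfold tau
    rw [dif_pos rfl]
  rw [h2] at h1
  exact (Ideal.ne_top_iff_one Q).1 hQ.ne_top h1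

/-- A form which is smooth modulo `p`. -/
theorem exists_smP (n d p : ℕ) (hd : 3 ≤ d) : ∃ T : MvPolynomial (Fin (n + 2)) ℤ,
    T.IsHomogeneous d ∧ SmP p T := by
  by_cases h : p ∣ d
  · exact ⟨towF n d, towF_homog n d (by omega), smP_tower n d p hd h⟩
  · refine ⟨∑ i, X i ^ d, IsHomogeneous.sum _ _ _ fun i _ => ?_, smP_fermat (n + 2) d p h⟩
    have h1 := (isHomogeneous_X ℤ (i : Fin (n + 2))).pow d
    rwa [one_mul] at h1

/-- The Chinese remainder theorem for the primes up to a bound. -/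
theorem exists_crt (z : ℕ) (f : ℕ → ℤ) : ∃ a : ℤ, ∀ p : ℕ, p.Prime → p ≤ z → (p : ℤ) ∣ a - f p := by
  classical
  obtain ⟨k, hk⟩ := Nat.chineseRemainderOfFinset (fun p => (f p % p).toNat) (fun p => p)
    ((Finset.range (z + 1)).filter Nat.Prime) (fun p hp => (Finset.mem_filter.1 hp).2.ne_zero)
    (fun p hp q hq hpq => (Nat.coprime_primes (Finset.mem_filter.1 hp).2
      (Finset.mem_filter.1 hq).2).2 hpq)
  refine ⟨k, fun p hp hpz => ?_⟩
  have h1 := hk p (Finset.mem_filter.2 ⟨Finset.mem_range.2 (by omega), hp⟩)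
  have hp0 : (p : ℤ) ≠ 0 := by exact_mod_cast hp.ne_zero
  have h2 : ((f p % p).toNat : ℤ) = f p % p := Int.toNat_of_nonneg (Int.emod_nonneg _ hp0)
  have h3 := (Nat.modEq_iff_dvd.1 h1)
  rw [h2] at h3
  have h4 : (p : ℤ) ∣ f p - f p % p := Int.dvd_self_sub_emod
  have h5 := (dvd_neg.2 (dvd_add h4 h3))
  have h6 : -(f p - f p % (p : ℤ) + (f p % (p : ℤ) - (k : ℤ))) = (k : ℤ) - f p := by ring
  rwa [h6] at h5

end Pool.Agent.Helper382_Nodal
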